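import Pool.Agent.W_4ce76a_h14.Gen

set_option autoImplicit false
set_option linter.unusedSectionVars false

/-!
# MP_4ce76a_lc : continuation of `Gen.lean`, see there for the proofs
-/

namespace TF14

variable {p : ℕ} {N : Type} [Field N] {O : ValuationSubring N} {t : N} {k : ℕ}

theorem gen_step (hp : p.Prime) (h : TA p N O t) (m : ℕ)
    (H : MvPolynomial (Fin k × Fin (p ^ m)) N) (hH : H ≠ 0) (z : Fin k → N) {e : N} (he : e ≠ 0) :
    ∃ (x : Fin k → N) (d : N), d ≠ 0 ∧ (∀ a b, Cl O d a b → Cl O e a b) ∧ (∀ i, Cl O e (x i) (z i)) ∧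
      ∀ x' : Fin k → N, (∀ i, Cl O d (x' i) (x i)) → MvPolynomial.eval (lamt hp h m x') H ≠ 0 := by
  have ht : t ≠ 0 := t_ne_zero h
  obtain ⟨d₁, hd₁, hd₁'⟩ := exists_pow_le (O := O) hp m he
  obtain ⟨c', hc', hHc'⟩ := exists_ne_near h H hH (lamt hp h m z) hd₁
  obtain ⟨d₂, hd₂, hd₂'⟩ := cont_aeval (O := O) (M := N) H c'
    (e := t * MvPolynomial.eval c' H) (mul_ne_zero ht hHc')
  obtain ⟨d, hd, hda, hdb⟩ := exists_both (O := O) (pow_ne_zero (p ^ m) hd₂) he
  refine ⟨fun i => ∑ j : Fin (p ^ m), t ^ (j : ℕ) * c' (i, j) ^ (p ^ m), d, hd, hdb, ?_, ?_⟩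
  · intro i
    refine hd₁' _ _ ?_
    have h1 := cl_lam hp h m (e := d₁) (c := fun j => c' (i, j))
      (d := fun j => lamt hp h m z (i, j)) (fun j => hc' (i, j))
    have h2 := lam_spec hp h m (z i)
    rw [h2]
    exact h1
  · intro x' hx' h0
    have h1 : ∀ q : Fin k × Fin (p ^ m), Cl O d₂ (lamt hp h m x' q) (c' q) := by
      rintro ⟨i, j⟩
      have h2 := lam_cl hp h m (hda _ _ (hx' i)) j
      have h3 : lam hp h m (∑ j : Fin (p ^ m), t ^ (j : ℕ) * c' (i, j) ^ (p ^ m)) =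
          fun j => c' (i, j) := lam_unique hp h m _ _ rfl
      rw [h3] at h2
      exact h2
    obtain ⟨u, hu, hu'⟩ := hd₂' _ h1
    have h6 : ∀ v : Fin k × Fin (p ^ m) → N, MvPolynomial.aeval v H = MvPolynomial.eval v H :=
      fun v => by rw [MvPolynomial.aeval_def, MvPolynomial.eval₂_eq_eval_map]; simp
    rw [h6, h6, h0, zero_sub] at hu'
    have h4 : t * -u = 1 := by
      have h5 : MvPolynomial.eval c' H * (t * -u) = MvPolynomial.eval c' H * 1 := by
        rw [mul_one]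
        calc MvPolynomial.eval c' H * (t * -u) = -(t * MvPolynomial.eval c' H * u) := by ring
          _ = MvPolynomial.eval c' H := by rw [← hu', neg_neg]
      exact mul_left_cancel₀ hHc' h5
    refine h.t_inv ?_
    rw [inv_eq_of_mul_eq_one_right h4]
    exact O.neg_mem u hu

theorem gen_list (hp : p.Prime) (h : TA p N O t)
    (s : List (Σ m : ℕ, {H : MvPolynomial (Fin k × Fin (p ^ m)) N // H ≠ 0})) (z : Fin k → N)
    {e : N} (he : e ≠ 0) :
    ∃ x : Fin k → N, (∀ i, Cl O e (x i) (z i)) ∧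
      ∀ q ∈ s, MvPolynomial.eval (lamt hp h q.1 x) q.2.1 ≠ 0 := by
  induction s generalizing z e with
  | nil => exact ⟨z, fun i => cl_refl e (z i), fun q hq => absurd hq List.not_mem_nil⟩
  | cons q s ih =>
    obtain ⟨x₁, d, hd, hde, hx₁, hH⟩ := gen_step hp h q.1 q.2.1 q.2.2 z he
    obtain ⟨x, hx, hxs⟩ := ih x₁ hd
    refine ⟨x, fun i => cl_trans (hde _ _ (hx i)) (hx₁ i), fun r hr => ?_⟩
    rcases List.mem_cons.1 hr with rfl | hr
    · exact hH x hx
    · exact hxs r hr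

end TF14
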