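import Pool.Agent.W_4ce76a_h14.Syn

set_option autoImplicit false
set_option linter.unusedSectionVars false

/-!
# MP_4ce76a_lc : specialisation of separable extensions

`F0 = IntermediateField.adjoin M (Set.range u)` is the fraction field of `A = MvPolynomial α M` (`u` is algebraically independent).
`F1 = IntermediateField.adjoin F0 (Set.range y)` is finite and separable over `F0`; let `θ` be a primitive element (`Field.exists_primitive_element`),
`G0 = minpoly F0 θ`, `y j = P0 j (θ)` with `P0 j : Polynomial F0`.  All coefficients of `G0` and of the `P0 j` are fractions of elements of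
`aeval u '' A`; let `c ∈ A` be a common denominator (`aeval u c ≠ 0`).  Put `G = c G0`, `P j = c P0 j` (polynomials over `A`); the leading coefficient of `G` is `c`.

(c) Let `A1 = Localization.Away c`.  It maps injectively to `F0` (by `u`), and to `N` (by `u'`, since `aeval u' c ≠ 0`).  `G1 = G / c` is a monic polynomial
over `A1` which maps to `G0`.  Let `aeval (Sum.elim u y) F = 0`.  Let `R : Polynomial A1` be the value of `F` at `X i` (`i : α`) and `P j / c` (`j : β`).
`R` maps to a polynomial over `F0` which vanishes at `θ`, so it is divisible by `G0`; so `R %ₘ G1`, which maps to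
`(R mapped to F0) %ₘ G0 = 0`, is `0` (`Polynomial.map_modByMonic`), so `R = G1 * Q`; evaluate at `u'`, `θ'`.
-/

namespace TF14

open MvPolynomial

section Prim_abs

variable {A F0 : Type*} [CommRing A] [Field F0] (f0 : A →+* F0)

theorem Prim_common (h0 : ∀ x : F0, ∃ a b, f0 b ≠ 0 ∧ f0 b * x = f0 a) (s : Finset F0) :
    ∃ c : A, f0 c ≠ 0 ∧ ∀ x ∈ s, ∃ a, f0 a = f0 c * x := by
  classical
  induction s using Finset.induction_on with
  | empty => exact ⟨1, by rw [map_one]; exact one_ne_zero, fun x hx => absurd hx (Finset.notMem_empty x)⟩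
  | insert y s hy ih =>
    obtain ⟨c, hc, h1⟩ := ih
    obtain ⟨a, b, hb, hab⟩ := h0 y
    refine ⟨c * b, by rw [map_mul]; exact mul_ne_zero hc hb, fun x hx => ?_⟩
    rcases Finset.mem_insert.1 hx with rfl | hx
    · exact ⟨c * a, by rw [map_mul, map_mul, ← hab]; ring⟩
    · obtain ⟨a', ha'⟩ := h1 x hx
      exact ⟨a' * b, by rw [map_mul, map_mul, ha']; ring⟩

theorem Prim_lift (Q0 : Polynomial F0) (c : A) (h : ∀ k, ∃ a, f0 a = f0 c * Q0.coeff k) :
    ∃ Q : Polynomial A, Q.map f0 = Polynomial.C (f0 c) * Q0 := by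
  rw [← Polynomial.mem_lifts, Polynomial.lifts_iff_coeff_lifts]
  intro k
  rw [Polynomial.coeff_C_mul]
  obtain ⟨a, ha⟩ := h k
  exact ⟨a, ha⟩

theorem Prim_spec {N M : Type*} [Field N] [Algebra F0 N] [CommRing M] (hf0 : Function.Injective f0)
    (κ : M →+* A) {α β : Type*} (g : α → A) (c : A) (hc : f0 c ≠ 0) (G : Polynomial A)
    (hGc : G.leadingCoeff = c) (θ : N)
    (hG : G.map f0 = Polynomial.C (f0 c) * minpoly F0 θ) (P : β → Polynomial A)
    (F : MvPolynomial (α ⊕ β) M)
    (hF : eval₂ (((algebraMap F0 N).comp f0).comp κ) (Sum.elim (fun i => algebraMap F0 N (f0 (g i)))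
      fun j => (P j).eval₂ ((algebraMap F0 N).comp f0) θ / algebraMap F0 N (f0 c)) F = 0)
    (e' : A →+* N) (θ' : N) (hc' : e' c ≠ 0) (hG' : G.eval₂ e' θ' = 0) :
    eval₂ (e'.comp κ) (Sum.elim (fun i => e' (g i)) fun j => (P j).eval₂ e' θ' / e' c) F = 0 := by
  let A1 := Localization.Away c
  let ι : A →+* A1 := algebraMap A A1
  let v : A1 := IsLocalization.Away.invSelf c
  have hv : ι c * v = 1 := IsLocalization.Away.mul_invSelf c
  let F1 : Polynomial A1 := eval₂ (Polynomial.C.comp (ι.comp κ))
    (Sum.elim (fun i => Polynomial.C (ι (g i))) fun j => Polynomial.C v * (P j).map ι) F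
  -- evaluation of `F1`
  have hev : ∀ (R : Type _) [Field R] (e : A1 →+* R) (x : R),
      F1.eval₂ e x = eval₂ ((e.comp ι).comp κ) (Sum.elim (fun i => e (ι (g i)))
        fun j => (P j).eval₂ (e.comp ι) x / e (ι c)) F := by
    intro R _ e x
    have h1 := eval₂_comp_left (Polynomial.eval₂RingHom e x) (Polynomial.C.comp (ι.comp κ))
      (Sum.elim (fun i => Polynomial.C (ι (g i))) fun j => Polynomial.C v * (P j).map ι) F
    rw [Polynomial.coe_eval₂RingHom] at h1
    rw [show Polynomial.eval₂ e x F1 = Polynomial.eval₂ e x (eval₂ (Polynomial.C.comp (ι.comp κ))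
      (Sum.elim (fun i => Polynomial.C (ι (g i))) fun j => Polynomial.C v * (P j).map ι) F) from rfl, h1]
    have hv' : e (ι c) * e v = 1 := by rw [← map_mul, hv, map_one]
    have hne : e (ι c) ≠ 0 := left_ne_zero_of_mul_eq_one hv'
    congr 1
    · ext r
      simp
    · funext i
      rcases i with i | j
      · simp
      · simp only [Function.comp_apply, Sum.elim_inr, Polynomial.eval₂_mul, Polynomial.eval₂_C,
          Polynomial.eval₂_map]
        rw [eq_div_iff hne]
        linear_combination (Polynomial.eval₂ (e.comp ι) x (P j)) * hv'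
  -- the monic polynomial
  let G1 : Polynomial A1 := Polynomial.C v * G.map ι
  have hG1 : G1.Monic := by
    refine Polynomial.monic_of_natDegree_le_of_coeff_eq_one G.natDegree ?_ ?_
    · exact (Polynomial.natDegree_C_mul_le _ _).trans Polynomial.natDegree_map_le
    · show (Polynomial.C v * G.map ι).coeff G.natDegree = 1
      rw [Polynomial.coeff_C_mul, Polynomial.coeff_map, Polynomial.coeff_natDegree, hGc, mul_comm, hv]
  -- the map to `F0`
  let e0 : A1 →+* F0 := IsLocalization.Away.lift c (isUnit_iff_ne_zero.2 hc)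
  have he0 : ∀ a, e0 (ι a) = f0 a := fun a => IsLocalization.Away.lift_eq c _ a
  have he0' : e0.comp ι = f0 := RingHom.ext he0
  have he0inj : Function.Injective e0 := by
    rw [injective_iff_map_eq_zero]
    intro x hx
    obtain ⟨n, a, ha⟩ := IsLocalization.Away.surj c x
    have h1 : e0 (ι a) = 0 := by
      rw [← ha, map_mul, hx, zero_mul]
    rw [he0] at h1
    have h2 : a = 0 := hf0 (by rw [h1, map_zero])
    rw [h2, map_zero] at ha
    have h3 : x * (ι c ^ n * v ^ n) = 0 := by
      rw [← mul_assoc]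
      have h4 : x * ι c ^ n = 0 := ha
      rw [h4, zero_mul]
    rwa [← mul_pow, hv, one_pow, mul_one] at h3
  have hG1' : G1.map e0 = minpoly F0 θ := by
    show (Polynomial.C v * G.map ι).map e0 = _
    rw [Polynomial.map_mul, Polynomial.map_C, Polynomial.map_map, he0', hG, ← mul_assoc,
      ← Polynomial.C_mul]
    have : e0 v * f0 c = 1 := by rw [← he0, ← map_mul, mul_comm, hv, map_one]
    rw [this, Polynomial.C_1, one_mul]
  have hdvd : minpoly F0 θ ∣ F1.map e0 := by
    refine minpoly.dvd F0 θ ?_
    rw [Polynomial.aeval_def, Polynomial.eval₂_map, hev]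
    have h1 : ((algebraMap F0 N).comp e0).comp ι = (algebraMap F0 N).comp f0 := by
      rw [RingHom.comp_assoc, he0']
    rw [h1]
    have h2 : ∀ a, ((algebraMap F0 N).comp e0) (ι a) = algebraMap F0 N (f0 a) := by
      intro a
      rw [RingHom.comp_apply, he0]
    simp only [h2]
    exact hF
  have hmod : F1 %ₘ G1 = 0 := by
    apply Polynomial.map_injective e0 he0inj
    rw [Polynomial.map_modByMonic e0 hG1, Polynomial.map_zero, hG1',
      Polynomial.modByMonic_eq_zero_iff_dvd (hG1' ▸ hG1.map e0)]
    exact hdvd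
  obtain ⟨Q, hQ⟩ := (Polynomial.modByMonic_eq_zero_iff_dvd hG1).1 hmod
  -- the second evaluation
  let e1 : A1 →+* N := IsLocalization.Away.lift c (isUnit_iff_ne_zero.2 hc')
  have he1 : ∀ a, e1 (ι a) = e' a := fun a => IsLocalization.Away.lift_eq c _ a
  have he1' : e1.comp ι = e' := RingHom.ext he1
  have h3 := hev N e1 θ'
  rw [he1'] at h3
  simp only [he1] at h3
  rw [← h3, hQ, Polynomial.eval₂_mul]
  have h4 : G1.eval₂ e1 θ' = 0 := by
    show (Polynomial.C v * G.map ι).eval₂ e1 θ' = 0
    rw [Polynomial.eval₂_mul, Polynomial.eval₂_map, he1', hG', mul_zero]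
  rw [h4, zero_mul]

end Prim_abs

theorem exists_prim {M N : Type} [Field M] [Field N] [Algebra M N] {α β : Type} [Finite α]
    [Finite β] (u : α → N) (hu : AlgebraicIndependent M u) (y : β → N)
    (hy : ∀ j, IsSeparable (IntermediateField.adjoin M (Set.range u)) (y j)) :
    ∃ (c : MvPolynomial α M) (G : Polynomial (MvPolynomial α M))
      (P : β → Polynomial (MvPolynomial α M)) (θ : N),
      aeval u c ≠ 0 ∧ G.leadingCoeff = c ∧
      (G.map (aeval u : MvPolynomial α M →ₐ[M] N).toRingHom).eval θ = 0 ∧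
      (G.map (aeval u : MvPolynomial α M →ₐ[M] N).toRingHom).derivative.eval θ ≠ 0 ∧
      (∀ j, ((P j).map (aeval u : MvPolynomial α M →ₐ[M] N).toRingHom).eval θ / aeval u c = y j) ∧
      ∀ (u' : α → N) (θ' : N), aeval u' c ≠ 0 →
        (G.map (aeval u' : MvPolynomial α M →ₐ[M] N).toRingHom).eval θ' = 0 →
        ∀ F : MvPolynomial (α ⊕ β) M, aeval (Sum.elim u y) F = 0 →
          aeval (Sum.elim u' fun j =>
            ((P j).map (aeval u' : MvPolynomial α M →ₐ[M] N).toRingHom).eval θ' / aeval u' c) F = 0 := by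
  classical
  let F0 := IntermediateField.adjoin M (Set.range u)
  -- the map from the polynomial ring to `F0`
  let f0 : MvPolynomial α M →ₐ[M] F0 :=
    aeval fun i => (⟨u i, IntermediateField.subset_adjoin _ _ ⟨i, rfl⟩⟩ : F0)
  have hf0 : ∀ a, (f0 a : N) = aeval u a := by
    intro a
    have h1 : (IntermediateField.val F0).comp f0 = aeval u := by
      ext i
      simp [f0]
    exact congrArg (fun g : MvPolynomial α M →ₐ[M] N => g a) h1
  have hf0' : (algebraMap F0 N).comp f0.toRingHom = (aeval u : MvPolynomial α M →ₐ[M] N).toRingHom :=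
    RingHom.ext hf0
  have hinj : Function.Injective f0.toRingHom := by
    intro a b hab
    apply hu
    show aeval u a = aeval u b
    rw [← hf0, ← hf0]
    exact congrArg Subtype.val hab
  have hfrac : ∀ x : F0, ∃ a b, f0.toRingHom b ≠ 0 ∧ f0.toRingHom b * x = f0.toRingHom a := by
    intro x
    obtain ⟨r, s, hrs⟩ := (IntermediateField.mem_adjoin_range_iff M u x.1).1 x.2
    by_cases hs : aeval u s = 0
    · rw [hs, div_zero] at hrs
      refine ⟨0, 1, by rw [map_one]; exact one_ne_zero, ?_⟩
      rw [map_one, one_mul, map_zero]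
      exact Subtype.ext hrs
    · refine ⟨r, s, ?_, ?_⟩
      · intro h
        apply hs
        rw [← hf0]
        exact congrArg Subtype.val h
      · apply Subtype.ext
        show (f0 s : N) * x.1 = (f0 r : N)
        rw [hf0, hf0, hrs, mul_div_cancel₀ _ hs]
  -- the primitive element
  let E := IntermediateField.adjoin F0 (Set.range y)
  have hfd : FiniteDimensional F0 E := by
    have : Finite (Set.range y) := Set.finite_range y
    refine IntermediateField.finiteDimensional_adjoin ?_
    rintro _ ⟨j, rfl⟩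
    exact (hy j).isIntegral
  have hsep : Algebra.IsSeparable F0 E := by
    rw [IntermediateField.isSeparable_adjoin_iff_isSeparable]
    rintro _ ⟨j, rfl⟩
    exact hy j
  let pb := Field.powerBasisOfFiniteOfSeparable F0 E
  have hrep : ∀ j, ∃ f : Polynomial F0, Polynomial.aeval (pb.gen : N) f = y j := by
    intro j
    obtain ⟨f, hf⟩ := pb.exists_eq_aeval' (⟨y j, IntermediateField.subset_adjoin _ _ ⟨j, rfl⟩⟩ : E)
    refine ⟨f, ?_⟩
    have h1 := congrArg (algebraMap E N) hf
    rw [← Polynomial.aeval_algebraMap_apply] at h1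
    exact h1.symm
  choose P0 hP0 using hrep
  have hmin : minpoly F0 (pb.gen : N) = minpoly F0 pb.gen :=
    minpoly.algebraMap_eq (algebraMap E N).injective pb.gen
  have hsepG : (minpoly F0 (pb.gen : N)).Separable := by
    rw [hmin]
    exact Algebra.IsSeparable.isSeparable F0 pb.gen
  have hint : IsIntegral F0 (pb.gen : N) :=
    (Algebra.IsSeparable.isSeparable F0 pb.gen).isIntegral.algebraMap
  obtain ⟨θ, hθ⟩ : ∃ θ : N, θ = (pb.gen : N) := ⟨_, rfl⟩
  rw [← hθ] at hint hsepG
  have hP0' : ∀ j, Polynomial.aeval θ (P0 j) = y j := fun j => by rw [hθ]; exact hP0 j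
  have : Fintype β := Fintype.ofFinite β
  obtain ⟨c, hc, hs⟩ := Prim_common f0.toRingHom hfrac
    ((minpoly F0 θ).coeffs ∪ Finset.univ.biUnion fun j => (P0 j).coeffs)
  have hco : ∀ (Q0 : Polynomial F0), (∀ x ∈ Q0.coeffs, ∃ a, f0.toRingHom a = f0.toRingHom c * x) →
      ∀ k, ∃ a, f0.toRingHom a = f0.toRingHom c * Q0.coeff k := by
    intro Q0 h k
    by_cases hk : Q0.coeff k = 0
    · exact ⟨0, by rw [hk, mul_zero, map_zero]⟩
    · exact h _ (Polynomial.coeff_mem_coeffs hk)
  obtain ⟨G, hG⟩ := Prim_lift f0.toRingHom (minpoly F0 θ) c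
    (hco _ fun x hx => hs x (Finset.mem_union_left _ hx))
  have hPl : ∀ j, ∃ Q : Polynomial (MvPolynomial α M),
      Q.map f0.toRingHom = Polynomial.C (f0.toRingHom c) * P0 j := fun j =>
    Prim_lift f0.toRingHom (P0 j) c (hco _ fun x hx => hs x (Finset.mem_union_right _
      (Finset.mem_biUnion.2 ⟨j, Finset.mem_univ _, hx⟩)))
  choose P hP using hPl
  have hcN : algebraMap F0 N (f0.toRingHom c) = aeval u c := hf0 c
  have hcu : aeval u c ≠ 0 := by
    rw [← hcN]
    exact (map_ne_zero_iff _ (algebraMap F0 N).injective).2 hc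
  have hlead : G.leadingCoeff = c := by
    apply hinj
    rw [← Polynomial.leadingCoeff_map_of_injective hinj, hG, Polynomial.leadingCoeff_mul,
      Polynomial.leadingCoeff_C, (minpoly.monic hint).leadingCoeff, mul_one]
  have hmapG : G.map (aeval u : MvPolynomial α M →ₐ[M] N).toRingHom =
      Polynomial.C (aeval u c) * (minpoly F0 θ).map (algebraMap F0 N) := by
    rw [← hf0', ← Polynomial.map_map, hG, Polynomial.map_mul, Polynomial.map_C, hcN]
  have hPe : ∀ j, (P j).eval₂ ((algebraMap F0 N).comp f0.toRingHom) θ = aeval u c * y j := by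
    intro j
    rw [← Polynomial.eval₂_map, hP, Polynomial.eval₂_mul, Polynomial.eval₂_C, hcN, ← hP0' j,
      Polynomial.aeval_def]
  refine ⟨c, G, P, θ, hcu, hlead, ?_, ?_, ?_, ?_⟩
  · rw [hmapG, Polynomial.eval_mul, Polynomial.eval_map, ← Polynomial.aeval_def, minpoly.aeval,
      mul_zero]
  · rw [hmapG, Polynomial.derivative_C_mul, Polynomial.eval_mul, Polynomial.eval_C,
      Polynomial.derivative_map, Polynomial.eval_map, ← Polynomial.aeval_def]
    exact mul_ne_zero hcu (hsepG.aeval_derivative_ne_zero (minpoly.aeval F0 θ))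
  · intro j
    rw [Polynomial.eval_map, ← hf0', hPe, mul_div_cancel_left₀ _ hcu]
  · intro u' θ' hc' hG' F hF
    have hF' : eval₂ (((algebraMap F0 N).comp f0.toRingHom).comp (C : M →+* MvPolynomial α M))
        (Sum.elim (fun i => algebraMap F0 N (f0.toRingHom (X i)))
        fun j => (P j).eval₂ ((algebraMap F0 N).comp f0.toRingHom) θ /
          algebraMap F0 N (f0.toRingHom c)) F = 0 := by
      rw [← hF, aeval_def]
      congr 1
      · rw [hf0']
        ext r
        simp
      · funext i
        rcases i with i | j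
        · show (f0 (X i) : N) = u i
          rw [hf0, aeval_X]
        · show (P j).eval₂ ((algebraMap F0 N).comp f0.toRingHom) θ /
            algebraMap F0 N (f0.toRingHom c) = y j
          rw [hPe, hcN, mul_div_cancel_left₀ _ hcu]
    have h1 := Prim_spec f0.toRingHom hinj (C : M →+* MvPolynomial α M) X c hc G hlead θ hG P F hF'
      (aeval u' : MvPolynomial α M →ₐ[M] N).toRingHom θ' hc' (by rw [← Polynomial.eval_map]; exact hG')
    rw [← h1, aeval_def]
    congr 1
    · ext r
      simp
    · funext i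
      rcases i with i | j
      · show u' i = aeval u' (X i)
        rw [aeval_X]
      · show ((P j).map (aeval u' : MvPolynomial α M →ₐ[M] N).toRingHom).eval θ' / aeval u' c =
          (P j).eval₂ (aeval u' : MvPolynomial α M →ₐ[M] N).toRingHom θ' / aeval u' c
        rw [Polynomial.eval_map]

end TF14
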