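import Pool.Agent.W_4ce76a_h14.RootCont
import Pool.Agent.W_4ce76a_h14.Prim

set_option autoImplicit false
set_option linter.unusedSectionVars false

/-!
# MP_4ce76a_lc : the implicit function theorem

Take `c, G, P, θ` from `exists_prim`.  If `u'` is close to `u`, the coefficients of `G` and `P j` at `u'` are close to those at `u` (`cont_aeval`), so there is a
root `θ'` of `G` at `u'` close to `θ` (`root_cont`), `aeval u' c ≠ 0`, and `y' j = P j (u', θ') / c (u')` is close to `y j` (`poly_cont`, `div_cont`).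
`y' j` is algebraic over `adjoin M (range u')`: `θ'` is a root of the nonzero polynomial `G` at `u'` with coefficients there (leading coefficient `aeval u' c ≠ 0`).
-/

namespace TF14

open MvPolynomial

theorem perturb_coeff {M N : Type} [Field M] [Field N] [Algebra M N] {α : Type}
    (Q : Polynomial (MvPolynomial α M)) (u : α → N) (i : ℕ) :
    (Q.map (aeval u : MvPolynomial α M →ₐ[M] N).toRingHom).coeff i = aeval u (Q.coeff i) := by
  rw [Polynomial.coeff_map]
  rfl

theorem perturb_coeffs {M N : Type} [Field M] [Field N] [Algebra M N] {O : ValuationSubring N}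
    {α : Type} [Finite α] (Q : Polynomial (MvPolynomial α M)) (u : α → N) {e : N} (he : e ≠ 0) :
    ∃ d : N, d ≠ 0 ∧ ∀ u' : α → N, (∀ i, Cl O d (u' i) (u i)) → ∀ i,
      Cl O e ((Q.map (aeval u' : MvPolynomial α M →ₐ[M] N).toRingHom).coeff i)
        ((Q.map (aeval u : MvPolynomial α M →ₐ[M] N).toRingHom).coeff i) := by
  have h1 : ∀ i : Fin (Q.natDegree + 1), ∃ d : N, d ≠ 0 ∧ ∀ u' : α → N,
      (∀ i, Cl O d (u' i) (u i)) → Cl O e (aeval u' (Q.coeff i)) (aeval u (Q.coeff i)) :=
    fun i => cont_aeval (Q.coeff i) u he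
  choose d hd h2 using h1
  obtain ⟨d', hd', h3⟩ := exists_all (O := O) d hd
  refine ⟨d', hd', fun u' hu' i => ?_⟩
  rw [perturb_coeff, perturb_coeff]
  by_cases hi : i < Q.natDegree + 1
  · exact h2 ⟨i, hi⟩ u' fun j => h3 ⟨i, hi⟩ _ _ (hu' j)
  · rw [Polynomial.coeff_eq_zero_of_natDegree_lt (by omega), map_zero, map_zero]
    exact cl_refl _ _

theorem perturb_eval_mem {N : Type} [Field N] {S : Type} [SetLike S N] [SubringClass S N] (A : S)
    (Q : Polynomial N) (hQ : ∀ i, Q.coeff i ∈ A) {x : N} (hx : x ∈ A) : Q.eval x ∈ A := by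
  rw [Polynomial.eval_eq_sum_range]
  exact sum_mem fun i _ => mul_mem (hQ i) (pow_mem hx i)

theorem perturb {M N : Type} [Field M] [Field N] [Algebra M N] {O : ValuationSubring N}
    (hO : HenselianLocalRing O) (hO' : ∃ x : N, x ≠ 0 ∧ O.valuation x < 1)
    {α β : Type} [Finite α] [Finite β] (u : α → N) (hu : AlgebraicIndependent M u) (y : β → N)
    (hy : ∀ j, IsSeparable (IntermediateField.adjoin M (Set.range u)) (y j)) {e : N} (he : e ≠ 0) :
    ∃ d : N, d ≠ 0 ∧ ∀ u' : α → N, (∀ i, Cl O d (u' i) (u i)) →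
      ∃ y' : β → N, (∀ j, Cl O e (y' j) (y j)) ∧
        (∀ F : MvPolynomial (α ⊕ β) M, aeval (Sum.elim u y) F = 0 →
          aeval (Sum.elim u' y') F = 0) ∧
        ∀ j, IsAlgebraic (IntermediateField.adjoin M (Set.range u')) (y' j) := by
  obtain ⟨c, G, P, θ, hc, hG, hGθ, hGθ', hP, hF⟩ := exists_prim u hu y hy
  -- division
  have h1 : ∀ j : β, ∃ d : N, d ≠ 0 ∧ ∀ a' b' : N,
      Cl O d a' (((P j).map (aeval u : MvPolynomial α M →ₐ[M] N).toRingHom).eval θ) →
      Cl O d b' (aeval u c) → b' ≠ 0 ∧ Cl O e (a' / b') (((P j).map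
        (aeval u : MvPolynomial α M →ₐ[M] N).toRingHom).eval θ / aeval u c) :=
    fun j => div_cont hc he hO'
  choose d1 hd1 h1 using h1
  obtain ⟨d0, hd0, h0⟩ := div_cont (O := O) (a := 0) hc he hO'
  -- numerators
  have h2 : ∀ j : β, ∃ d : N, d ≠ 0 ∧ ∀ (G' : Polynomial N) (y' : N),
      G'.natDegree ≤ (P j).natDegree →
      (∀ i, Cl O d (G'.coeff i)
        (((P j).map (aeval u : MvPolynomial α M →ₐ[M] N).toRingHom).coeff i)) →
      Cl O d y' θ → Cl O (d1 j) (G'.eval y')
        (((P j).map (aeval u : MvPolynomial α M →ₐ[M] N).toRingHom).eval θ) :=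
    fun j => poly_cont _ θ _ (hd1 j)
  choose d2 hd2 h2 using h2
  have h3 : ∀ j : β, ∃ d : N, d ≠ 0 ∧ ∀ u' : α → N, (∀ i, Cl O d (u' i) (u i)) → ∀ i,
      Cl O (d2 j) (((P j).map (aeval u' : MvPolynomial α M →ₐ[M] N).toRingHom).coeff i)
        (((P j).map (aeval u : MvPolynomial α M →ₐ[M] N).toRingHom).coeff i) :=
    fun j => perturb_coeffs (P j) u (hd2 j)
  choose d3 hd3 h3 using h3
  obtain ⟨d4, hd4, h4⟩ := exists_all (O := O) d2 hd2
  obtain ⟨d5, hd5, h5⟩ := root_cont hO hO' (G.map (aeval u : MvPolynomial α M →ₐ[M] N).toRingHom)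
    G.natDegree (Polynomial.natDegree_map_le) hGθ hGθ' hd4
  obtain ⟨d6, hd6, h6⟩ := perturb_coeffs (O := O) G u hd5
  have h7 : ∀ j : β, ∃ d : N, d ≠ 0 ∧ ∀ u' : α → N, (∀ i, Cl O d (u' i) (u i)) →
      Cl O (d1 j) (aeval u' c) (aeval u c) := fun j => cont_aeval c u (hd1 j)
  choose d7 hd7 h7 using h7
  obtain ⟨d8, hd8, h8⟩ := cont_aeval (O := O) c u hd0
  obtain ⟨d, hd, hall⟩ := exists_all (O := O)
    (Sum.elim (fun _ : Unit => d6) (Sum.elim (fun _ : Unit => d8) (Sum.elim d3 d7)))
    (by rintro (_ | _ | j | j) <;> simp [hd6, hd8, hd3, hd7])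
  refine ⟨d, hd, fun u' hu' => ?_⟩
  have a6 : ∀ i, Cl O d6 (u' i) (u i) := fun i => hall (Sum.inl ()) _ _ (hu' i)
  have a8 : ∀ i, Cl O d8 (u' i) (u i) := fun i => hall (Sum.inr (Sum.inl ())) _ _ (hu' i)
  have a3 : ∀ j i, Cl O (d3 j) (u' i) (u i) :=
    fun j i => hall (Sum.inr (Sum.inr (Sum.inl j))) _ _ (hu' i)
  have a7 : ∀ j i, Cl O (d7 j) (u' i) (u i) :=
    fun j i => hall (Sum.inr (Sum.inr (Sum.inr j))) _ _ (hu' i)
  have hc' : aeval u' c ≠ 0 := (h0 0 _ (cl_refl _ _) (h8 u' a8)).1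
  obtain ⟨θ', hθ1, hθ2, hθ3⟩ := h5 (G.map (aeval u' : MvPolynomial α M →ₐ[M] N).toRingHom)
    (Polynomial.natDegree_map_le) (h6 u' a6)
  refine ⟨fun j => ((P j).map (aeval u' : MvPolynomial α M →ₐ[M] N).toRingHom).eval θ' / aeval u' c,
    fun j => ?_, hF u' θ' hc' hθ1, fun j => ?_⟩
  · rw [← hP j]
    exact (h1 j _ _ (h2 j _ _ (Polynomial.natDegree_map_le) (h3 j u' (a3 j)) (h4 j _ _ hθ3))
      (h7 j u' (a7 j))).2
  · have hmem : ∀ q : MvPolynomial α M, aeval u' q ∈ IntermediateField.adjoin M (Set.range u') := by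
      intro q
      induction q using MvPolynomial.induction_on with
      | C a => rw [aeval_C]; exact IntermediateField.algebraMap_mem _ a
      | add a b ha hb => rw [map_add]; exact add_mem ha hb
      | mul_X a i ha =>
        rw [map_mul, aeval_X]
        exact mul_mem ha (IntermediateField.subset_adjoin _ _ ⟨i, rfl⟩)
    have halg : ∀ q : MvPolynomial α M,
        IsAlgebraic (IntermediateField.adjoin M (Set.range u')) (aeval u' q) := fun q =>
      isAlgebraic_algebraMap (⟨_, hmem q⟩ : IntermediateField.adjoin M (Set.range u'))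
    have hθ : IsAlgebraic (IntermediateField.adjoin M (Set.range u')) θ' := by
      have hl : G.map (aeval u' : MvPolynomial α M →ₐ[M] N).toRingHom ∈
          Polynomial.lifts (algebraMap (IntermediateField.adjoin M (Set.range u')) N) := by
        rw [Polynomial.lifts_iff_coeff_lifts]
        intro i
        rw [perturb_coeff]
        exact ⟨⟨_, hmem _⟩, rfl⟩
      rw [Polynomial.mem_lifts] at hl
      obtain ⟨g, hg⟩ := hl
      refine ⟨g, ?_, ?_⟩
      · rintro rfl
        rw [Polynomial.map_zero] at hg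
        have h9 := congrArg (fun q => Polynomial.coeff q G.natDegree) hg
        simp only [Polynomial.coeff_zero] at h9
        rw [perturb_coeff, Polynomial.coeff_natDegree, hG] at h9
        exact hc' h9.symm
      · rw [Polynomial.aeval_def, Polynomial.eval₂_eq_eval_map, hg]
        exact hθ1
    have hA : ((P j).map (aeval u' : MvPolynomial α M →ₐ[M] N).toRingHom).eval θ' ∈
        algebraicClosure (IntermediateField.adjoin M (Set.range u')) N := by
      refine perturb_eval_mem _ _ (fun i => ?_) ?_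
      · rw [perturb_coeff]
        exact mem_algebraicClosure_iff.2 (halg _)
      · exact mem_algebraicClosure_iff.2 hθ
    exact mem_algebraicClosure_iff.1 (div_mem hA (mem_algebraicClosure_iff.2 (halg c)))

end TF14
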