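import Pool.Agent.W_4ce76a_h14.Wit

set_option autoImplicit false
set_option linter.unusedSectionVars false

/-!
# MP_4ce76a_lc : continuation of `Wit.lean`, see there for the proofs
-/

namespace TF14

/-- A literal as a formula. -/
def WitB_fm {n : ℕ} : Lit (Fin n) → Fm n
  | .zer f => .zer f
  | .nzr f => .nzr f
  | .int f => .int f
  | .nin f => .nin f
  | .all k χ => .all k χ

theorem WitB_ex {n : ℕ} (l : Lit (Fin n)) : Ex (WitB_fm l) := by
  cases l <;> exact trivial

theorem WitB_sat {n : ℕ} (l : Lit (Fin n)) {N : Type} [Field N] (O : ValuationSubring N)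
    (a : Fin n → N) : Sat O (WitB_fm l) a ↔ l.Holds O a := by
  cases l <;> exact Iff.rfl

/-- The literal `l` is a witness of the formula `WitB_fm l`. -/
theorem WitB_atom {n : ℕ} (l : Lit (Fin n)) {N : Type} [Field N] (O : ValuationSubring N)
    (a : Fin n → N) (h : l.Holds O a) :
    ∃ (k : ℕ) (y : Fin k → N) (s : List (Lit (Fin n ⊕ Fin k))),
      (∀ l ∈ s, l.Holds O (Sum.elim a y)) ∧
      ∀ (N' : Type) [Field N'] (O' : ValuationSubring N') (a' : Fin n → N') (y' : Fin k → N'),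
        (∀ l ∈ s, l.Holds O' (Sum.elim a' y')) → Sat O' (WitB_fm l) a' := by
  refine ⟨0, Fin.elim0, [l.ren Sum.inl], ?_, ?_⟩
  · intro l' hl'
    rw [List.mem_singleton] at hl'
    rw [hl', Lit.holds_ren, Sum.elim_comp_inl]
    exact h
  · intro N' _ O' a' y' h'
    have h1 := h' _ (List.mem_singleton.2 rfl)
    rw [Lit.holds_ren, Sum.elim_comp_inl] at h1
    exact (WitB_sat l O' a').2 h1

/-- the new variable is moved to the witnesses -/
def WitB_r (n k : ℕ) : Fin (n + 1) ⊕ Fin k → Fin n ⊕ Fin (k + 1)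
  | .inl i => Fin.lastCases (motive := fun _ => Fin n ⊕ Fin (k + 1)) (Sum.inr 0)
      (fun i => Sum.inl i) i
  | .inr j => Sum.inr j.succ

theorem WitB_comp_r {n k : ℕ} {N : Type} (a : Fin n → N) (y : Fin (k + 1) → N) :
    Sum.elim a y ∘ WitB_r n k = Sum.elim (Fin.snoc a (y 0) : Fin (n + 1) → N) (y ∘ Fin.succ) := by
  funext q
  rcases q with i | j
  · refine Fin.lastCases ?_ (fun i => ?_) i
    · simp [WitB_r]
    · simp [WitB_r]
  · rfl

/-- the first witness is moved to the variables -/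
def WitB_q (n k : ℕ) : Fin n ⊕ Fin (k + 1) → Fin (n + 1) ⊕ Fin k
  | .inl i => Sum.inl i.castSucc
  | .inr j => Fin.cases (motive := fun _ => Fin (n + 1) ⊕ Fin k) (Sum.inl (Fin.last n))
      (fun j => Sum.inr j) j

theorem WitB_comp_q {n k : ℕ} {N : Type} (a : Fin n → N) (x : N) (y : Fin k → N) :
    Sum.elim (Fin.snoc a x : Fin (n + 1) → N) y ∘ WitB_q n k =
      Sum.elim a (Fin.cons x y : Fin (k + 1) → N) := by
  funext q
  rcases q with i | j
  · simp [WitB_q]
  · refine Fin.cases ?_ (fun j => ?_) j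
    · simp [WitB_q]
    · simp [WitB_q]

theorem exists_wit {n : ℕ} (φ : Fm n) (hφ : Ex φ) {N : Type} [Field N] (O : ValuationSubring N)
    (a : Fin n → N) (h : Sat O φ a) :
    ∃ (k : ℕ) (y : Fin k → N) (s : List (Lit (Fin n ⊕ Fin k))),
      (∀ l ∈ s, l.Holds O (Sum.elim a y)) ∧
      ∀ (N' : Type) [Field N'] (O' : ValuationSubring N') (a' : Fin n → N') (y' : Fin k → N'),
        (∀ l ∈ s, l.Holds O' (Sum.elim a' y')) → Sat O' φ a' := by
  induction φ with
  | zer f => exact WitB_atom (Lit.zer f) O a h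
  | nzr f => exact WitB_atom (Lit.nzr f) O a h
  | int f => exact WitB_atom (Lit.int f) O a h
  | nin f => exact WitB_atom (Lit.nin f) O a h
  | all k χ => exact WitB_atom (Lit.all k χ) O a h
  | and φ ψ h1 h2 =>
    obtain ⟨k1, y1, s1, hs1, ht1⟩ := h1 hφ.1 a h.1
    obtain ⟨k2, y2, s2, hs2, ht2⟩ := h2 hφ.2 a h.2
    refine ⟨k1 + k2, Fin.append y1 y2, s1.map (Lit.ren (Sum.map id (Fin.castAdd k2))) ++
      s2.map (Lit.ren (Sum.map id (Fin.natAdd k1))), ?_, ?_⟩
    · intro l hl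
      rcases List.mem_append.1 hl with hl | hl
      · obtain ⟨l', hl', rfl⟩ := List.mem_map.1 hl
        rw [Lit.holds_ren, Sum.elim_comp_map, Function.comp_id]
        have : Fin.append y1 y2 ∘ Fin.castAdd k2 = y1 := by
          funext i
          simp
        rw [this]
        exact hs1 l' hl'
      · obtain ⟨l', hl', rfl⟩ := List.mem_map.1 hl
        rw [Lit.holds_ren, Sum.elim_comp_map, Function.comp_id]
        have : Fin.append y1 y2 ∘ Fin.natAdd k1 = y2 := by
          funext i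
          simp
        rw [this]
        exact hs2 l' hl'
    · intro N' _ O' a' y' h'
      refine ⟨ht1 N' O' a' (y' ∘ Fin.castAdd k2) fun l hl => ?_,
        ht2 N' O' a' (y' ∘ Fin.natAdd k1) fun l hl => ?_⟩
      · have h3 := h' _ (List.mem_append_left _ (List.mem_map.2 ⟨l, hl, rfl⟩))
        rw [Lit.holds_ren, Sum.elim_comp_map, Function.comp_id] at h3
        exact h3
      · have h3 := h' _ (List.mem_append_right _ (List.mem_map.2 ⟨l, hl, rfl⟩))
        rw [Lit.holds_ren, Sum.elim_comp_map, Function.comp_id] at h3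
        exact h3
  | or φ ψ h1 h2 =>
    rcases h with h | h
    · obtain ⟨k, y, s, hs, ht⟩ := h1 hφ.1 a h
      exact ⟨k, y, s, hs, fun N' _ O' a' y' h' => Or.inl (ht N' O' a' y' h')⟩
    · obtain ⟨k, y, s, hs, ht⟩ := h2 hφ.2 a h
      exact ⟨k, y, s, hs, fun N' _ O' a' y' h' => Or.inr (ht N' O' a' y' h')⟩
  | ex φ h1 =>
    obtain ⟨x, hx⟩ := h
    obtain ⟨k, y, s, hs, ht⟩ := h1 hφ _ hx
    refine ⟨k + 1, Fin.cons x y, s.map (Lit.ren (WitB_r _ k)), ?_, ?_⟩
    · intro l hl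
      obtain ⟨l', hl', rfl⟩ := List.mem_map.1 hl
      rw [Lit.holds_ren, WitB_comp_r]
      exact hs l' hl'
    · intro N' _ O' a' y' h'
      refine ⟨y' 0, ht N' O' _ (y' ∘ Fin.succ) fun l hl => ?_⟩
      have h3 := h' _ (List.mem_map.2 ⟨l, hl, rfl⟩)
      rw [Lit.holds_ren, WitB_comp_r] at h3
      exact h3
  | ball k φ h1 => exact absurd hφ id

/-- conjunction of a list of literals -/
theorem WitB_conj (n : ℕ) (s : List (Lit (Fin n))) :
    ∃ ψ : Fm n, Ex ψ ∧ ∀ (N : Type) [Field N] (O : ValuationSubring N) (a : Fin n → N),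
      Sat O ψ a ↔ ∀ l ∈ s, l.Holds O a := by
  induction s with
  | nil =>
    refine ⟨Fm.zer 0, trivial, fun N _ O a => ?_⟩
    constructor
    · intro _ l hl
      exact absurd hl (List.not_mem_nil)
    · intro _
      show MvPolynomial.aeval a (0 : MvPolynomial (Fin n) ℤ) = 0
      rw [map_zero]
  | cons l s ih =>
    obtain ⟨ψ, h1, h2⟩ := ih
    refine ⟨Fm.and (WitB_fm l) ψ, ⟨WitB_ex l, h1⟩, fun N _ O a => ?_⟩
    rw [List.forall_mem_cons, ← h2 N O a, ← WitB_sat l O a]
    exact Iff.rfl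

theorem exists_fm (n k : ℕ) (s : List (Lit (Fin n ⊕ Fin k))) :
    ∃ ψ : Fm n, Ex ψ ∧ ∀ (N : Type) [Field N] (O : ValuationSubring N) (a : Fin n → N),
      Sat O ψ a ↔ ∃ y : Fin k → N, ∀ l ∈ s, l.Holds O (Sum.elim a y) := by
  induction k generalizing n with
  | zero =>
    obtain ⟨ψ, h1, h2⟩ := WitB_conj n (s.map (Lit.ren (Sum.elim id Fin.elim0)))
    refine ⟨ψ, h1, fun N _ O a => ?_⟩
    rw [h2]
    have e : ∀ y : Fin 0 → N, a ∘ (Sum.elim id Fin.elim0 : Fin n ⊕ Fin 0 → Fin n) =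
        Sum.elim a y := by
      intro y
      funext q
      rcases q with i | j
      · rfl
      · exact j.elim0
    constructor
    · intro h
      refine ⟨Fin.elim0, fun l hl => ?_⟩
      have h3 := h _ (List.mem_map.2 ⟨l, hl, rfl⟩)
      rw [Lit.holds_ren, e] at h3
      exact h3
    · rintro ⟨y, h⟩ l hl
      obtain ⟨l', hl', rfl⟩ := List.mem_map.1 hl
      rw [Lit.holds_ren, e y]
      exact h l' hl'
  | succ k ih =>
    obtain ⟨ψ, h1, h2⟩ := ih (n + 1) (s.map (Lit.ren (WitB_q n k)))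
    refine ⟨Fm.ex ψ, h1, fun N _ O a => ?_⟩
    constructor
    · rintro ⟨x, hx⟩
      obtain ⟨y, hy⟩ := (h2 N O _).1 hx
      refine ⟨Fin.cons x y, fun l hl => ?_⟩
      have h3 := hy _ (List.mem_map.2 ⟨l, hl, rfl⟩)
      rw [Lit.holds_ren, WitB_comp_q] at h3
      exact h3
    · rintro ⟨y, hy⟩
      refine ⟨y 0, (h2 N O _).2 ⟨y ∘ Fin.succ, fun l hl => ?_⟩⟩
      obtain ⟨l', hl', rfl⟩ := List.mem_map.1 hl
      rw [Lit.holds_ren, WitB_comp_q]
      have : (Fin.cons (y 0) (y ∘ Fin.succ) : Fin (k + 1) → N) = y := Fin.cons_self_tail y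
      rw [this]
      exact hy l' hl'

end TF14
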