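import Pool.Agent.W_4ce76a_h14.SepLev
import Pool.Agent.W_4ce76a_h14.GenB
import Pool.Agent.W_4ce76a_h14.Perturb
import Pool.Agent.W_4ce76a_h14.WitB

set_option autoImplicit false
set_option linter.unusedSectionVars false

/-!
# MP_4ce76a_lc : an existential formula which holds at a generic point holds in a ball

`ball_generic`: `exists_wit` gives `y : Fin r → N` and literals `s` which hold at `Sum.elim (Fin.append X a) y`.  `sep_level` gives `m, l, s'`; put
`u = Sum.elim (lamt m X) s'`.  Let `e1` be the radius from `lits_open` (at `Sum.elim (Fin.append X a) y`), `d` the radius from `perturb` for `e = e1`, `r` a radius such that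
`Cl r X' X` implies `Cl e1 X' X` and `Cl d (lamt m X' q) (lamt m X q)` (`lam_cl` and `exists_both`).  The ball is `X + r O' ^ k`.  For `X'` in it, `u' = Sum.elim (lamt m X') s'`
is `d`-close to `u`, so `perturb` gives `y'`.  If `F` is an integral polynomial with `F (X, a, y) = 0` then, with the polynomial over `M` obtained by the substitution
`a i ↦ C (a i)`, `X i ↦ ∑ j, C (t ^ j) X_(i, j) ^ (p ^ m)`, we get `F (X', a, y') = 0` (`lam_spec` for `X` and for `X'`).  So by `lits_open` all literals hold at `(X', a, y')`.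

`ex_down`: `exists_wit`, `sep_base`, `lits_open`, `perturb` (with radius `d`); choose `u' i` in `M` close to `s i` (`hdense`).  The `y' j` are algebraic over
`adjoin M (range u') = ⊥`, so they are in `M` (`hclosed`).  The literals hold at `(a, y')` in `N`, so in `M` (`holds_down`).
-/

namespace TF14

variable {p : ℕ} {M N : Type} [Field M] [Field N] [Algebra M N] {O : ValuationSubring M}
  {O' : ValuationSubring N} {t : M} {t' : N}

/-- the substitution which expresses the variables by the coordinates -/
noncomputable def BallN_sub {k n r l m p : ℕ} (t : M) (a : Fin n → M) :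
    Fin (k + n) ⊕ Fin r → MvPolynomial (((Fin k × Fin (p ^ m)) ⊕ Fin l) ⊕ Fin r) M :=
  Sum.elim (Fin.addCases
      (fun i => ∑ j : Fin (p ^ m), MvPolynomial.C (t ^ (j : ℕ)) *
        MvPolynomial.X (Sum.inl (Sum.inl (i, j))) ^ (p ^ m))
      (fun i => MvPolynomial.C (a i)))
    (fun j => MvPolynomial.X (Sum.inr j))

theorem BallN_comp {σ τ : Type} (θ : σ → MvPolynomial τ M) (U : τ → N)
    (F : MvPolynomial σ ℤ) :
    MvPolynomial.aeval U (MvPolynomial.aeval θ F) =
      MvPolynomial.aeval (fun v => MvPolynomial.aeval U (θ v)) F := by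
  have h : ((MvPolynomial.aeval U : MvPolynomial τ M →ₐ[M] N).toRingHom).comp
      (MvPolynomial.aeval θ : MvPolynomial σ ℤ →ₐ[ℤ] MvPolynomial τ M).toRingHom =
      (MvPolynomial.aeval (fun v => MvPolynomial.aeval U (θ v)) :
        MvPolynomial σ ℤ →ₐ[ℤ] N).toRingHom := by
    refine MvPolynomial.ringHom_ext (fun r => ?_) (fun i => ?_)
    · simp
    · simp
  exact congrArg (fun g : MvPolynomial σ ℤ →+* N => g F) h

theorem BallN_eval (hp : p.Prime) (h' : TA p N O' t') (ht : algebraMap M N t = t')
    {k n r l m : ℕ} (a : Fin n → M) (X : Fin k → N) (s : Fin l → N) (y : Fin r → N) :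
    (fun v => MvPolynomial.aeval (Sum.elim (Sum.elim (lamt hp h' m X) s) y)
      (BallN_sub (k := k) (n := n) (r := r) (l := l) (m := m) (p := p) t a v)) =
      Sum.elim (Fin.append X fun i => algebraMap M N (a i)) y := by
  funext v
  rcases v with i | j
  · refine Fin.addCases (fun i => ?_) (fun i => ?_) i
    · simp only [BallN_sub, Sum.elim_inl, Fin.addCases_left, Fin.append_left, map_sum, map_mul,
        map_pow, MvPolynomial.aeval_C, MvPolynomial.aeval_X, ht]
      exact (lam_spec hp h' m (X i)).symm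
    · simp only [BallN_sub, Sum.elim_inl, Fin.addCases_right, Fin.append_right,
        MvPolynomial.aeval_C]
  · simp only [BallN_sub, Sum.elim_inr, MvPolynomial.aeval_X]

theorem ball_generic (hp : p.Prime) (h : TA p M O t) (h' : TF p N O' t')
    (hf : Emb O O' t t' (algebraMap M N)) {n : ℕ} (k : ℕ) (ψ : Fm (k + n)) (hψ : Ex ψ)
    (a : Fin n → M) (X : Fin k → N) (hX : ∀ m, AlgebraicIndependent M (lamt hp h'.toTA m X))
    (hS : Sat O' ψ (Fin.append X fun i => algebraMap M N (a i))) :
    Sat O' (Fm.ball k ψ) (fun i => algebraMap M N (a i)) := by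
  obtain ⟨r, y, s, hs, hs'⟩ := exists_wit ψ hψ O' _ hS
  have hO' := nontriv h'.toTA
  obtain ⟨m, l, s', hind, hsep⟩ := sep_level hp h h'.toTA hf X hX y
  obtain ⟨e1, he1, hopen⟩ := lits_open hO' h'.opn s _ hs
  obtain ⟨d, hd, hpert⟩ := perturb h'.hens hO' _ hind y hsep he1
  obtain ⟨r0, hr0, hra, hrb⟩ := exists_both (O := O') (pow_ne_zero (p ^ m) hd) he1
  refine ⟨X, r0, hr0, fun u hu => ?_⟩
  have hcl : ∀ i, Cl O' r0 (X i + r0 * u i) (X i) := fun i => ⟨u i, hu i, by ring⟩
  obtain ⟨y', hy', hF, -⟩ := hpert
    (Sum.elim (lamt hp h'.toTA m fun i => X i + r0 * u i) s') (by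
      rintro (q | q)
      · exact lam_cl hp h'.toTA m (hra _ _ (hcl q.1)) q.2
      · exact cl_refl _ _)
  refine hs' N O' _ y' (hopen _ ?_ ?_)
  · rintro (i | j)
    · simp only [Sum.elim_inl]
      refine Fin.addCases (fun i => ?_) (fun i => ?_) i
      · rw [Fin.append_left, Fin.append_left]
        exact hrb _ _ (hcl i)
      · rw [Fin.append_right, Fin.append_right]
        exact cl_refl _ _
    · exact hy' j
  · intro F hF0
    have e1 := BallN_eval (m := m) hp h'.toTA hf.1 a X s' y
    have e2 := BallN_eval (m := m) hp h'.toTA hf.1 a (fun i => X i + r0 * u i) s' y'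
    rw [← e1, ← BallN_comp] at hF0
    rw [← e2, ← BallN_comp]
    exact hF _ hF0

end TF14
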