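import Pool.Agent.W_4ce76a_h14.Wit

set_option autoImplicit false
set_option linter.unusedSectionVars false

/-!
# MP_4ce76a_lc : continuity

`Cl O e a b`: `a - b = e u` with `u ∈ O`.  For `e ≠ 0` it is equivalent to `O.valuation (a - b) ≤ O.valuation e` (`cl_iff`).
* `exists_both`: for `e, e' ≠ 0` one of them divides the other in `O`.
* `cont_aeval`: induction on `F` (`MvPolynomial.induction_on`): constants; sums; products with `X i`: `a b - a' b' = (a - a') b + a' (b - b')`, where `a'` is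
  bounded (`a'` is close to `a`): for every `b` and `e ≠ 0` there is `e' ≠ 0` with `e' b ∈ e O`.
* `lits_open`: `cont_aeval`; `aeval v F ≠ 0` is preserved if `aeval v' F - aeval v F = e u` with `e = x * aeval v F`, `x` in the maximal ideal, or take
  `e` with `O.valuation e < O.valuation (aeval v F)`; such an `e ≠ 0` exists if the valuation is not trivial; if it is trivial (`O = ⊤`) use
  that `hO` provides a nonzero non-unit.  `∈ O`: `e = 1`.  `∉ O`: `e = 1`.  `all`: `OpenAll.fin`.  For the list take the minimum.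
* `poly_cont`: evaluation of `G` at `y` is continuous in the coefficients of `G` (of bounded degree) and in `y`.
-/

namespace TF14

variable {N : Type} [Field N] {O : ValuationSubring N}

theorem cl_iff {e : N} (he : e ≠ 0) {a b : N} :
    Cl O e a b ↔ O.valuation (a - b) ≤ O.valuation e := by
  constructor
  · rintro ⟨u, hu, h⟩
    rw [h, map_mul]
    have h1 : O.valuation u ≤ 1 := (O.valuation_le_one_iff u).2 hu
    calc O.valuation e * O.valuation u ≤ O.valuation e * 1 := by gcongr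
      _ = O.valuation e := mul_one _
  · intro h
    refine ⟨(a - b) / e, ?_, by field_simp⟩
    rw [← O.valuation_le_one_iff, map_div₀]
    have h0 : O.valuation e ≠ 0 := (O.valuation.ne_zero_iff).2 he
    exact div_le_one_of_le₀ h zero_le

theorem cl_refl (e a : N) : Cl O e a a := ⟨0, O.zero_mem, by simp⟩

theorem cl_symm {e a b : N} (h : Cl O e a b) : Cl O e b a := by
  obtain ⟨u, hu, h⟩ := h
  exact ⟨-u, O.neg_mem u hu, by rw [mul_neg, ← h]; ring⟩

theorem cl_trans {e a b c : N} (h1 : Cl O e a b) (h2 : Cl O e b c) : Cl O e a c := by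
  obtain ⟨u, hu, h⟩ := h1
  obtain ⟨w, hw, h'⟩ := h2
  exact ⟨u + w, O.add_mem u w hu hw, by rw [mul_add, ← h, ← h']; ring⟩

theorem cl_mono {e a b x : N} (hx : x ∈ O) (h : Cl O (e * x) a b) : Cl O e a b := by
  obtain ⟨u, hu, h⟩ := h
  exact ⟨x * u, O.mul_mem x u hx hu, by rw [h]; ring⟩

theorem exists_both {e e' : N} (he : e ≠ 0) (he' : e' ≠ 0) : ∃ d : N, d ≠ 0 ∧
    (∀ a b, Cl O d a b → Cl O e a b) ∧ ∀ a b, Cl O d a b → Cl O e' a b := by
  rcases O.mem_or_inv_mem (e / e') with h | h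
  · refine ⟨e, he, fun a b hab => hab, fun a b hab => cl_mono h ?_⟩
    have h1 : e' * (e / e') = e := by field_simp
    rwa [h1]
  · refine ⟨e', he', fun a b hab => cl_mono h ?_, fun a b hab => hab⟩
    have h1 : e * (e / e')⁻¹ = e' := by field_simp
    rwa [h1]

/-- finitely many radii -/
theorem exists_all {ι : Type} [Finite ι] (e : ι → N) (he : ∀ i, e i ≠ 0) :
    ∃ d : N, d ≠ 0 ∧ ∀ i a b, Cl O d a b → Cl O (e i) a b := by
  classical
  have := Fintype.ofFinite ι
  have key : ∀ s : Finset ι, ∃ d : N, d ≠ 0 ∧ ∀ i ∈ s, ∀ a b, Cl O d a b → Cl O (e i) a b := by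
    intro s
    induction s using Finset.induction_on with
    | empty => exact ⟨1, one_ne_zero, by simp⟩
    | insert i s _ ih =>
      obtain ⟨d, hd, hds⟩ := ih
      obtain ⟨d', hd', h1, h2⟩ := exists_both (O := O) hd (he i)
      refine ⟨d', hd', fun j hj a b hab => ?_⟩
      rcases Finset.mem_insert.1 hj with rfl | hj
      · exact h2 a b hab
      · exact hds j hj a b (h1 a b hab)
  obtain ⟨d, hd, h⟩ := key Finset.univ
  exact ⟨d, hd, fun i => h i (Finset.mem_univ i)⟩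

theorem Cont_scale (O : ValuationSubring N) (b : N) : ∃ x : N, x ≠ 0 ∧ x ∈ O ∧ x * b ∈ O := by
  rcases O.mem_or_inv_mem b with h | h
  · exact ⟨1, one_ne_zero, O.one_mem, by rwa [one_mul]⟩
  · by_cases hb : b = 0
    · exact ⟨1, one_ne_zero, O.one_mem, by rw [hb, mul_zero]; exact O.zero_mem⟩
    · exact ⟨b⁻¹, inv_ne_zero hb, h, by rw [inv_mul_cancel₀ hb]; exact O.one_mem⟩

theorem Cont_add {e a b c d : N} (h1 : Cl O e a b) (h2 : Cl O e c d) : Cl O e (a + c) (b + d) := by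
  obtain ⟨u, hu, h⟩ := h1
  obtain ⟨w, hw, h'⟩ := h2
  refine ⟨u + w, O.add_mem u w hu hw, ?_⟩
  rw [mul_add, ← h, ← h']
  ring

/-- multiplication is continuous -/
theorem Cont_mul (a b : N) {e : N} (he : e ≠ 0) : ∃ d1 d2 : N, d1 ≠ 0 ∧ d2 ≠ 0 ∧
    ∀ a' b' : N, Cl O d1 a' a → Cl O d2 b' b → Cl O e (a' * b') (a * b) := by
  obtain ⟨x1, hx1, hx1O, hx1b⟩ := Cont_scale O b
  obtain ⟨x2, hx2, hx2O, hx2a⟩ := Cont_scale O (e⁻¹ * a)
  refine ⟨e * x1, x2, mul_ne_zero he hx1, hx2, ?_⟩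
  rintro a' b' ⟨u, hu, h⟩ ⟨w, hw, h'⟩
  refine ⟨x1 * u * (x2 * w) + x1 * b * u + x2 * (e⁻¹ * a) * w, ?_, ?_⟩
  · refine O.add_mem _ _ (O.add_mem _ _ ?_ ?_) ?_
    · exact O.mul_mem _ _ (O.mul_mem _ _ hx1O hu) (O.mul_mem _ _ hx2O hw)
    · exact O.mul_mem _ _ hx1b hu
    · exact O.mul_mem _ _ hx2a hw
  · have h1 : a' = a + e * x1 * u := by rw [← h]; ring
    have h2 : b' = b + x2 * w := by rw [← h']; ring
    rw [h1, h2]
    field_simp
    ring

theorem cont_aeval {σ : Type} [Finite σ] {M : Type} [CommRing M] [Algebra M N]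
    (F : MvPolynomial σ M) (u : σ → N) {e : N} (he : e ≠ 0) :
    ∃ d : N, d ≠ 0 ∧ ∀ u' : σ → N, (∀ i, Cl O d (u' i) (u i)) →
      Cl O e (MvPolynomial.aeval u' F) (MvPolynomial.aeval u F) := by
  induction F using MvPolynomial.induction_on generalizing e with
  | C a =>
    refine ⟨1, one_ne_zero, fun u' _ => ?_⟩
    rw [MvPolynomial.aeval_C, MvPolynomial.aeval_C]
    exact cl_refl _ _
  | add p q hp hq =>
    obtain ⟨d1, hd1, h1⟩ := hp he
    obtain ⟨d2, hd2, h2⟩ := hq he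
    obtain ⟨d, hd, h3, h4⟩ := exists_both (O := O) hd1 hd2
    refine ⟨d, hd, fun u' hu' => ?_⟩
    rw [map_add, map_add]
    exact Cont_add (h1 u' fun i => h3 _ _ (hu' i)) (h2 u' fun i => h4 _ _ (hu' i))
  | mul_X p i hp =>
    obtain ⟨e1, e2, he1, he2, h12⟩ := Cont_mul (O := O) (MvPolynomial.aeval u p) (u i) he
    obtain ⟨d1, hd1, h1⟩ := hp he1
    obtain ⟨d, hd, h3, h4⟩ := exists_both (O := O) hd1 he2
    refine ⟨d, hd, fun u' hu' => ?_⟩
    rw [map_mul, map_mul, MvPolynomial.aeval_X, MvPolynomial.aeval_X]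
    exact h12 _ _ (h1 u' fun i => h3 _ _ (hu' i)) (h4 _ _ (hu' i))

end TF14
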