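import Pool.Agent.W_4ce76a_h14.Cont

set_option autoImplicit false
set_option linter.unusedSectionVars false

/-!
# MP_4ce76a_lc : continuation of `Cont.lean`, see there for the proofs
-/

namespace TF14

variable {N : Type} [Field N] {O : ValuationSubring N}

theorem poly_cont (G : Polynomial N) (y : N) (n : ℕ) {e : N} (he : e ≠ 0) :
    ∃ d : N, d ≠ 0 ∧ ∀ (G' : Polynomial N) (y' : N), G'.natDegree ≤ n →
      (∀ i, Cl O d (G'.coeff i) (G.coeff i)) → Cl O d y' y → Cl O e (G'.eval y') (G.eval y) := by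
  let m : ℕ := max n G.natDegree
  let F : MvPolynomial (Fin (m + 1) ⊕ Unit) ℤ :=
    ∑ i : Fin (m + 1), MvPolynomial.X (Sum.inl i) * MvPolynomial.X (Sum.inr ()) ^ (i : ℕ)
  have hF : ∀ (H : Polynomial N) (z : N), H.natDegree ≤ m →
      MvPolynomial.aeval (Sum.elim (fun i : Fin (m + 1) => H.coeff i) (fun _ : Unit => z)) F =
        H.eval z := by
    intro H z hH
    rw [Polynomial.eval_eq_sum_range' (Nat.lt_succ_of_le hH) z, Finset.sum_range]
    simp only [F, map_sum, map_mul, map_pow, MvPolynomial.aeval_X, Sum.elim_inl, Sum.elim_inr]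
  obtain ⟨d, hd, h⟩ := cont_aeval (O := O) F
    (Sum.elim (fun i : Fin (m + 1) => G.coeff i) (fun _ : Unit => y)) he
  refine ⟨d, hd, fun G' y' hn hc hy => ?_⟩
  have h1 := h (Sum.elim (fun i : Fin (m + 1) => G'.coeff i) (fun _ : Unit => y')) fun i => by
    rcases i with i | i
    · exact hc i
    · exact hy
  rw [hF G' y' (hn.trans (le_max_left _ _)), hF G y (le_max_right _ _)] at h1
  exact h1

theorem ContB_val {d e : N} (hd : d ≠ 0) (he : e ≠ 0)
    (h : ∀ a b, Cl O d a b → Cl O e a b) : O.valuation d ≤ O.valuation e := by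
  have h1 : Cl O d d 0 := (cl_iff hd).2 (by rw [sub_zero])
  have h2 := (cl_iff he).1 (h d 0 h1)
  rwa [sub_zero] at h2

/-- a quotient depends continuously on numerator and denominator -/
theorem div_cont {a b : N} (hb : b ≠ 0) {e : N} (he : e ≠ 0) (hO : ∃ x : N, x ≠ 0 ∧
    O.valuation x < 1) : ∃ d : N, d ≠ 0 ∧ ∀ a' b' : N, Cl O d a' a → Cl O d b' b →
      b' ≠ 0 ∧ Cl O e (a' / b') (a / b) := by
  classical
  obtain ⟨x, hx0, hx1⟩ := hO
  have hxb : x * b ≠ 0 := mul_ne_zero hx0 hb
  have heb : e * b ≠ 0 := mul_ne_zero he hb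
  let c : N := if a = 0 then 1 else e * b ^ 2 / a
  have hc : c ≠ 0 := by
    simp only [c]
    split_ifs with h
    · exact one_ne_zero
    · exact div_ne_zero (mul_ne_zero he (pow_ne_zero 2 hb)) h
  obtain ⟨d1, hd1, h11, h12⟩ := exists_both (O := O) hxb heb
  obtain ⟨d, hd, h21, h22⟩ := exists_both (O := O) hd1 hc
  have v1 : O.valuation d ≤ O.valuation (x * b) :=
    ContB_val hd hxb fun p q h => h11 p q (h21 p q h)
  have v2 : O.valuation d ≤ O.valuation (e * b) :=
    ContB_val hd heb fun p q h => h12 p q (h21 p q h)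
  have v3 : O.valuation d ≤ O.valuation c := ContB_val hd hc h22
  have vb : O.valuation b ≠ 0 := (Valuation.ne_zero_iff _).2 hb
  have v1' : O.valuation d < O.valuation b := by
    refine lt_of_le_of_lt v1 ?_
    rw [map_mul]
    calc O.valuation x * O.valuation b < 1 * O.valuation b :=
          mul_lt_mul_of_pos_right hx1 (zero_lt_iff.2 vb)
      _ = O.valuation b := one_mul _
  refine ⟨d, hd, fun a' b' ha' hb' => ?_⟩
  have wa := (cl_iff hd).1 ha'
  have wb := (cl_iff hd).1 hb'
  have wb' : O.valuation b' = O.valuation b :=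
    Valuation.map_eq_of_sub_lt _ (lt_of_le_of_lt wb v1')
  have hb0 : b' ≠ 0 := by
    rw [← Valuation.ne_zero_iff O.valuation, wb']
    exact vb
  refine ⟨hb0, (cl_iff he).2 ?_⟩
  have e1 : a' / b' - a / b = ((a' - a) * b - a * (b' - b)) / (b' * b) := by
    field_simp
    ring
  have vn : O.valuation ((a' - a) * b - a * (b' - b)) ≤
      O.valuation e * (O.valuation b * O.valuation b) := by
    refine (Valuation.map_sub _ _ _).trans (max_le ?_ ?_)
    · rw [map_mul, ← mul_assoc, ← map_mul]
      exact mul_le_mul_left (wa.trans v2) _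
    · by_cases h : a = 0
      · rw [h, zero_mul, map_zero]
        exact zero_le
      · have h5 : c = e * b ^ 2 / a := if_neg h
        have h6 : a * c = e * b ^ 2 := by
          rw [h5]
          field_simp
        rw [map_mul]
        calc O.valuation a * O.valuation (b' - b) ≤ O.valuation a * O.valuation c :=
              mul_le_mul_right (wb.trans v3) _
          _ = O.valuation (a * c) := (map_mul _ _ _).symm
          _ = O.valuation e * (O.valuation b * O.valuation b) := by
              rw [h6, map_mul, map_pow, sq]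
  rw [e1, map_div₀, map_mul, wb']
  exact (div_le_iff₀ (zero_lt_iff.2 (mul_ne_zero vb vb))).2 vn

theorem lits_open (hO : ∃ x : N, x ≠ 0 ∧ O.valuation x < 1) (hA : OpenAll N O) {σ : Type} [Finite σ]
    (s : List (Lit σ)) (v : σ → N) (h : ∀ l ∈ s, l.Holds O v) :
    ∃ e : N, e ≠ 0 ∧ ∀ v' : σ → N, (∀ i, Cl O e (v' i) (v i)) →
      (∀ F : MvPolynomial σ ℤ, MvPolynomial.aeval v F = 0 → MvPolynomial.aeval v' F = 0) →
      ∀ l ∈ s, l.Holds O v' := by
  have key : ∀ l : Lit σ, l.Holds O v → ∃ e : N, e ≠ 0 ∧ ∀ v' : σ → N,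
      (∀ i, Cl O e (v' i) (v i)) →
      (∀ F : MvPolynomial σ ℤ, MvPolynomial.aeval v F = 0 → MvPolynomial.aeval v' F = 0) →
      l.Holds O v' := by
    intro l hl
    cases l with
    | zer f => exact ⟨1, one_ne_zero, fun v' _ h0 => h0 f hl⟩
    | nzr f =>
      obtain ⟨x, hx0, hx1⟩ := hO
      have hf : MvPolynomial.aeval v f ≠ 0 := hl
      have hxf : x * MvPolynomial.aeval v f ≠ 0 := mul_ne_zero hx0 hf
      obtain ⟨d, hd, h1⟩ := cont_aeval (O := O) f v hxf
      refine ⟨d, hd, fun v' hv' _ => ?_⟩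
      have h2 := (cl_iff hxf).1 (h1 v' hv')
      have vf : O.valuation (MvPolynomial.aeval v f) ≠ 0 := (Valuation.ne_zero_iff _).2 hf
      have h3 : O.valuation (x * MvPolynomial.aeval v f) <
          O.valuation (MvPolynomial.aeval v f) := by
        rw [map_mul]
        calc O.valuation x * O.valuation (MvPolynomial.aeval v f)
            < 1 * O.valuation (MvPolynomial.aeval v f) :=
              mul_lt_mul_of_pos_right hx1 (zero_lt_iff.2 vf)
          _ = O.valuation (MvPolynomial.aeval v f) := one_mul _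
      have h4 := Valuation.map_eq_of_sub_lt _ (lt_of_le_of_lt h2 h3)
      show MvPolynomial.aeval v' f ≠ 0
      rw [← Valuation.ne_zero_iff O.valuation, h4]
      exact vf
    | int f =>
      have hf : MvPolynomial.aeval v f ∈ O := hl
      obtain ⟨d, hd, h1⟩ := cont_aeval (O := O) f v one_ne_zero
      refine ⟨d, hd, fun v' hv' _ => ?_⟩
      obtain ⟨u, hu, h2⟩ := h1 v' hv'
      show MvPolynomial.aeval v' f ∈ O
      have h3 : MvPolynomial.aeval v' f = 1 * u + MvPolynomial.aeval v f := sub_eq_iff_eq_add.1 h2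
      rw [h3, one_mul]
      exact O.add_mem _ _ hu hf
    | nin f =>
      have hf : MvPolynomial.aeval v f ∉ O := hl
      obtain ⟨d, hd, h1⟩ := cont_aeval (O := O) f v one_ne_zero
      refine ⟨d, hd, fun v' hv' _ => ?_⟩
      obtain ⟨u, hu, h2⟩ := h1 v' hv'
      show MvPolynomial.aeval v' f ∉ O
      intro h4
      have h3 : MvPolynomial.aeval v f = MvPolynomial.aeval v' f - u := by
        rw [one_mul] at h2
        rw [← h2]
        ring
      exact hf (h3 ▸ O.toSubring.sub_mem h4 hu)
    | all k χ =>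
      obtain ⟨d, hd, h1⟩ := hA.fin v k χ hl
      exact ⟨d, hd, fun v' hv' _ => h1 v' hv'⟩
  induction s with
  | nil => exact ⟨1, one_ne_zero, fun v' _ _ l hl => absurd hl (List.not_mem_nil)⟩
  | cons l s ih =>
    obtain ⟨e1, he1, h1⟩ := ih fun l' hl' => h l' (List.mem_cons_of_mem _ hl')
    obtain ⟨e2, he2, h2⟩ := key l (h l List.mem_cons_self)
    obtain ⟨d, hd, h3, h4⟩ := exists_both (O := O) he1 he2
    refine ⟨d, hd, fun v' hv' h0 l' hl' => ?_⟩
    rcases List.mem_cons.1 hl' with rfl | hl'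
    · exact h2 v' (fun i => h4 _ _ (hv' i)) h0
    · exact h1 v' (fun i => h3 _ _ (hv' i)) h0 l' hl'

end TF14
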