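import Pool.Agent.W_4ce76a_h14.LamField
import Pool.Agent.W_4ce76a_h14.Cont

set_option autoImplicit false
set_option linter.unusedSectionVars false

/-!
# MP_4ce76a_lc : density of the points with given nonvanishing conditions

* `nontriv`: `x = t`.
* `infinite_ball`: the elements `z + e t ^ n`.
* `exists_ne_near`: a nonzero polynomial does not vanish identically on a product of infinite sets (`MvPolynomial.funext_set` or similar, or induction), here the
  balls around the `c j`.
* `gen_step`: let `d` with `exists_pow_le` such that `Cl O (d ^ (p ^ m)) a b` implies `Cl O e a b`.  `exists_ne_near` gives `c'` near `lamt m z` with `H(c') ≠ 0`;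
  `x i = ∑ t ^ j c' (i, j) ^ (p ^ m)` is in the ball (`cl_lam`, `lam_spec`), `lamt m x = c'` (`lam_unique`); by `cont_aeval` and `lam_cl` `H (lamt m x') ≠ 0` for all `x'` in a small ball
  around `x`: choose the radius of `cont_aeval` such that `H (lamt m x') - H (lamt m x) = r u` with `v(r) < v(H (lamt m x))` (for example `r = t H (lamt m x)`).
* `gen_list`: induction on the list (generalizing `z`, `e`).
-/

namespace TF14

variable {p : ℕ} {N : Type} [Field N] {O : ValuationSubring N} {t : N} {k : ℕ}

theorem nontriv (h : TA p N O t) : ∃ x : N, x ≠ 0 ∧ O.valuation x < 1 := by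
  have ht0 : t ≠ 0 := by
    rintro rfl
    apply h.t_inv
    rw [inv_zero]
    exact O.zero_mem
  refine ⟨t, ht0, ?_⟩
  have h1 : ¬ O.valuation t⁻¹ ≤ 1 := fun h2 => h.t_inv ((O.valuation_le_one_iff _).1 h2)
  rw [not_le, map_inv₀] at h1
  have h3 : 0 < O.valuation t := (O.valuation.pos_iff).2 ht0
  exact (one_lt_inv₀ h3).1 h1

theorem infinite_ball (h : TA p N O t) (z : N) {e : N} (he : e ≠ 0) :
    Set.Infinite {x : N | Cl O e x z} := by
  have ht0 : t ≠ 0 := by
    rintro rfl
    apply h.t_inv
    rw [inv_zero]
    exact O.zero_mem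
  have hinj : Function.Injective (fun n : ℕ => z + e * t ^ n) := by
    have key : ∀ n m : ℕ, n < m → z + e * t ^ n ≠ z + e * t ^ m := by
      intro n m hnm hEq
      have h1 : e * t ^ n = e * t ^ m := add_left_cancel hEq
      have h2 : t ^ n = t ^ m := mul_left_cancel₀ he h1
      obtain ⟨k, rfl⟩ : ∃ k, m = n + (k + 1) := ⟨m - n - 1, by omega⟩
      rw [pow_add] at h2
      have h3 : t ^ (k + 1) = 1 := by
        have h4 : t ^ n * 1 = t ^ n * t ^ (k + 1) := by rw [mul_one]; exact h2
        exact (mul_left_cancel₀ (pow_ne_zero n ht0) h4).symm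
      apply h.t_inv
      have h5 : t⁻¹ = t ^ k := by
        rw [pow_succ] at h3
        exact (eq_inv_of_mul_eq_one_left h3).symm
      rw [h5]
      exact O.pow_mem h.t_mem k
    intro n m hnm
    by_contra hne
    rcases lt_or_gt_of_ne hne with h1 | h1
    · exact key n m h1 hnm
    · exact key m n h1 hnm.symm
  refine Set.infinite_of_injective_forall_mem hinj fun n => ?_
  exact ⟨t ^ n, O.pow_mem h.t_mem n, by ring⟩

theorem exists_ne_near (h : TA p N O t) {σ : Type} [Finite σ] (H : MvPolynomial σ N) (hH : H ≠ 0)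
    (c : σ → N) {e : N} (he : e ≠ 0) :
    ∃ c' : σ → N, (∀ j, Cl O e (c' j) (c j)) ∧ MvPolynomial.eval c' H ≠ 0 := by
  by_contra hcon
  push Not at hcon
  apply hH
  refine MvPolynomial.funext_set (fun j => {x : N | Cl O e x (c j)})
    (fun j => infinite_ball h (c j) he) ?_
  intro x hx
  rw [map_zero]
  exact hcon x fun j => hx j (Set.mem_univ j)

end TF14
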