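import Pool.Agent.W_4ce76a_h14.SepLev
import Pool.Agent.W_4ce76a_h14.Gen
import Pool.Agent.W_4ce76a_h14.Perturb
import Pool.Agent.W_4ce76a_h14.WitB

set_option autoImplicit false
set_option linter.unusedSectionVars false

/-!
# MP_4ce76a_lc : continuation of `BallN.lean`, see there for the proofs
-/

namespace TF14

variable {p : ℕ} {M N : Type} [Field M] [Field N] [Algebra M N] {O : ValuationSubring M}
  {O' : ValuationSubring N} {t : M} {t' : N}

theorem ExDown_aeval {R S : Type} [CommRing R] [CommRing S] (f : R →+* S) {σ : Type}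
    (a : σ → R) (F : MvPolynomial σ ℤ) :
    MvPolynomial.aeval (fun i => f (a i)) F = f (MvPolynomial.aeval a F) := by
  have h : (MvPolynomial.aeval (fun i => f (a i)) : MvPolynomial σ ℤ →ₐ[ℤ] S).toRingHom =
      f.comp (MvPolynomial.aeval a : MvPolynomial σ ℤ →ₐ[ℤ] R).toRingHom := by
    refine MvPolynomial.ringHom_ext (fun r => ?_) (fun i => ?_)
    · simp
    · simp
  exact congrArg (fun g : MvPolynomial σ ℤ →+* S => g F) h

/-- substitution of constants for the first variables -/
theorem ExDown_subst {M N : Type} [Field M] [Field N] [Algebra M N] {n k l : ℕ} (a : Fin n → M)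
    (F : MvPolynomial (Fin n ⊕ Fin k) ℤ) : ∃ G : MvPolynomial (Fin l ⊕ Fin k) M,
      ∀ (u : Fin l → N) (y : Fin k → N), MvPolynomial.aeval (Sum.elim u y) G =
        MvPolynomial.aeval (Sum.elim (fun i => algebraMap M N (a i)) y) F := by
  refine ⟨MvPolynomial.aeval (Sum.elim (fun i => MvPolynomial.C (a i))
    (fun j => MvPolynomial.X (Sum.inr j))) F, fun u y => ?_⟩
  have h1 := ExDown_aeval ((MvPolynomial.aeval (Sum.elim u y) :
    MvPolynomial (Fin l ⊕ Fin k) M →ₐ[M] N).toRingHom)
    (Sum.elim (fun i => MvPolynomial.C (a i)) (fun j => MvPolynomial.X (Sum.inr j))) F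
  have h2 : (fun i => (MvPolynomial.aeval (Sum.elim u y) :
      MvPolynomial (Fin l ⊕ Fin k) M →ₐ[M] N).toRingHom
      ((Sum.elim (fun i => MvPolynomial.C (a i)) (fun j => MvPolynomial.X (Sum.inr j)) :
        Fin n ⊕ Fin k → MvPolynomial (Fin l ⊕ Fin k) M) i)) =
      Sum.elim (fun i => algebraMap M N (a i)) y := by
    funext i
    rcases i with i | j
    · simp
    · simp
  rw [h2] at h1
  exact h1.symm

theorem ex_down (hp : p.Prime) (h : TA p M O t) (h' : TF p N O' t')
    (hf : Emb O O' t t' (algebraMap M N))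
    (hclosed : ∀ y : N, IsAlgebraic M y → y ∈ Set.range (algebraMap M N))
    (hdense : ∀ y e : N, e ≠ 0 → ∃ z : M, Cl O' e (algebraMap M N z) y)
    {n : ℕ} (ψ : Fm n) (hψ : Ex ψ) (a : Fin n → M)
    (hS : Sat O' ψ (fun i => algebraMap M N (a i))) : Sat O ψ a := by
  obtain ⟨k, y, s, hs, hback⟩ := exists_wit ψ hψ O' (fun i => algebraMap M N (a i)) hS
  obtain ⟨l, u, hu, hy⟩ := sep_base hp h h'.toTA hf y
  obtain ⟨e, he, hopen⟩ := lits_open (nontriv h'.toTA) h'.opn s
    (Sum.elim (fun i => algebraMap M N (a i)) y) hs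
  obtain ⟨d, hd, hpert⟩ := perturb h'.hens (nontriv h'.toTA) u hu y hy he
  have hex : ∀ i, ∃ z : M, Cl O' d (algebraMap M N z) (u i) := fun i => hdense (u i) d hd
  choose u' hu' using hex
  obtain ⟨y', hy1, hy2, hy3⟩ := hpert (fun i => algebraMap M N (u' i)) hu'
  have halg : Algebra.IsAlgebraic M
      (IntermediateField.adjoin M (Set.range fun i => algebraMap M N (u' i))) := by
    refine IntermediateField.isAlgebraic_adjoin ?_
    rintro x ⟨i, rfl⟩
    exact isIntegral_algebraMap
  have hex : ∀ j, ∃ z : M, algebraMap M N z = y' j := by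
    intro j
    exact hclosed (y' j) ((hy3 j).restrictScalars M)
  choose y'' hy'' using hex
  have h1 : ∀ q ∈ s, q.Holds O' (Sum.elim (fun i => algebraMap M N (a i)) y') := by
    refine hopen _ ?_ ?_
    · rintro (i | j)
      · exact cl_refl _ _
      · exact hy1 j
    · intro F hF
      obtain ⟨G, hG⟩ := ExDown_subst (N := N) (l := l) a F
      rw [← hG (fun i => algebraMap M N (u' i)) y']
      exact hy2 G (by rw [hG]; exact hF)
  have h2 : Sum.elim (fun i => algebraMap M N (a i)) y' =
      fun i => algebraMap M N (Sum.elim a y'' i) := by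
    funext i
    rcases i with i | j
    · rfl
    · exact (hy'' j).symm
  rw [h2] at h1
  exact hback M O a y'' fun q hq => holds_down hf.2 _ q (h1 q hq)

end TF14
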