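import Pool.Agent.W_4ce76a_h14.LaurentK

set_option autoImplicit false
set_option linter.unusedSectionVars false

/-!
# MP_4ce76a_lc : continuation of `LaurentK.lean`, see there for the proofs
-/

namespace TF14

variable (p : ℕ) [Fact p.Prime]

theorem closed_K (y : L p) (hy : IsAlgebraic (K p) y) : y ∈ Set.range (algebraMap (K p) (L p)) := by
  have h1 : Algebra.IsAlgebraic (F p) (K p) := algebraicClosure.isAlgebraic (F p) (L p)
  have h2 : IsAlgebraic (F p) y := IsAlgebraic.restrictScalars (F p) hy
  exact ⟨⟨y, mem_algebraicClosure_iff.2 h2⟩, rfl⟩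

/-- a power series is a polynomial up to a multiple of `t ^ m` -/
theorem LaurentD_split (m : ℕ) (g : PowerSeries (ZMod p)) :
    ∃ P ∈ F p, ∃ g' : PowerSeries (ZMod p),
      (g : LaurentSeries (ZMod p)) = P + tL p ^ m * (g' : LaurentSeries (ZMod p)) := by
  induction m with
  | zero => exact ⟨0, zero_mem _, g, by simp⟩
  | succ m ih =>
    obtain ⟨P, hP, g', h⟩ := ih
    have h1 := PowerSeries.eq_shift_mul_X_add_const g'
    have h2 : (g' : LaurentSeries (ZMod p)) =
        ((PowerSeries.mk fun n => PowerSeries.coeff (n + 1) g' : PowerSeries (ZMod p)) :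
          LaurentSeries (ZMod p)) * tL p +
        algebraMap (ZMod p) (L p) (PowerSeries.constantCoeff g') := by
      conv_lhs => rw [h1]
      rw [PowerSeries.coe_add, PowerSeries.coe_mul, PowerSeries.coe_X, PowerSeries.coe_C]
      have hC : algebraMap (ZMod p) (L p) = HahnSeries.C := Subsingleton.elim _ _
      rw [hC]
      rfl
    refine ⟨P + tL p ^ m * algebraMap (ZMod p) (L p) (PowerSeries.constantCoeff g'), ?_,
      PowerSeries.mk fun n => PowerSeries.coeff (n + 1) g', ?_⟩
    · exact add_mem hP (mul_mem (pow_mem (tL_mem_F p) m) ((F p).algebraMap_mem _))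
    · rw [h, h2, pow_succ]
      ring

theorem LaurentD_tne : tL p ≠ 0 := by
  have h := (ta_L p).t_inv
  intro h0
  rw [h0, inv_zero] at h
  exact h (OL p).zero_mem

/-- every Laurent series is a power series divided by a power of `t` -/
theorem LaurentD_frac (x : L p) : ∃ m : ℕ, x * tL p ^ m ∈ OL p := by
  obtain ⟨⟨g, s⟩, h⟩ := IsLocalization.surj (Submonoid.powers (PowerSeries.X : PowerSeries (ZMod p))) x
  obtain ⟨_, m, rfl⟩ := s
  refine ⟨m, g, ?_⟩
  have h2 : algebraMap (PowerSeries (ZMod p)) (LaurentSeries (ZMod p)) (PowerSeries.X ^ m) =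
      tL p ^ m := by
    rw [map_pow]
    congr 1
    exact PowerSeries.coe_X
  have h3 : x * algebraMap (PowerSeries (ZMod p)) (LaurentSeries (ZMod p)) (PowerSeries.X ^ m) =
      algebraMap (PowerSeries (ZMod p)) (LaurentSeries (ZMod p)) g := h
  rw [h2] at h3
  exact h3.symm

theorem LaurentD_FK {x : L p} (hx : x ∈ F p) : x ∈ K p := (K p).algebraMap_mem ⟨x, hx⟩

theorem dense_K (y e : L p) (he : e ≠ 0) : ∃ z : K p, Cl (OL p) e (algebraMap (K p) (L p) z) y := by
  have ht := LaurentD_tne p
  obtain ⟨m, hm⟩ := LaurentD_frac p e⁻¹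
  obtain ⟨n, g, hg⟩ := LaurentD_frac p (y / tL p ^ m)
  obtain ⟨P, hP, g', hg'⟩ := LaurentD_split p n g
  have hz : tL p ^ m * (P / tL p ^ n) ∈ F p :=
    mul_mem (pow_mem (tL_mem_F p) m) (div_mem hP (pow_mem (tL_mem_F p) n))
  refine ⟨⟨_, LaurentD_FK p hz⟩, -(e⁻¹ * tL p ^ m * (g' : LaurentSeries (ZMod p))), ?_, ?_⟩
  · exact (OL p).neg_mem _ ((OL p).mul_mem _ _ hm ⟨g', rfl⟩)
  · have h1 : P + tL p ^ n * (g' : LaurentSeries (ZMod p)) = y / tL p ^ m * tL p ^ n := by
      rw [← hg', hg]
    have h2 : y = tL p ^ m * (P / tL p ^ n) + tL p ^ m * (g' : LaurentSeries (ZMod p)) := by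
      have h3 : tL p ^ n ≠ 0 := pow_ne_zero _ ht
      have h4 : tL p ^ m ≠ 0 := pow_ne_zero _ ht
      field_simp at h1 ⊢
      rw [← h1]
    show tL p ^ m * (P / tL p ^ n) - y = _
    rw [h2]
    field_simp
    ring

/-- the embedding of the valuation rings -/
noncomputable def LaurentD_phi : OK p →+* OL p :=
  (algebraMap (K p) (L p)).restrict (OK p) (OL p) fun _ hx => hx

theorem LaurentD_phi_coe (x : OK p) : ((LaurentD_phi p x : OL p) : L p) = ((x : K p) : L p) := rfl

theorem LaurentD_phi_inj : Function.Injective (LaurentD_phi p) := by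
  intro x y h
  have h1 : ((x : K p) : L p) = ((y : K p) : L p) := congrArg (fun z : OL p => (z : L p)) h
  exact Subtype.ext (Subtype.ext h1)

instance LaurentD_local : IsLocalHom (LaurentD_phi p) where
  map_nonunit := by
    intro x hx
    obtain ⟨b, hb⟩ := hx.exists_right_inv
    have h1 : ((x : K p) : L p) * (b : L p) = 1 := congrArg (fun z : OL p => (z : L p)) hb
    have hx0 : ((x : K p) : L p) ≠ 0 := left_ne_zero_of_mul_eq_one h1
    have hx0' : (x : K p) ≠ 0 := fun h => hx0 (by rw [h]; rfl)
    have h2 : (x : K p)⁻¹ ∈ OK p := by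
      show algebraMap (K p) (L p) (x : K p)⁻¹ ∈ OL p
      rw [map_inv₀]
      have h3 : (algebraMap (K p) (L p) (x : K p))⁻¹ = (b : L p) :=
        inv_eq_of_mul_eq_one_right h1
      rw [h3]
      exact b.2
    refine IsUnit.of_mul_eq_one ⟨(x : K p)⁻¹, h2⟩ ?_
    apply Subtype.ext
    show (x : K p) * (x : K p)⁻¹ = 1
    exact mul_inv_cancel₀ hx0'

theorem LaurentD_hens : HenselianLocalRing (OK p) where
  is_henselian := by
    intro f hf a₀ h1 h2
    have hL := (ta_L p).hens
    have e1 : (f.map (LaurentD_phi p)).eval (LaurentD_phi p a₀) ∈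
        IsLocalRing.maximalIdeal (OL p) := by
      rw [Polynomial.eval_map_apply, IsLocalRing.mem_maximalIdeal]
      exact (map_mem_nonunits_iff (LaurentD_phi p) _).2 ((IsLocalRing.mem_maximalIdeal _).1 h1)
    have e2 : IsUnit ((f.map (LaurentD_phi p)).derivative.eval (LaurentD_phi p a₀)) := by
      rw [Polynomial.derivative_map, Polynomial.eval_map_apply]
      exact h2.map _
    obtain ⟨a, ha, ha'⟩ := hL.is_henselian (f.map (LaurentD_phi p)) (hf.map _) _ e1 e2
    have hcoe : ∀ (q : Polynomial (OK p)) (b : OL p),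
        (((q.map (LaurentD_phi p)).eval b : OL p) : L p) =
          Polynomial.aeval (b : L p) (q.map (OK p).subtype) := by
      intro q b
      induction q using Polynomial.induction_on' with
      | add q r hq hr =>
        rw [Polynomial.map_add, Polynomial.eval_add, Polynomial.map_add, map_add, ← hq, ← hr]
        rfl
      | monomial n c =>
        rw [Polynomial.map_monomial, Polynomial.eval_monomial, Polynomial.map_monomial,
          Polynomial.aeval_monomial]
        rfl
    have halg : IsAlgebraic (K p) (a : L p) := by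
      refine ⟨f.map (OK p).subtype, (hf.map _).ne_zero, ?_⟩
      rw [← hcoe, ha]
      rfl
    obtain ⟨a', haa⟩ := closed_K p _ halg
    have hmem : a' ∈ OK p := by
      show algebraMap (K p) (L p) a' ∈ OL p
      rw [haa]
      exact a.2
    have hphi : LaurentD_phi p ⟨a', hmem⟩ = a := Subtype.ext haa
    refine ⟨⟨a', hmem⟩, ?_, ?_⟩
    · have h3 : LaurentD_phi p (f.eval ⟨a', hmem⟩) = 0 := by
        rw [← Polynomial.eval_map_apply, hphi]
        exact ha
      exact LaurentD_phi_inj p (by rw [h3, map_zero])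
    · rw [IsLocalRing.mem_maximalIdeal]
      refine (map_mem_nonunits_iff (LaurentD_phi p) _).1 ?_
      rw [map_sub, hphi]
      exact (IsLocalRing.mem_maximalIdeal _).1 ha'

theorem ta_K : TA p (K p) (OK p) (tK p) where
  char := by
    exact charP_of_injective_ringHom
      ((algebraMap (F p) (K p)).comp (algebraMap (ZMod p) (F p))).injective p
  hens := LaurentD_hens p
  t_mem := (ta_L p).t_mem
  t_inv := by
    intro h
    refine (ta_L p).t_inv ?_
    have h1 : algebraMap (K p) (L p) (tK p)⁻¹ ∈ OL p := h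
    rw [map_inv₀] at h1
    exact h1
  rep := by
    intro x
    obtain ⟨c, hc, hu⟩ := rep_L p (x : L p)
    have hcK : ∀ i, c i ∈ K p := comp_K p c (by
      have h1 : (∑ i : Fin p, tL p ^ (i : ℕ) * c i ^ p) = (x : L p) := hc.symm
      rw [h1]
      exact x.2)
    refine ⟨fun i => ⟨c i, hcK i⟩, ?_, ?_⟩
    · apply Subtype.ext
      have h1 : ((∑ i : Fin p, tK p ^ (i : ℕ) * (⟨c i, hcK i⟩ : K p) ^ p : K p) : L p) =
          ∑ i : Fin p, tL p ^ (i : ℕ) * c i ^ p := by
        rw [← IntermediateField.algebraMap_apply, map_sum]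
        refine Finset.sum_congr rfl fun i _ => ?_
        rw [map_mul, map_pow, map_pow]
        rfl
      rw [h1]
      exact hc
    · intro d hd
      have h1 : (x : L p) = ∑ i : Fin p, tL p ^ (i : ℕ) * ((d i : K p) : L p) ^ p := by
        rw [hd, ← IntermediateField.algebraMap_apply, map_sum]
        refine Finset.sum_congr rfl fun i _ => ?_
        rw [map_mul, map_pow, map_pow]
        rfl
      have h2 := hu (fun i => ((d i : K p) : L p)) h1
      funext i
      exact Subtype.ext (congrFun h2 i)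
  int := by
    intro c hc i
    have h1 : (∑ i : Fin p, tL p ^ (i : ℕ) * ((c i : K p) : L p) ^ p) ∈ OL p := by
      have h2 : algebraMap (K p) (L p) (∑ i : Fin p, tK p ^ (i : ℕ) * c i ^ p) ∈ OL p := hc
      rw [map_sum] at h2
      have h3 : ∀ i : Fin p, algebraMap (K p) (L p) (tK p ^ (i : ℕ) * c i ^ p) =
          tL p ^ (i : ℕ) * ((c i : K p) : L p) ^ p := by
        intro i
        rw [map_mul, map_pow, map_pow]
        rfl
      rw [Finset.sum_congr rfl fun i _ => h3 i] at h2
      exact h2
    exact int_L p (fun i => ((c i : K p) : L p)) h1 i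

theorem emb_KL : Emb (OK p) (OL p) (tK p) (tL p) (algebraMap (K p) (L p)) :=
  ⟨rfl, fun _ => Iff.rfl⟩

end TF14
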