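import Pool.Agent.W_4ce76a_h14.OpenL

set_option autoImplicit false
set_option linter.unusedSectionVars false

/-!
# MP_4ce76a_lc : continuation of `OpenL.lean`, see there for the proofs
-/

namespace TF14

variable (p : ℕ) [Fact p.Prime]

theorem OpenLB_tcoe : ((PowerSeries.X : PowerSeries (ZMod p)) : LaurentSeries (ZMod p)) = tL p := by
  rw [tL]
  exact HahnSeries.ofPowerSeries_X

theorem OpenLB_t_ne : tL p ≠ 0 := by
  rw [tL]
  exact HahnSeries.single_ne_zero one_ne_zero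

theorem OpenLB_t_inv : (tL p)⁻¹ ∉ OL p := by
  rintro ⟨f, hf⟩
  have h1 : ((PowerSeries.X * f : PowerSeries (ZMod p)) : LaurentSeries (ZMod p)) =
      ((1 : PowerSeries (ZMod p)) : LaurentSeries (ZMod p)) := by
    push_cast
    rw [hf, OpenLB_tcoe, mul_inv_cancel₀ (OpenLB_t_ne p)]
  have h2 : PowerSeries.X * f = (1 : PowerSeries (ZMod p)) :=
    HahnSeries.ofPowerSeries_injective h1
  have h3 := congrArg PowerSeries.constantCoeff h2
  simp at h3

theorem OpenLB_pow (x : L p) : ∃ m0 : ℕ, ∀ m ≥ m0, tL p ^ m * x ∈ OL p := by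
  have hx := LaurentSeries.single_order_mul_powerSeriesPart x
  refine ⟨(-x.order).toNat, fun m hm => ?_⟩
  have hj : 0 ≤ (m : ℤ) + x.order := by
    have := Int.self_le_toNat (-x.order)
    have h2 : ((-x.order).toNat : ℤ) ≤ m := by exact_mod_cast hm
    linarith
  obtain ⟨j, hj⟩ := Int.eq_ofNat_of_zero_le hj
  refine ⟨PowerSeries.X ^ j * x.powerSeriesPart, ?_⟩
  rw [← hx, ← mul_assoc]
  have h1 : tL p ^ m * (HahnSeries.single x.order) (1 : ZMod p) =
      HahnSeries.single (j : ℤ) (1 : ZMod p) := by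
    rw [tL, HahnSeries.single_pow, HahnSeries.single_mul_single]
    congr 1
    · rw [← hj]; simp
    · simp
  rw [h1, ← HahnSeries.ofPowerSeries_X_pow]
  push_cast
  simp only [hx]

theorem OpenLB_gen {N : Type} [Field N] {O : ValuationSubring N} {t : N} (ht : t ≠ 0)
    (hti : t⁻¹ ∉ O) {σ : Type} [Finite σ] (χ : Qm σ) (v : σ → N) (h : χ.Holds O v) :
    ∃ e : N, e ≠ 0 ∧ ∀ v' : σ → N, (∀ i, Cl O e (v' i) (v i)) → χ.Holds O v' := by
  induction χ with
  | nzr f =>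
    have he : t * MvPolynomial.aeval v f ≠ 0 := mul_ne_zero ht h
    obtain ⟨d, hd, hd'⟩ := cont_aeval (O := O) f v he
    refine ⟨d, hd, fun v' hv' => ?_⟩
    obtain ⟨u, hu, hu'⟩ := hd' v' hv'
    intro h0
    have h0' : MvPolynomial.aeval v' f = 0 := h0
    have h' : MvPolynomial.aeval v f ≠ 0 := h
    rw [h0'] at hu'
    apply hti
    have h2 : t⁻¹ = -u := by
      have h3 : MvPolynomial.aeval v f * (1 + t * u) = 0 := by linear_combination -hu'
      have h4 : 1 + t * u = 0 := (mul_eq_zero.1 h3).resolve_left h'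
      field_simp
      linear_combination h4
    rw [h2]
    exact O.neg_mem u hu
  | int f =>
    obtain ⟨d, hd, hd'⟩ := cont_aeval (O := O) f v (one_ne_zero)
    refine ⟨d, hd, fun v' hv' => ?_⟩
    obtain ⟨u, hu, hu'⟩ := hd' v' hv'
    have h' : MvPolynomial.aeval v f ∈ O := h
    change MvPolynomial.aeval v' f ∈ O
    have h2 : MvPolynomial.aeval v' f = MvPolynomial.aeval v f + u := by
      linear_combination hu'
    rw [h2]
    exact O.add_mem _ _ h' hu
  | nin f =>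
    obtain ⟨d, hd, hd'⟩ := cont_aeval (O := O) f v (one_ne_zero)
    refine ⟨d, hd, fun v' hv' => ?_⟩
    obtain ⟨u, hu, hu'⟩ := hd' v' hv'
    have h' : MvPolynomial.aeval v f ∉ O := h
    change MvPolynomial.aeval v' f ∉ O
    intro h3
    apply h'
    have h2 : MvPolynomial.aeval v f = MvPolynomial.aeval v' f + -u := by
      linear_combination -hu'
    rw [h2]
    exact O.add_mem _ _ h3 (O.neg_mem u hu)
  | and φ ψ h1 h2 =>
    obtain ⟨e1, he1, h1'⟩ := h1 h.1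
    obtain ⟨e2, he2, h2'⟩ := h2 h.2
    obtain ⟨d, hd, hd1, hd2⟩ := exists_both (O := O) he1 he2
    exact ⟨d, hd, fun v' hv' => ⟨h1' v' fun i => hd1 _ _ (hv' i), h2' v' fun i => hd2 _ _ (hv' i)⟩⟩
  | or φ ψ h1 h2 =>
    rcases h with h | h
    · obtain ⟨e1, he1, h1'⟩ := h1 h
      exact ⟨e1, he1, fun v' hv' => Or.inl (h1' v' hv')⟩
    · obtain ⟨e1, he1, h1'⟩ := h2 h
      exact ⟨e1, he1, fun v' hv' => Or.inr (h1' v' hv')⟩

theorem qm_open {σ : Type} [Finite σ] (χ : Qm σ) (v : σ → L p) (h : χ.Holds (OL p) v) :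
    ∃ e : L p, e ≠ 0 ∧ ∀ v' : σ → L p, (∀ i, Cl (OL p) e (v' i) (v i)) → χ.Holds (OL p) v' :=
  OpenLB_gen (OpenLB_t_ne p) (OpenLB_t_inv p) χ v h

theorem openAll_L : OpenAll (L p) (OL p) := by
  intro n k χ a ha
  by_contra hcon
  push Not at hcon
  have h1 : ∀ m : ℕ, ∃ (b : Fin n → L p) (w : Fin k → L p),
      (∀ i, Cl (OL p) (tL p ^ m) (b i) (a i)) ∧ (∀ i, w i ∈ OL p) ∧
        ¬ χ.Holds (OL p) (Sum.elim w b) := by
    intro m
    obtain ⟨b, hb, hn⟩ := hcon (tL p ^ m) (pow_ne_zero _ (OpenLB_t_ne p))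
    unfold AllO at hn
    push Not at hn
    obtain ⟨w, hw, hn⟩ := hn
    exact ⟨b, w, hb, hw, hn⟩
  choose b w hb hw hn using h1
  obtain ⟨r, v, hr, hv, hlim⟩ := seq_compact p w hw
  obtain ⟨e, he, hopen⟩ := qm_open p χ (Sum.elim v a) (ha v hv)
  obtain ⟨m0, hm0⟩ := hlim e he
  obtain ⟨m1, hm1⟩ := OpenLB_pow p e⁻¹
  set m := max m0 m1
  apply hn (r m)
  apply hopen
  rintro (i | i)
  · exact hm0 m (le_max_left _ _) i
  · change Cl (OL p) e (b (r m) i) (a i)
    obtain ⟨u, hu, hu'⟩ := hb (r m) i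
    have h2 : m1 ≤ r m := le_trans (le_max_right _ _) (hr.id_le m)
    refine ⟨tL p ^ (r m) * e⁻¹ * u, (OL p).mul_mem _ _ (hm1 _ h2) hu, ?_⟩
    rw [hu']
    field_simp

end TF14
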