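import Pool.Agent.W_4ce76a_h14.WitB

set_option autoImplicit false
set_option linter.unusedSectionVars false

/-!
# MP_4ce76a_lc : transfer of the formulas `∀ w ∈ O ^ k, χ(w, x)` from the big field

* `exists_neg`: there is a formula without ball quantifiers which is equivalent to `∃ w ∈ O ^ k, ¬ χ(w, a)`: the negation of `χ` is a positive Boolean combination of `zer`, `nin`, `int`
  (induction on `χ`); the variables `w` are quantified with `Fm.ex` (use `exists_fm`-like renaming, or induction on `k`).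
* `pre_of_down`: if not, `∃ w ∈ O' ^ k, ¬ χ(w, f a)` holds in `N`, so in `M` by `hdown`.
* `openAll_of`: from `Pre` the formula holds in `N` at `f a`, so in a ball of radius `e'`; choose `e ∈ M` with `f e ∈ e' O'`, `e ≠ 0`; for `b` `e`-close to `a` in `M` the formula holds at `f b` in `N`, so
  at `b` in `M` (`allO_down`).
-/

namespace TF14

theorem PreK_neg {σ : Type} (χ : Qm σ) {m : ℕ} (r : σ → Fin m) : ∃ ψ : Fm m, Ex ψ ∧
    ∀ (N : Type) [Field N] (O : ValuationSubring N) (v : Fin m → N),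
      Sat O ψ v ↔ ¬ χ.Holds O (v ∘ r) := by
  induction χ with
  | nzr f =>
    refine ⟨.zer (MvPolynomial.rename r f), trivial, fun N _ O v => ?_⟩
    simp only [Sat, Qm.Holds, MvPolynomial.aeval_rename, not_not]
  | int f =>
    refine ⟨.nin (MvPolynomial.rename r f), trivial, fun N _ O v => ?_⟩
    simp only [Sat, Qm.Holds, MvPolynomial.aeval_rename]
  | nin f =>
    refine ⟨.int (MvPolynomial.rename r f), trivial, fun N _ O v => ?_⟩
    simp only [Sat, Qm.Holds, MvPolynomial.aeval_rename, not_not]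
  | and φ ψ h1 h2 =>
    obtain ⟨φ', e1, h1⟩ := h1
    obtain ⟨ψ', e2, h2⟩ := h2
    refine ⟨.or φ' ψ', ⟨e1, e2⟩, fun N _ O v => ?_⟩
    simp only [Sat, Qm.Holds, h1, h2, not_and_or]
  | or φ ψ h1 h2 =>
    obtain ⟨φ', e1, h1⟩ := h1
    obtain ⟨ψ', e2, h2⟩ := h2
    refine ⟨.and φ' ψ', ⟨e1, e2⟩, fun N _ O v => ?_⟩
    simp only [Sat, Qm.Holds, h1, h2, not_or]

theorem PreK_snoc {N : Type} {m k : ℕ} (a : Fin m → N) (w : Fin k → N) (x : N) :
    (Fin.append a (Fin.snoc w x : Fin (k + 1) → N) : Fin (m + (k + 1)) → N) =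
      (Fin.snoc (Fin.append a w) x : Fin (m + k + 1) → N) := by
  funext i
  refine Fin.addCases (fun i => ?_) (fun i => ?_) i
  · rw [Fin.append_left]
    have e : (Fin.castAdd (k + 1) i : Fin (m + (k + 1))) = (Fin.castAdd k i).castSucc := rfl
    rw [e, Fin.snoc_castSucc, Fin.append_left]
  · rw [Fin.append_right]
    refine Fin.lastCases ?_ (fun i => ?_) i
    · have e : (Fin.natAdd m (Fin.last k) : Fin (m + (k + 1))) = Fin.last (m + k) := rfl
      rw [e, Fin.snoc_last, Fin.snoc_last]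
    · have e : (Fin.natAdd m i.castSucc : Fin (m + (k + 1))) = (Fin.natAdd m i).castSucc := rfl
      rw [e, Fin.snoc_castSucc, Fin.snoc_castSucc, Fin.append_right]

theorem PreK_exs {m : ℕ} (k : ℕ) : ∀ (ψ : Fm (m + k)), Ex ψ → ∃ ψ' : Fm m, Ex ψ' ∧
    ∀ (N : Type) [Field N] (O : ValuationSubring N) (a : Fin m → N),
      Sat O ψ' a ↔ ∃ w : Fin k → N, (∀ i, w i ∈ O) ∧ Sat O ψ (Fin.append a w) := by
  induction k with
  | zero =>
    intro ψ hψ
    refine ⟨ψ, hψ, fun N _ O a => ?_⟩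
    have e : ∀ w : Fin 0 → N, (Fin.append a w : Fin (m + 0) → N) = a := by
      intro w
      funext i
      exact Fin.append_left a w i
    constructor
    · intro h
      refine ⟨Fin.elim0, fun i => i.elim0, ?_⟩
      rw [e]
      exact h
    · rintro ⟨w, -, h⟩
      rw [e] at h
      exact h
  | succ k ih =>
    intro ψ hψ
    obtain ⟨ψ', h1, h2⟩ := ih (.ex (.and (.int (MvPolynomial.X (Fin.last (m + k)))) ψ))
      ⟨trivial, hψ⟩
    refine ⟨ψ', h1, fun N _ O a => ?_⟩
    rw [h2]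
    simp only [Sat, MvPolynomial.aeval_X, Fin.snoc_last]
    constructor
    · rintro ⟨w, hw, x, hx, h⟩
      refine ⟨(Fin.snoc w x : Fin (k + 1) → N), fun i => ?_, ?_⟩
      · refine Fin.lastCases ?_ (fun i => ?_) i
        · rw [Fin.snoc_last]
          exact hx
        · rw [Fin.snoc_castSucc]
          exact hw i
      · rw [PreK_snoc]
        exact h
    · rintro ⟨w, hw, h⟩
      refine ⟨fun i => w i.castSucc, fun i => hw _, w (Fin.last k), hw _, ?_⟩
      rw [← PreK_snoc]
      have e : (Fin.snoc (fun i => w i.castSucc) (w (Fin.last k)) : Fin (k + 1) → N) = w := by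
        funext i
        refine Fin.lastCases ?_ (fun i => ?_) i
        · rw [Fin.snoc_last]
        · rw [Fin.snoc_castSucc]
      rw [e]
      exact h

theorem exists_neg {n k : ℕ} (χ : Qm (Fin k ⊕ Fin n)) : ∃ ψ : Fm n, Ex ψ ∧
    ∀ (N : Type) [Field N] (O : ValuationSubring N) (a : Fin n → N),
      Sat O ψ a ↔ ¬ AllO O a k χ := by
  obtain ⟨ψ1, e1, h1⟩ := PreK_neg χ (m := n + k)
    (Sum.elim (fun i => Fin.natAdd n i) fun i => Fin.castAdd k i)
  obtain ⟨ψ2, e2, h2⟩ := PreK_exs k ψ1 e1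
  refine ⟨ψ2, e2, fun N _ O a => ?_⟩
  rw [h2]
  unfold AllO
  push Not
  refine exists_congr fun w => and_congr_right fun _ => ?_
  rw [h1]
  have e : (Fin.append a w) ∘ (Sum.elim (fun i => Fin.natAdd n i) fun i => Fin.castAdd k i) =
      (Sum.elim w a : Fin k ⊕ Fin n → N) := by
    funext i
    rcases i with i | i
    · simp only [Function.comp, Sum.elim_inl, Fin.append_right]
    · simp only [Function.comp, Sum.elim_inr, Fin.append_left]
  rw [e]

theorem pre_of_down {M N : Type} [Field M] [Field N] {O : ValuationSubring M}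
    {O' : ValuationSubring N} (f : M →+* N)
    (hdown : ∀ (n : ℕ) (ψ : Fm n), Ex ψ → ∀ a : Fin n → M, Sat O' ψ (fun i => f (a i)) → Sat O ψ a) :
    Pre O O' f := by
  intro n k χ a ha
  by_contra hcon
  obtain ⟨ψ, e, h⟩ := exists_neg χ
  exact (h M O a).1 (hdown n ψ e a ((h N O' _).2 hcon)) ha

theorem openAll_of {M N : Type} [Field M] [Field N] {O : ValuationSubring M}
    {O' : ValuationSubring N} (f : M →+* N) (hf : ∀ x, f x ∈ O' ↔ x ∈ O) (hpre : Pre O O' f)
    (hN : OpenAll N O') (hd : ∀ e' : N, e' ≠ 0 → ∃ e : M, e ≠ 0 ∧ ∃ u ∈ O', f e = e' * u) :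
    OpenAll M O := by
  intro n k χ a ha
  obtain ⟨e', he', h⟩ := hN n k χ _ (hpre n k χ a ha)
  obtain ⟨e, he, u, hu, hfe⟩ := hd e' he'
  refine ⟨e, he, fun b hb => ?_⟩
  apply allO_down hf
  apply h
  intro i
  obtain ⟨v, hv, hbv⟩ := hb i
  refine ⟨u * f v, O'.mul_mem _ _ hu ((hf v).2 hv), ?_⟩
  rw [← map_sub, hbv, map_mul, hfe, mul_assoc]

end TF14
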