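import Pool.Agent.W_4ce76a_h14.Two

set_option autoImplicit false
set_option linter.unusedSectionVars false

/-!
# MP_4ce76a_lc : elementarity for formulas with ball variables
-/

namespace TF14

theorem TwoB_unit {N : Type} [Field N] {O : ValuationSubring N} {t u : N} (ht' : t ∈ O)
    (ht : t⁻¹ ∉ O) (hu : u ∈ O) : 1 + t * u ≠ 0 ∧ 1 + t * u ∈ O ∧ (1 + t * u)⁻¹ ∈ O := by
  have h0 : t ≠ 0 := by
    rintro rfl
    exact ht (by rw [inv_zero]; exact O.zero_mem)
  have hw : 1 + t * u ≠ 0 := by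
    intro h
    apply ht
    have : t⁻¹ = -u := by
      rw [inv_eq_iff_eq_inv]
      refine eq_inv_of_mul_eq_one_left ?_
      linear_combination -h
    rw [this]
    exact O.neg_mem _ hu
  refine ⟨hw, O.add_mem _ _ O.one_mem (O.mul_mem _ _ ht' hu), ?_⟩
  by_cases hm : t * u = 0
  · rw [hm, add_zero, inv_one]
    exact O.one_mem
  have hu0 : u ≠ 0 := right_ne_zero_of_mul hm
  have hmi : (t * u)⁻¹ ∉ O := by
    intro h
    apply ht
    have : t⁻¹ = u * (t * u)⁻¹ := by
      field_simp
    rw [this]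
    exact O.mul_mem _ _ hu h
  rcases O.mem_or_inv_mem (t * u * (1 + t * u)⁻¹) with h | h
  · have : (1 + t * u)⁻¹ = 1 - t * u * (1 + t * u)⁻¹ := by
      field_simp
      ring
    rw [this]
    exact sub_mem O.one_mem h
  · exfalso
    apply hmi
    have : (t * u)⁻¹ = (t * u * (1 + t * u)⁻¹)⁻¹ - 1 := by
      field_simp
      ring
    rw [this]
    exact sub_mem h O.one_mem

theorem TwoB_ball {M N : Type} [Field M] [Field N]
    {O' : ValuationSubring N} (f : M →+* N) {t' : N} (ht' : t' ∈ O')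
    (ht : t'⁻¹ ∉ O')
    (hdense : ∀ y e : N, e ≠ 0 → ∃ z : M, Cl O' e (f z) y) (z' c' : N) (hc' : c' ≠ 0) :
    ∃ z c : M, c ≠ 0 ∧ bl O' z' c' = bl O' (f z) (f c) := by
  have h0 : t' ≠ 0 := by
    rintro rfl
    exact ht (by rw [inv_zero]; exact O'.zero_mem)
  obtain ⟨c, u, hu, hc⟩ := hdense c' (c' * t') (mul_ne_zero hc' h0)
  obtain ⟨z, u2, hu2, hz⟩ := hdense z' c'⁻¹ (inv_ne_zero hc')
  obtain ⟨hw, hwO, hwi⟩ := TwoB_unit ht' ht hu
  have hfc : f c = c' * (1 + t' * u) := by linear_combination hc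
  have hfz : f z = z' + c'⁻¹ * u2 := by linear_combination hz
  refine ⟨z, c, ?_, ?_⟩
  · rintro rfl
    rw [map_zero] at hfc
    exact mul_ne_zero hc' hw hfc.symm
  · ext x
    simp only [bl, Set.mem_ofPred_eq]
    rw [hfc, hfz]
    constructor
    · intro h
      have e : c' * (1 + t' * u) * (x - (z' + c'⁻¹ * u2)) =
          (1 + t' * u) * (c' * (x - z') - u2) := by
        field_simp
        ring
      rw [e]
      exact O'.mul_mem _ _ hwO (sub_mem h hu2)
    · intro h
      have e : c' * (x - z') =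
          (1 + t' * u)⁻¹ * (c' * (1 + t' * u) * (x - (z' + c'⁻¹ * u2))) + u2 := by
        field_simp
        ring
      rw [e]
      exact O'.add_mem _ _ (O'.mul_mem _ _ hwi h) hu2

/-- PROOF. Induction on `φ`.  `at`: `exists_tr` (with `m = (l + l) + n` variables) and `hel`.  `allB`: the balls of `N` are of the form `bl O' (f z) (f c)` with `z, c ∈ M`: let
`B = bl O' z' c'`; choose `c` with `Cl O' (c' * t') (f c) c'` (so `f c / c' = 1 + t' u` is a unit of `O'` because `t'` is in the maximal ideal) and `z` with `Cl O' c'⁻¹ (f z) z'` (`hdense`). -/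
theorem elem_two {M N : Type} [Field M] [Field N] {O : ValuationSubring M}
    {O' : ValuationSubring N} (f : M →+* N) (hf : ∀ x, f x ∈ O' ↔ x ∈ O) {t' : N} (ht' : t' ∈ O')
    (ht : t'⁻¹ ∉ O')
    (hel : ∀ (n : ℕ) (φ : Fm n) (a : Fin n → M), Sat O φ a ↔ Sat O' φ (fun i => f (a i)))
    (hdense : ∀ y e : N, e ≠ 0 → ∃ z : M, Cl O' e (f z) y)
    {l n : ℕ} (φ : Bm l n) (z c : Fin l → M) (hc : ∀ j, c j ≠ 0) (a : Fin n → M) :
    SatB O φ (fun j => bl O (z j) (c j)) a ↔
      SatB O' φ (fun j => bl O' (f (z j)) (f (c j))) (fun i => f (a i)) := by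
  induction φ with
  | not φ h =>
    simp only [SatB]
    rw [h z c hc a]
  | and φ ψ h1 h2 =>
    simp only [SatB]
    rw [h1 z c hc a, h2 z c hc a]
  | @allB l n φ h =>
    simp only [SatB]
    have key : ∀ z0 c0 : M, c0 ≠ 0 →
        (SatB O φ (Fin.snoc (fun j => bl O (z j) (c j)) (bl O z0 c0) : Fin (l + 1) → Set M) a ↔
        SatB O' φ (Fin.snoc (fun j => bl O' (f (z j)) (f (c j))) (bl O' (f z0) (f c0)) :
          Fin (l + 1) → Set N) (fun i => f (a i))) := by
      intro z0 c0 hc0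
      have h1 := h (Fin.snoc z z0 : Fin (l + 1) → M) (Fin.snoc c c0 : Fin (l + 1) → M) (by
        intro j
        refine Fin.lastCases ?_ (fun j => ?_) j
        · rw [Fin.snoc_last]
          exact hc0
        · rw [Fin.snoc_castSucc]
          exact hc j) a
      have e1 : (fun j => bl O ((Fin.snoc z z0 : Fin (l + 1) → M) j)
          ((Fin.snoc c c0 : Fin (l + 1) → M) j)) =
          (Fin.snoc (fun j => bl O (z j) (c j)) (bl O z0 c0) : Fin (l + 1) → Set M) := by
        funext j
        refine Fin.lastCases ?_ (fun j => ?_) j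
        · simp only [Fin.snoc_last]
        · simp only [Fin.snoc_castSucc]
      have e2 : (fun j => bl O' (f ((Fin.snoc z z0 : Fin (l + 1) → M) j))
          (f ((Fin.snoc c c0 : Fin (l + 1) → M) j))) =
          (Fin.snoc (fun j => bl O' (f (z j)) (f (c j))) (bl O' (f z0) (f c0)) :
            Fin (l + 1) → Set N) := by
        funext j
        refine Fin.lastCases ?_ (fun j => ?_) j
        · simp only [Fin.snoc_last]
        · simp only [Fin.snoc_castSucc]
      rw [e1, e2] at h1
      exact h1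
    constructor
    · rintro hall b ⟨z', c', hc', rfl⟩
      obtain ⟨z0, c0, hc0, e⟩ := TwoB_ball f ht' ht hdense z' c' hc'
      rw [e]
      exact (key z0 c0 hc0).1 (hall _ ⟨z0, c0, hc0, rfl⟩)
    · rintro hall b ⟨z0, c0, hc0, rfl⟩
      refine (key z0 c0 hc0).2 (hall _ ⟨f z0, f c0, ?_, rfl⟩)
      exact (map_ne_zero_iff f f.injective).2 hc0
  | _ =>
    rename_i l n φ
    simp only [SatB]
    obtain ⟨ψ, hψ⟩ := exists_tr φ (m := l + l + n) (fun j => Fin.castAdd n (Fin.castAdd l j))
      (fun j => Fin.castAdd n (Fin.natAdd l j)) (fun i => Fin.natAdd (l + l) i)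
    have h1 := hψ M O (Fin.append (Fin.append z c) a)
    have h2 := hψ N O' (fun i => f ((Fin.append (Fin.append z c) a) i))
    have h3 := hel _ ψ (Fin.append (Fin.append z c) a)
    simp only [Fin.append_left, Fin.append_right] at h1 h2
    exact h1.symm.trans (h3.trans h2)


end TF14
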