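import Pool.Agent.W_4ce76a_h14.Main
import Pool.Agent.W_4ce76a_h14.LaurentD
import Pool.Agent.W_4ce76a_h14.TwoB
import Pool.Agent.W_4ce76a_h14.PreK
import Pool.Agent.W_4ce76a_h14.OpenLB

set_option autoImplicit false
set_option linter.unusedSectionVars false

/-!
# MP_4ce76a_lc : the theorem
-/

namespace TF14

theorem tf_L (p : ℕ) [hp : Fact p.Prime] : TF p (L p) (OL p) (tL p) :=
  { ta_L p with opn := openAll_L p }

theorem pre_KL (p : ℕ) [hp : Fact p.Prime] : Pre (OK p) (OL p) (algebraMap (K p) (L p)) :=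
  pre_of_down _ fun n ψ hψ a hS =>
    ex_down hp.out (ta_K p) (tf_L p) (emb_KL p) (closed_K p) (dense_K p) ψ hψ a hS

theorem tf_K (p : ℕ) [hp : Fact p.Prime] : TF p (K p) (OK p) (tK p) :=
  { ta_K p with
    opn := openAll_of (algebraMap (K p) (L p)) (emb_KL p).2 (pre_KL p) (openAll_L p) (by
      intro e' he'
      have ht : tL p ≠ 0 := fun h => (ta_L p).t_inv (by rw [h, inv_zero]; exact (OL p).zero_mem)
      obtain ⟨z, u, hu, hz⟩ := dense_K p e' (e' * tL p) (mul_ne_zero he' ht)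
      refine ⟨z, ?_, 1 + tL p * u, ?_, ?_⟩
      · rintro rfl
        rw [map_zero, zero_sub] at hz
        have h1 : -1 = tL p * u := by
          have : e' * (-1) = e' * (tL p * u) := by rw [← mul_assoc, ← hz]; ring
          exact mul_left_cancel₀ he' this
        have h2 : (tL p)⁻¹ = - u := inv_eq_of_mul_eq_one_right (by linear_combination h1)
        exact (ta_L p).t_inv (by rw [h2]; exact (OL p).neg_mem _ hu)
      · exact (OL p).add_mem _ _ (OL p).one_mem ((OL p).mul_mem _ _ (ta_L p).t_mem hu)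
      · linear_combination hz) }

theorem final (p : ℕ) [hp : Fact p.Prime] :
    (∀ (l n : ℕ) (φ : Bm l n) (z c : Fin l → K p) (_ : ∀ j, c j ≠ 0) (a : Fin n → K p),
      SatB (OK p) φ (fun j => bl (OK p) (z j) (c j)) a ↔
        SatB (OL p) φ (fun j => bl (OL p) (algebraMap (K p) (L p) (z j))
          (algebraMap (K p) (L p) (c j))) (fun i => algebraMap (K p) (L p) (a i))) ∧
    ∀ (n : ℕ) (φ : Fm n), ∃ ψ : Fm (n + 1), Ex ψ ∧
      ∀ (N : Type) [Field N] (O : ValuationSubring N) (t : N), TF p N O t →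
        ∀ a : Fin n → N, Sat O φ a ↔ Sat O ψ (Fin.snoc a t : Fin _ → N) := by
  refine ⟨fun l n φ z c hc a => ?_, fun _ φ => ex_every hp.out φ⟩
  exact elem_two (algebraMap (K p) (L p)) (emb_KL p).2 (t' := tL p) (ta_L p).t_mem (ta_L p).t_inv
    (fun n φ a => elem hp.out (tf_K p) (tf_L p) (emb_KL p) (pre_KL p) (closed_K p) (dense_K p) φ a)
    (dense_K p) φ z c hc a

end TF14
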