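import Pool.Agent.W_4ce76a_h14.Ultra

set_option autoImplicit false
set_option linter.unusedSectionVars false

/-!
# MP_4ce76a_lc : continuation of `Ultra.lean`, see there for the proofs
-/

namespace TF14

open Filter

variable {I : Type} (N : I → Type) [∀ i, Field (N i)] (U : Ultrafilter I)

/-- `umk_aeval` with the field structure of the ultraproduct -/
private theorem UltraLos_zero {σ : Type} (a : σ → ∀ i, N i) (f : MvPolynomial σ ℤ) :
    @Eq (UF N U) (@MvPolynomial.aeval ℤ (UF N U) σ _ (UF_field N U).toCommRing.toCommSemiring _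
      (fun k => umk N U (a k)) f) 0 ↔
      ∀ᶠ i in (U : Filter I), MvPolynomial.aeval (fun k => a k i) f = 0 := by
  have h := umk_aeval N U a f
  have h2 := @umk_eq_zero_iff I N _ U (fun i => MvPolynomial.aeval (fun k => a k i) f)
  rw [← h] at h2
  exact h2

private theorem UltraLos_mem (O : ∀ i, ValuationSubring (N i)) {σ : Type} (a : σ → ∀ i, N i)
    (f : MvPolynomial σ ℤ) :
    (@MvPolynomial.aeval ℤ (UF N U) σ _ (UF_field N U).toCommRing.toCommSemiring _
      (fun k => umk N U (a k)) f) ∈ uO N U O ↔
      ∀ᶠ i in (U : Filter I), MvPolynomial.aeval (fun k => a k i) f ∈ O i := by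
  have h := umk_aeval N U a f
  have h2 := @umk_mem_uO I N _ U O (fun i => MvPolynomial.aeval (fun k => a k i) f)
  rw [← h] at h2
  exact h2

theorem qm_los (O : ∀ i, ValuationSubring (N i)) {σ : Type} (χ : Qm σ) (a : σ → ∀ i, N i) :
    χ.Holds (uO N U O) (fun k => umk N U (a k)) ↔
      ∀ᶠ i in (U : Filter I), χ.Holds (O i) (fun k => a k i) := by
  induction χ with
  | nzr f =>
    simp only [Qm.Holds, Ne]
    rw [Ultrafilter.eventually_not]
    exact not_congr (UltraLos_zero N U a f)
  | int f =>
    simp only [Qm.Holds]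
    exact UltraLos_mem N U O a f
  | nin f =>
    simp only [Qm.Holds]
    rw [Ultrafilter.eventually_not]
    exact not_congr (UltraLos_mem N U O a f)
  | and φ ψ h1 h2 =>
    simp only [Qm.Holds]
    rw [h1, h2, Filter.eventually_and]
  | or φ ψ h1 h2 =>
    simp only [Qm.Holds]
    rw [h1, h2, Ultrafilter.eventually_or]

/-- quantifiers over `O ^ k` -/
private theorem UltraLos_forall (O : ∀ i, ValuationSubring (N i)) {k : ℕ}
    (P : (Fin k → UF N U) → Prop) (Q : ∀ i, (Fin k → N i) → Prop)
    (h : ∀ w : Fin k → ∀ i, N i, P (fun j => umk N U (w j)) ↔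
      ∀ᶠ i in (U : Filter I), Q i (fun j => w j i)) :
    (∀ u, (∀ j, u j ∈ uO N U O) → P u) ↔
      ∀ᶠ i in (U : Filter I), ∀ u, (∀ j, u j ∈ O i) → Q i u := by
  classical
  constructor
  · intro h1
    by_contra h2
    rw [← Ultrafilter.eventually_not] at h2
    have hex : ∀ i, ∃ w : Fin k → N i, (∀ j, w j ∈ O i) ∧
        ((¬ ∀ u : Fin k → N i, (∀ j, u j ∈ O i) → Q i u) → ¬ Q i w) := by
      intro i
      by_cases h3 : ∀ u : Fin k → N i, (∀ j, u j ∈ O i) → Q i u
      · exact ⟨fun _ => 0, fun _ => (O i).zero_mem, fun h4 => absurd h3 h4⟩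
      · have h4 := h3
        push Not at h4
        obtain ⟨w, hw1, hw2⟩ := h4
        exact ⟨w, hw1, fun _ => hw2⟩
    choose w hw1 hw2 using hex
    have h3 := h1 (fun j => umk N U (fun i => w i j)) (fun j =>
      (umk_mem_uO N U).2 (Eventually.of_forall fun i => hw1 i j))
    have h4 := (h (fun j i => w i j)).1 h3
    obtain ⟨i, h5, h6⟩ := (h4.and h2).exists
    exact hw2 i h6 h5
  · intro h1 u hu
    have hex : ∀ j, ∃ w : ∀ i, N i, umk N U w = u j := fun j => umk_surjective N U (u j)
    choose w hw using hex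
    have hu' : ∀ j, ∀ᶠ i in (U : Filter I), w j i ∈ O i := by
      intro j
      have h2 := hu j
      rw [← hw j, umk_mem_uO] at h2
      exact h2
    have h2 : ∀ᶠ i in (U : Filter I), ∀ j, w j i ∈ O i := Filter.eventually_all.2 hu'
    have h3 : u = fun j => umk N U (w j) := funext fun j => (hw j).symm
    rw [h3, h]
    filter_upwards [h1, h2] with i h4 h5
    exact h4 _ h5

theorem allO_los (O : ∀ i, ValuationSubring (N i)) {σ : Type} (k : ℕ) (χ : Qm (Fin k ⊕ σ))
    (a : σ → ∀ i, N i) : AllO (uO N U O) (fun s => umk N U (a s)) k χ ↔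
      ∀ᶠ i in (U : Filter I), AllO (O i) (fun s => a s i) k χ := by
  unfold AllO
  refine UltraLos_forall N U O (fun w => χ.Holds (uO N U O) (Sum.elim w fun s => umk N U (a s)))
    (fun i w => χ.Holds (O i) (Sum.elim w fun s => a s i)) ?_
  intro w
  have h1 := qm_los N U O χ (Sum.elim w a)
  have h2 : (fun x => umk N U ((Sum.elim w a : Fin k ⊕ σ → ∀ i, N i) x)) =
      Sum.elim (fun j => umk N U (w j)) (fun s => umk N U (a s)) := by
    funext x
    cases x <;> rfl
  have h3 : ∀ i, (fun x => (Sum.elim w a : Fin k ⊕ σ → ∀ i, N i) x i) =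
      Sum.elim (fun j => w j i) (fun s => a s i) := by
    intro i
    funext x
    cases x <;> rfl
  rw [h2] at h1
  simp only [h3] at h1
  exact h1

private theorem UltraLos_snoc {M M' : Type} {n : ℕ} (g : M → M') (a : Fin n → M) (x : M) :
    (Fin.snoc (fun k => g (a k)) (g x) : Fin (n + 1) → M') =
      fun k => g ((Fin.snoc a x : Fin (n + 1) → M) k) := by
  funext k
  refine Fin.lastCases ?_ (fun j => ?_) k
  · rw [Fin.snoc_last, Fin.snoc_last]
  · rw [Fin.snoc_castSucc, Fin.snoc_castSucc]

private theorem UltraLos_append {M M' : Type} {k n : ℕ} (g : M → M') (z : Fin k → M)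
    (a : Fin n → M) : (Fin.append (fun j => g (z j)) (fun s => g (a s)) : Fin (k + n) → M') =
      fun x => g (Fin.append z a x) := by
  funext x
  refine Fin.addCases (fun j => ?_) (fun j => ?_) x
  · rw [Fin.append_left, Fin.append_left]
  · rw [Fin.append_right, Fin.append_right]

theorem los (O : ∀ i, ValuationSubring (N i)) {n : ℕ} (φ : Fm n) (a : Fin n → ∀ i, N i) :
    Sat (uO N U O) φ (fun k => umk N U (a k)) ↔
      ∀ᶠ i in (U : Filter I), Sat (O i) φ (fun k => a k i) := by
  classical
  induction φ with
  | zer f =>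
    simp only [Sat]
    exact UltraLos_zero N U a f
  | nzr f =>
    simp only [Sat, Ne]
    rw [Ultrafilter.eventually_not]
    exact not_congr (UltraLos_zero N U a f)
  | int f =>
    simp only [Sat]
    exact UltraLos_mem N U O a f
  | nin f =>
    simp only [Sat]
    rw [Ultrafilter.eventually_not]
    exact not_congr (UltraLos_mem N U O a f)
  | all k χ =>
    simp only [Sat]
    exact allO_los N U O k χ a
  | and φ ψ h1 h2 =>
    simp only [Sat]
    rw [h1, h2, Filter.eventually_and]
  | or φ ψ h1 h2 =>
    simp only [Sat]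
    rw [h1, h2, Ultrafilter.eventually_or]
  | ex φ ih =>
    simp only [Sat]
    constructor
    · rintro ⟨x, hx⟩
      obtain ⟨x', rfl⟩ := umk_surjective N U x
      rw [UltraLos_snoc (umk N U), ih] at hx
      filter_upwards [hx] with i hi
      refine ⟨x' i, ?_⟩
      rw [UltraLos_snoc (fun y : ∀ i, N i => y i)]
      exact hi
    · intro h1
      have hex : ∀ i, ∃ x : N i, (∃ x : N i, Sat (O i) φ (Fin.snoc (fun k => a k i) x)) →
          Sat (O i) φ (Fin.snoc (fun k => a k i) x) := by
        intro i
        by_cases h2 : ∃ x : N i, Sat (O i) φ (Fin.snoc (fun k => a k i) x)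
        · obtain ⟨x, hx⟩ := h2
          exact ⟨x, fun _ => hx⟩
        · exact ⟨0, fun h3 => absurd h3 h2⟩
      choose x hx using hex
      refine ⟨umk N U x, ?_⟩
      rw [UltraLos_snoc (umk N U), ih]
      filter_upwards [h1] with i hi
      have h2 := hx i hi
      rw [UltraLos_snoc (fun y : ∀ i, N i => y i)] at h2
      exact h2
  | @ball n k φ ih =>
    simp only [Sat]
    have hball : ∀ (z : Fin k → ∀ i, N i) (e : ∀ i, N i),
        (∀ u : Fin k → UF N U, (∀ j, u j ∈ uO N U O) → Sat (uO N U O) φ
          (Fin.append (fun j => umk N U (z j) + umk N U e * u j) (fun s => umk N U (a s)))) ↔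
        ∀ᶠ i in (U : Filter I), ∀ u : Fin k → N i, (∀ j, u j ∈ O i) → Sat (O i) φ
          (Fin.append (fun j => z j i + e i * u j) (fun s => a s i)) := by
      intro z e
      refine UltraLos_forall N U O (fun u => Sat (uO N U O) φ
          (Fin.append (fun j => umk N U (z j) + umk N U e * u j) (fun s => umk N U (a s))))
        (fun i u => Sat (O i) φ (Fin.append (fun j => z j i + e i * u j) (fun s => a s i))) ?_
      intro w
      have h1 := ih (Fin.append (fun j => z j + e * w j) a)
      rw [← UltraLos_append (umk N U)] at h1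
      have h2 : (fun j => umk N U (z j + e * w j)) =
          fun j => umk N U (z j) + umk N U e * umk N U (w j) := by
        funext j
        rw [map_add, map_mul]
      rw [h2] at h1
      rw [h1]
      refine Filter.eventually_congr (Eventually.of_forall fun i => ?_)
      have h3 := UltraLos_append (fun y : ∀ i, N i => y i) (fun j => z j + e * w j) a
      rw [← h3]
      rfl
    constructor
    · rintro ⟨z, e, he, hu⟩
      have hex : ∀ j, ∃ w : ∀ i, N i, umk N U w = z j := fun j => umk_surjective N U (z j)
      choose z' hz' using hex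
      obtain ⟨e', rfl⟩ := umk_surjective N U e
      have hz : z = fun j => umk N U (z' j) := funext fun j => (hz' j).symm
      subst hz
      have h1 := (hball z' e').1 hu
      rw [Ne, umk_eq_zero_iff, ← Ultrafilter.eventually_not] at he
      filter_upwards [h1, he] with i h2 h3
      exact ⟨fun j => z' j i, e' i, h3, h2⟩
    · intro h1
      have hex : ∀ i, ∃ (z : Fin k → N i) (e : N i), (∃ (z : Fin k → N i) (e : N i), e ≠ 0 ∧
          ∀ u : Fin k → N i, (∀ j, u j ∈ O i) → Sat (O i) φ
            (Fin.append (fun j => z j + e * u j) (fun s => a s i))) →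
          (e ≠ 0 ∧ ∀ u : Fin k → N i, (∀ j, u j ∈ O i) → Sat (O i) φ
            (Fin.append (fun j => z j + e * u j) (fun s => a s i))) := by
        intro i
        by_cases h2 : ∃ (z : Fin k → N i) (e : N i), e ≠ 0 ∧
          ∀ u : Fin k → N i, (∀ j, u j ∈ O i) → Sat (O i) φ
            (Fin.append (fun j => z j + e * u j) (fun s => a s i))
        · obtain ⟨z, e, h⟩ := h2
          exact ⟨z, e, fun _ => h⟩
        · exact ⟨fun _ => 0, 0, fun h3 => absurd h3 h2⟩
      choose z e hze using hex
      refine ⟨fun j => umk N U (fun i => z i j), umk N U e, ?_, ?_⟩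
      · rw [Ne, umk_eq_zero_iff, ← Ultrafilter.eventually_not]
        filter_upwards [h1] with i hi
        exact (hze i hi).1
      · refine (hball (fun j i => z i j) e).2 ?_
        filter_upwards [h1] with i hi
        exact (hze i hi).2

end TF14
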