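import Pool.Agent.W_4ce76a_h14.UltraTA
import Pool.Agent.W_4ce76a_h14.UltraLos

set_option autoImplicit false
set_option linter.unusedSectionVars false

/-!
# MP_4ce76a_lc : ultraproducts, continued

`tf_ultra`: the ultraproduct of fields with `TF p` has `TF p`.  `ta_ultra`:
* `char`: `(p : UF) = 0` and `(m : UF) = 0 ↔ p ∣ m` (for almost all `i`).
* `rep`: existence: `x = umk f`, choose `c i` for `f i`; uniqueness: lift `c`, `c'` (`umk_surjective`), `umk_eq_iff`.  `int`: the same.
* `hens`: the maximal ideal of `uO` consists of the classes of the families with `f i` in the maximal ideal for almost all `i` (a unit of `uO` is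
  an element of `uO` whose inverse is in `uO`).  Let `f` be monic of degree `d`.  Choose families with values in `O i` for the coefficients `0, .., d - 1`
  and consider the monic polynomials `f i = X ^ d + ∑ ..` over `O i`.
* `opn`: lift `a` to `a i`; by `allO_los` for almost all `i` the formula holds at `a i` in `N i`, so there is `e i ≠ 0` for these `i` (take `e i = 1` for the others);
  `e = umk e`.  For `b` close to `a`: lift `b` and the elements `u` of `Cl`; for almost all `i` `b i` is close to `a i`; `allO_los` again.
* `umap`: the diagonal embedding of `N` in the ultrapower (`N i = N` for all `i`).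
-/

namespace TF14

open Filter

theorem opn_ultra {I : Type} (N : I → Type) [∀ i, Field (N i)] (U : Ultrafilter I)
    (O : ∀ i, ValuationSubring (N i)) (h : ∀ i, OpenAll (N i) (O i)) :
    OpenAll (UF N U) (uO N U O) := by
  classical
  intro n k χ a ha
  have hex : ∀ j, ∃ w : ∀ i, N i, umk N U w = a j := fun j => umk_surjective N U (a j)
  choose a' ha' using hex
  have haeq : a = fun j => umk N U (a' j) := funext fun j => (ha' j).symm
  subst haeq
  rw [allO_los] at ha
  have hex : ∀ i, ∃ e : N i, e ≠ 0 ∧ (AllO (O i) (fun j => a' j i) k χ →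
      ∀ b : Fin n → N i, (∀ j, Cl (O i) e (b j) (a' j i)) → AllO (O i) b k χ) := by
    intro i
    by_cases h1 : AllO (O i) (fun j => a' j i) k χ
    · obtain ⟨e, he, h2⟩ := h i n k χ _ h1
      exact ⟨e, he, fun _ => h2⟩
    · exact ⟨1, one_ne_zero, fun h2 => absurd h2 h1⟩
  choose e he1 he2 using hex
  refine ⟨umk N U e, ?_, ?_⟩
  · intro h0
    have h1 := (umk_eq_zero_iff N U).1 h0
    obtain ⟨i, hi⟩ := h1.exists
    exact he1 i hi
  · intro b hb
    have hexb : ∀ j, ∃ w : ∀ i, N i, umk N U w = b j := fun j => umk_surjective N U (b j)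
    choose b' hb' using hexb
    have hbeq : b = fun j => umk N U (b' j) := funext fun j => (hb' j).symm
    subst hbeq
    choose u hu1 hu2 using hb
    have hexu : ∀ j, ∃ w : ∀ i, N i, umk N U w = u j := fun j => umk_surjective N U (u j)
    choose u' hu' using hexu
    have hu1' : ∀ j, ∀ᶠ i in (U : Filter I), u' j i ∈ O i := by
      intro j
      have h3 := hu1 j
      rw [← hu' j, umk_mem_uO] at h3
      exact h3
    have hu2' : ∀ j, ∀ᶠ i in (U : Filter I), b' j i - a' j i = e i * u' j i := by
      intro j
      have h3 := hu2 j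
      rw [← hu' j] at h3
      have h4 : umk N U (b' j - a' j) = umk N U (e * u' j) := by
        rw [map_sub, map_mul]
        exact h3
      have h5 := (umk_eq_iff N U).1 h4
      filter_upwards [h5] with i h6
      exact h6
    rw [allO_los]
    filter_upwards [ha, Filter.eventually_all.2 hu1', Filter.eventually_all.2 hu2'] with i h3 h4 h5
    exact he2 i h3 _ (fun j => ⟨u' j i, h4 j, h5 j⟩)

theorem tf_ultra {I : Type} (N : I → Type) [∀ i, Field (N i)] (U : Ultrafilter I) {p : ℕ}
    (hp : p.Prime) (O : ∀ i, ValuationSubring (N i)) (t : ∀ i, N i)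
    (h : ∀ i, TF p (N i) (O i) (t i)) : TF p (UF N U) (uO N U O) (umk N U t) :=
  { ta_ultra N U hp O t fun i => (h i).toTA with
    opn := opn_ultra N U O fun i => (h i).opn }

/-- The embedding into the ultrapower. -/
noncomputable def umap {I : Type} (N : Type) [Field N] (U : Ultrafilter I) :
    N →+* UF (fun _ : I => N) U :=
  (umk (fun _ : I => N) U).comp (Pi.constRingHom I N)

theorem emb_umap {I : Type} (N : Type) [Field N] (U : Ultrafilter I) (O : ValuationSubring N)
    (t : N) : Emb O (uO (fun _ : I => N) U (fun _ => O)) t (umk (fun _ : I => N) U fun _ => t)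
      (umap N U) := by
  refine ⟨rfl, fun x => ?_⟩
  have h1 := umk_mem_uO (I := I) (fun _ : I => N) U (O := fun _ => O) (f := fun _ => x)
  refine Iff.trans h1 ?_
  rw [Filter.eventually_const]

theorem pre_umap {I : Type} (N : Type) [Field N] (U : Ultrafilter I) (O : ValuationSubring N) :
    Pre O (uO (fun _ : I => N) U (fun _ => O)) (umap N U) := by
  intro n k χ a ha
  have h1 := allO_los (I := I) (fun _ : I => N) U (fun _ => O) k χ (fun j _ => a j)
  exact h1.2 (Eventually.of_forall fun _ => ha)

theorem los_umap {I : Type} (N : Type) [Field N] (U : Ultrafilter I) (O : ValuationSubring N)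
    {n : ℕ} (φ : Fm n) (a : Fin n → N) :
    Sat (uO (fun _ : I => N) U (fun _ => O)) φ (fun k => umap N U (a k)) ↔ Sat O φ a := by
  have h1 := los (I := I) (fun _ : I => N) U (fun _ => O) φ (fun k _ => a k)
  refine Iff.trans h1 ?_
  rw [Filter.eventually_const]

end TF14
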