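import Pool.Agent.W_4ce76a_h14.GenUltra
import Pool.Agent.W_4ce76a_h14.GenB
import Pool.Agent.W_4ce76a_h14.UltraTF

set_option autoImplicit false
set_option linter.unusedSectionVars false

/-!
# MP_4ce76a_lc : continuation of `GenUltra.lean`, see there for the proofs
-/

namespace TF14

open Filter

variable {p : ℕ} {M M' : Type} [Field M] [Field M'] {O : ValuationSubring M}
  {O' : ValuationSubring M'} {t : M} {t' : M'} {k : ℕ}

theorem exists_generic (hp : p.Prime) (h : TA p M O t) (h' : TA p M' O' t') (f : M →+* M')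
    (hf : Emb O O' t t' f) (z : Fin k → M) {e : M} (he : e ≠ 0) :
    ∃ (I : Type) (U : Ultrafilter I) (x : I → Fin k → M), (∀ s i, Cl O e (x s i) (z i)) ∧
      ∀ (hN : TA p (UF (fun _ : I => M') U) (uO (fun _ : I => M') U fun _ => O')
        (umk (fun _ : I => M') U fun _ => t')) (m : ℕ)
        (H : MvPolynomial (Fin k × Fin (p ^ m)) M), H ≠ 0 →
        MvPolynomial.eval₂ ((umap (I := I) M' U).comp f)
          (lamt hp hN m (fun i => umk (fun _ : I => M') U fun s => f (x s i))) H ≠ 0 := by
  classical
  obtain ⟨U, hU⟩ := exists_ultra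
    (Σ m : ℕ, {H : MvPolynomial (Fin k × Fin (p ^ m)) M // H ≠ 0})
  choose x hx1 hx2 using fun s => gen_list (k := k) hp h s z he
  refine ⟨_, U, x, hx1, ?_⟩
  intro hN m H hH h0
  have hlam : lamt hp hN m (fun i => umk (fun _ => M') U fun s => f (x s i)) =
      fun q => umk (fun _ => M') U fun s => f (lamt hp h m (x s) q) := by
    funext q
    obtain ⟨i, j⟩ := q
    have h1 := lam_unique hp hN m (umk (fun _ => M') U fun s => f (x s i))
      (fun j => umk (fun _ => M') U fun s => f (lam hp h m (x s i) j)) (by
        have h2 : ∀ j : Fin (p ^ m), (umk (fun _ => M') U fun _ => t') ^ (j : ℕ) *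
            (umk (fun _ => M') U fun s => f (lam hp h m (x s i) j)) ^ (p ^ m) =
            umk (fun _ => M') U ((fun _ => t') ^ (j : ℕ) *
              (fun s => f (lam hp h m (x s i) j)) ^ (p ^ m)) := by
          intro j
          rw [map_mul, map_pow, map_pow]
        rw [Finset.sum_congr rfl fun j _ => h2 j, ← map_sum]
        congr 1
        funext s
        rw [Finset.sum_apply]
        have h3 := congrArg f (lam_spec hp h m (x s i))
        rw [map_sum] at h3
        rw [h3]
        refine Finset.sum_congr rfl fun j _ => ?_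
        rw [map_mul, map_pow, map_pow, hf.1]
        rfl)
    exact congrFun h1 j
  have key : ∀ (c : List (Σ m : ℕ, {H : MvPolynomial (Fin k × Fin (p ^ m)) M // H ≠ 0}) →
      Fin k × Fin (p ^ m) → M) (G : MvPolynomial (Fin k × Fin (p ^ m)) M),
      MvPolynomial.eval₂ ((umap M' U).comp f) (fun q => umk (fun _ => M') U fun s => f (c s q)) G =
        umk (fun _ => M') U fun s => f (MvPolynomial.eval (c s) G) := by
    intro c G
    induction G using MvPolynomial.induction_on with
    | C a =>
      rw [MvPolynomial.eval₂_C]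
      simp only [MvPolynomial.eval_C]
      rfl
    | add P Q hP hQ =>
      rw [MvPolynomial.eval₂_add, hP, hQ, ← map_add]
      congr 1
      funext s
      rw [Pi.add_apply, ← map_add, ← map_add]
    | mul_X P i hP =>
      rw [MvPolynomial.eval₂_mul, MvPolynomial.eval₂_X, hP, ← map_mul]
      congr 1
      funext s
      rw [Pi.mul_apply, ← map_mul, map_mul (MvPolynomial.eval (c s)), MvPolynomial.eval_X]
  rw [hlam, key, umk_eq_zero_iff] at h0
  obtain ⟨s, h1, h2⟩ := (h0.and (hU ⟨m, H, hH⟩)).exists
  exact hx2 s _ h2 ((map_eq_zero f).1 h1)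

end TF14
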