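import Pool.Agent.W_4ce76a_h14.Syn

set_option autoImplicit false
set_option linter.unusedSectionVars false

/-!
# MP_4ce76a_lc : a generic point of a ball in an ultrapower

`exists_ultra`: the sets `{s | a ∈ s}` have the finite intersection property.

`exists_generic`: `I = List (Σ m, {H // H ≠ 0})`, `U` from `exists_ultra`, `x s` from `gen_list`.  In the ultrapower
`lam m (umk (fun s => f (x s i))) j = umk (fun s => f (lam m (x s i) j))` (`lam_unique`; the embedding `f` and `umk` are compatible with the formula in `lam_spec`),
so `eval₂ g (lamt ..) H = umk (fun s => f (eval (lamt m (x s)) H))`, and this is nonzero since `H(lamt m (x s)) ≠ 0` for almost all `s`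
(for all lists `s` which contain `⟨m, H⟩`).
-/

namespace TF14

open Filter

theorem exists_ultra (A : Type) : ∃ U : Ultrafilter (List A), ∀ a : A,
    ∀ᶠ s in (U : Filter (List A)), a ∈ s := by
  classical
  have hne : (Filter.map (Finset.toList : Finset A → List A) Filter.atTop).NeBot := inferInstance
  refine ⟨@Ultrafilter.of _ _ hne, fun a => ?_⟩
  have h1 : ∀ᶠ s in Filter.map (Finset.toList : Finset A → List A) Filter.atTop, a ∈ s := by
    rw [Filter.eventually_map]
    filter_upwards [Filter.eventually_ge_atTop ({a} : Finset A)] with t ht
    rw [Finset.mem_toList]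
    exact ht (Finset.mem_singleton_self a)
  exact (@Ultrafilter.of_le _ _ hne) h1

end TF14
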