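import Pool.Agent.W_4ce76a_h14.Syn

set_option autoImplicit false
set_option linter.unusedSectionVars false

/-!
# MP_4ce76a_lc : Newton's lemma in a henselian valuation ring

`hensel_lin`: `f = c 0 + c 1 X + .. ` over `O`, `c 0` in the maximal ideal, `c 1` a unit.  If `c 0 = 0` take the root `0`.  Otherwise substitute `X = (c 0 / c 1) W` and divide by
`c 0`: `1 + W + ∑ i ≥ 2, d i W ^ i` with `d i = c i c 0 ^ (i - 1) / c 1 ^ i` in the maximal ideal.  Multiply by `V ^ n`, `W = 1 / V` (`n ≥ 2` at least the degree):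
`h = V ^ n + V ^ (n - 1) + ∑ i ≥ 2, d i V ^ (n - i)` is monic, `h (-1)` is in the maximal ideal, `h' (-1)` is a unit
(it is congruent to `n (-1) ^ (n - 1) + (n - 1) (-1) ^ (n - 2) = (-1) ^ (n - 1)`).  The root `V` from `HenselianLocalRing` is a unit and `X = (c 0 / c 1) / V` is in the
maximal ideal.

`newton`: with `d = f'(a)` (`d ≠ 0`), `f (a + d Y) = d ^ 2 (f(a) / d ^ 2 + Y + ∑ i ≥ 2, b i d ^ (i - 2) Y ^ i)`, `b i` the Taylor coefficients of `f` at `a`
(`Polynomial.taylor`).  `hensel_lin` gives a root `Y` in the maximal ideal; `b = a + d Y`.  The last equality: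
`0 = f(b) = f(a) + d (b - a) + ∑ i ≥ 2, b i (b - a) ^ i` and the valuation of `(b - a) ^ 2` is less than that of `d (b - a)` unless `b = a`.
-/

namespace TF14

variable {N : Type} [Field N] {O : ValuationSubring N}

open Polynomial in
theorem Hens_ring {R : Type} [CommRing R] [HenselianLocalRing R] (F : R[X])
    (h0 : F.coeff 0 ∈ IsLocalRing.maximalIdeal R) (h1 : IsUnit (F.coeff 1)) :
    ∃ x ∈ IsLocalRing.maximalIdeal R, F.eval x = 0 := by
  obtain ⟨n, hn⟩ : ∃ n, n = F.natDegree := ⟨_, rfl⟩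
  obtain ⟨v, hv⟩ : ∃ v, F.coeff 1 * v = 1 := h1.exists_right_inv
  set c0 := F.coeff 0 with hc0
  obtain ⟨a, ha⟩ : ∃ a : ℕ → R, ∀ i, a i = F.coeff (i + 2) * v ^ (i + 2) * c0 ^ (i + 1) :=
    ⟨_, fun _ => rfl⟩
  have ham : ∀ i, a i ∈ IsLocalRing.maximalIdeal R := by
    intro i
    rw [ha, pow_succ c0 i, ← mul_assoc]
    exact Ideal.mul_mem_left _ _ h0
  obtain ⟨h, hh⟩ : ∃ h : R[X], h = X ^ (n + 2) + (X ^ (n + 1) +
      ∑ i ∈ Finset.range (n + 1), C (a i) * X ^ (n - i)) := ⟨_, rfl⟩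
  have hmon : h.Monic := by
    rw [hh]
    refine monic_X_pow_add ?_
    refine (degree_add_le _ _).trans_lt (max_lt ?_ ?_)
    · refine (degree_X_pow_le _).trans_lt ?_
      exact_mod_cast Nat.lt_succ_self _
    · refine (degree_sum_le _ _).trans_lt ?_
      rw [Finset.sup_lt_iff (WithBot.bot_lt_coe _)]
      intro i _
      refine (degree_C_mul_X_pow_le _ _).trans_lt ?_
      exact_mod_cast (by omega : n - i < n + 2)
  have hev : h.eval (-1) ∈ IsLocalRing.maximalIdeal R := by
    rw [hh]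
    simp only [eval_add, eval_pow, eval_X, eval_finsetSum, eval_mul, eval_C]
    have e1 : (-1 : R) ^ (n + 2) + ((-1) ^ (n + 1) +
        ∑ i ∈ Finset.range (n + 1), a i * (-1) ^ (n - i)) =
        ∑ i ∈ Finset.range (n + 1), a i * (-1) ^ (n - i) := by
      rw [pow_succ (-1 : R) (n + 1)]
      ring
    rw [e1]
    exact Ideal.sum_mem _ fun i _ => Ideal.mul_mem_right _ _ (ham i)
  have hd : IsUnit (h.derivative.eval (-1)) := by
    have e1 : h.derivative.eval (-1) = -(-1) ^ n +
        ∑ i ∈ Finset.range (n + 1), a i * ((derivative (X ^ (n - i) : R[X])).eval (-1)) := by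
      rw [hh]
      simp only [derivative_add, derivative_sum, derivative_C_mul, eval_add, eval_finsetSum,
        eval_C_mul, derivative_X_pow, eval_mul, eval_pow, eval_X, eval_C]
      have e2 : n + 2 - 1 = n + 1 := rfl
      have e3 : n + 1 - 1 = n := rfl
      rw [e2, e3]
      push_cast
      ring
    rw [e1]
    have hm : ∑ i ∈ Finset.range (n + 1), a i * ((derivative (X ^ (n - i) : R[X])).eval (-1)) ∈
        IsLocalRing.maximalIdeal R := Ideal.sum_mem _ fun i _ => Ideal.mul_mem_right _ _ (ham i)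
    have hu : IsUnit (-(-1 : R) ^ n) := ((isUnit_one.neg).pow n).neg
    by_contra hcon
    have h3 : -(-1 : R) ^ n + ∑ i ∈ Finset.range (n + 1),
        a i * ((derivative (X ^ (n - i) : R[X])).eval (-1)) ∈ IsLocalRing.maximalIdeal R :=
      (IsLocalRing.mem_maximalIdeal _).2 hcon
    have h4 := Ideal.sub_mem _ h3 hm
    rw [add_sub_cancel_right] at h4
    exact (IsLocalRing.mem_maximalIdeal _).1 h4 hu
  obtain ⟨V, hV, hVm⟩ := HenselianLocalRing.is_henselian h hmon (-1) hev hd
  have hVu : IsUnit V := by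
    by_contra hcon
    have h3 : V ∈ IsLocalRing.maximalIdeal R := (IsLocalRing.mem_maximalIdeal _).2 hcon
    have h4 := Ideal.sub_mem _ h3 hVm
    rw [sub_sub_cancel] at h4
    exact (IsLocalRing.mem_maximalIdeal _).1 h4 isUnit_one.neg
  obtain ⟨w, hw⟩ := hVu.exists_right_inv
  refine ⟨c0 * v * w, Ideal.mul_mem_right _ _ (Ideal.mul_mem_right _ _ h0), ?_⟩
  have hVn : IsUnit (V ^ (n + 2)) := hVu.pow _
  rw [← hVn.mul_left_eq_zero]
  have e4 : F.eval (c0 * v * w) = c0 + F.coeff 1 * (c0 * v * w) +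
      ∑ i ∈ Finset.range (n + 1), F.coeff (i + 2) * (c0 * v * w) ^ (i + 2) := by
    rw [eval_eq_sum_range' (n := n + 3) (by omega), Finset.sum_range_succ', Finset.sum_range_succ']
    simp only [pow_zero, mul_one, zero_add, pow_one]
    ring
  have e5 : V ^ (n + 2) * (∑ i ∈ Finset.range (n + 1), F.coeff (i + 2) * (c0 * v * w) ^ (i + 2)) =
      c0 * ∑ i ∈ Finset.range (n + 1), a i * V ^ (n - i) := by
    rw [Finset.mul_sum, Finset.mul_sum]
    refine Finset.sum_congr rfl fun i hi => ?_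
    have hi' : i ≤ n := Nat.lt_succ_iff.1 (Finset.mem_range.1 hi)
    have e6 : V ^ (n + 2) = V ^ (i + 2) * V ^ (n - i) := by
      rw [← pow_add]
      congr 1
      omega
    have e7 : V ^ (i + 2) * w ^ (i + 2) = 1 := by rw [← mul_pow, hw, one_pow]
    rw [ha, e6, mul_pow, mul_pow, pow_succ c0 (i + 1)]
    linear_combination (V ^ (n - i) * F.coeff (i + 2) * (c0 ^ (i + 1) * c0) * v ^ (i + 2)) * e7
  have e8 : V ^ (n + 2) + (V ^ (n + 1) + ∑ i ∈ Finset.range (n + 1), a i * V ^ (n - i)) = 0 := by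
    have h3 : h.eval V = 0 := hV
    rw [hh] at h3
    simpa only [eval_add, eval_pow, eval_X, eval_finsetSum, eval_mul, eval_C] using h3
  have e9 : V ^ (n + 2) * w = V ^ (n + 1) := by
    rw [pow_succ V (n + 1), mul_assoc, hw, mul_one]
  rw [e4]
  linear_combination e5 + c0 * e8 + (c0 * V ^ (n + 2) * w) * hv + c0 * e9

theorem hensel_lin (hO : HenselianLocalRing O) (f : Polynomial N) (hf : ∀ i, f.coeff i ∈ O)
    (h0 : O.valuation (f.coeff 0) < 1) (h1 : O.valuation (f.coeff 1) = 1) :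
    ∃ x, O.valuation x < 1 ∧ f.eval x = 0 := by
  obtain ⟨F, hF⟩ : ∃ F : Polynomial O, F.map (algebraMap O N) = f := by
    have h2 : f ∈ Polynomial.lifts (algebraMap O N) := by
      rw [Polynomial.lifts_iff_coeff_lifts]
      exact fun i => ⟨⟨f.coeff i, hf i⟩, rfl⟩
    obtain ⟨F, hF⟩ := (Polynomial.mem_lifts f).1 h2
    exact ⟨F, hF⟩
  have hco : ∀ i, (algebraMap O N) (F.coeff i) = f.coeff i := by
    intro i
    rw [← hF, Polynomial.coeff_map]
  obtain ⟨x, hx, hx0⟩ := Hens_ring F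
    ((ValuationSubring.valuation_lt_one_iff O _).2 (by
      have := h0
      rw [← hco 0] at this
      exact this))
    ((ValuationSubring.valuation_eq_one_iff O _).2 (by
      have := h1
      rw [← hco 1] at this
      exact this))
  refine ⟨algebraMap O N x, (ValuationSubring.valuation_lt_one_iff O _).1 hx, ?_⟩
  rw [← hF, Polynomial.eval_map, Polynomial.eval₂_at_apply, hx0, map_zero]

end TF14
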