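import Pool.Agent.W_4ce76a_h14.Hens

set_option autoImplicit false
set_option linter.unusedSectionVars false

/-!
# MP_4ce76a_lc : continuation of `Hens.lean`, see there for the proofs
-/

namespace TF14

variable {N : Type} [Field N] {O : ValuationSubring N}

private theorem HensB_eval_mem (f : Polynomial N) (hf : ∀ i, f.coeff i ∈ O) {a : N} (ha : a ∈ O) :
    f.eval a ∈ O := by
  rw [Polynomial.eval_eq_sum_range]
  exact sum_mem fun i _ => mul_mem (hf i) (pow_mem ha i)

private theorem HensB_taylor_mem (f : Polynomial N) (hf : ∀ i, f.coeff i ∈ O) {a : N} (ha : a ∈ O)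
    (i : ℕ) : (Polynomial.taylor a f).coeff i ∈ O := by
  rw [Polynomial.taylor_coeff]
  refine HensB_eval_mem _ (fun j => ?_) ha
  rw [Polynomial.hasseDeriv_coeff]
  exact mul_mem (natCast_mem O _) (hf _)

theorem newton (hO : HenselianLocalRing O) (f : Polynomial N) (hf : ∀ i, f.coeff i ∈ O) {a : N}
    (ha : a ∈ O) (h : O.valuation (f.eval a) < O.valuation (f.derivative.eval a) ^ 2) :
    ∃ b ∈ O, f.eval b = 0 ∧ O.valuation (b - a) < O.valuation (f.derivative.eval a) ∧
      O.valuation (f.eval a) = O.valuation (f.derivative.eval a) * O.valuation (b - a) := by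
  set d := f.derivative.eval a with hd
  have hd0 : d ≠ 0 := by
    intro h0
    rw [h0, map_zero] at h
    simp at h
  have hvd : O.valuation d ≠ 0 := (Valuation.ne_zero_iff _).2 hd0
  set g := Polynomial.taylor a f with hg
  have hgO : ∀ i, g.coeff i ∈ O := HensB_taylor_mem f hf ha
  have hg0 : g.coeff 0 = f.eval a := Polynomial.taylor_coeff_zero a f
  have hg1 : g.coeff 1 = d := Polynomial.taylor_coeff_one a f
  have hdO : d ∈ O := by
    rw [← hg1]
    exact hgO 1
  set k := Polynomial.C (d⁻¹ ^ 2) * g.comp (Polynomial.C d * Polynomial.X) with hk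
  have hkc : ∀ i, k.coeff i = d⁻¹ ^ 2 * (g.coeff i * d ^ i) := by
    intro i
    rw [hk, Polynomial.coeff_C_mul, Polynomial.comp_C_mul_X_coeff]
  have hk0 : k.coeff 0 = d⁻¹ ^ 2 * f.eval a := by
    rw [hkc, hg0, pow_zero, mul_one]
  have hk1 : k.coeff 1 = 1 := by
    rw [hkc, hg1, pow_one]
    field_simp
  have hk2 : ∀ i, k.coeff (i + 2) ∈ O := by
    intro i
    rw [hkc]
    have h1 : d⁻¹ ^ 2 * (g.coeff (i + 2) * d ^ (i + 2)) = g.coeff (i + 2) * d ^ i := by
      rw [pow_add]
      field_simp
    rw [h1]
    exact mul_mem (hgO _) (pow_mem hdO i)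
  have hk0v : O.valuation (k.coeff 0) < 1 := by
    rw [hk0, map_mul, map_pow, map_inv₀]
    have h1 : (O.valuation d)⁻¹ ^ 2 * O.valuation (f.eval a) <
        (O.valuation d)⁻¹ ^ 2 * O.valuation d ^ 2 := by
      apply mul_lt_mul_of_pos_left h
      exact pow_pos (zero_lt_iff.2 (inv_ne_zero hvd)) 2
    rwa [← mul_pow, inv_mul_cancel₀ hvd, one_pow] at h1
  have hkO : ∀ i, k.coeff i ∈ O := by
    intro i
    match i with
    | 0 => exact (O.valuation_le_one_iff _).1 hk0v.le
    | 1 =>
      rw [hk1]
      exact one_mem O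
    | i + 2 => exact hk2 i
  obtain ⟨y, hy1, hy2⟩ := hensel_lin hO k hkO hk0v (by rw [hk1, map_one])
  have hyO : y ∈ O := (O.valuation_le_one_iff _).1 hy1.le
  have hroot : g.eval (d * y) = 0 := by
    rw [hk, Polynomial.eval_mul, Polynomial.eval_C, Polynomial.eval_comp, Polynomial.eval_mul,
      Polynomial.eval_C, Polynomial.eval_X] at hy2
    rcases mul_eq_zero.1 hy2 with h1 | h1
    · exact absurd h1 (pow_ne_zero 2 (inv_ne_zero hd0))
    · exact h1
  -- valuation of the constant coefficient
  have hv0 : O.valuation (k.coeff 0) = O.valuation y := by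
    have h1 : k.eval y = k.divX.eval y * y + k.coeff 0 := by
      conv_lhs => rw [← Polynomial.divX_mul_X_add k]
      rw [Polynomial.eval_add, Polynomial.eval_mul, Polynomial.eval_X, Polynomial.eval_C]
    have h2 : k.divX.eval y = k.divX.divX.eval y * y + 1 := by
      conv_lhs => rw [← Polynomial.divX_mul_X_add k.divX]
      rw [Polynomial.eval_add, Polynomial.eval_mul, Polynomial.eval_X, Polynomial.eval_C,
        Polynomial.coeff_divX, hk1]
    have h3 : k.divX.divX.eval y ∈ O := by
      refine HensB_eval_mem _ (fun i => ?_) hyO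
      rw [Polynomial.coeff_divX, Polynomial.coeff_divX]
      exact hkO _
    have h4 : O.valuation (k.divX.divX.eval y * y) < 1 := by
      rw [map_mul]
      calc O.valuation (k.divX.divX.eval y) * O.valuation y ≤ 1 * O.valuation y := by
            gcongr
            exact (O.valuation_le_one_iff _).2 h3
        _ < 1 := by rwa [one_mul]
    have h5 : O.valuation (k.divX.eval y) = 1 := by
      rw [h2, Valuation.map_add_eq_of_lt_right _ (by rwa [map_one]), map_one]
    rw [h1] at hy2
    have h6 : k.coeff 0 = -(k.divX.eval y * y) := by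
      linear_combination hy2
    rw [h6, Valuation.map_neg, map_mul, h5, one_mul]
  refine ⟨a + d * y, add_mem ha (mul_mem hdO hyO), ?_, ?_, ?_⟩
  · rw [hg, Polynomial.taylor_eval] at hroot
    rwa [add_comm] at hroot
  · rw [add_sub_cancel_left, map_mul]
    calc O.valuation d * O.valuation y < O.valuation d * 1 :=
          mul_lt_mul_of_pos_left hy1 (zero_lt_iff.2 hvd)
      _ = O.valuation d := mul_one _
  · rw [add_sub_cancel_left, map_mul, ← hv0, hk0, map_mul, map_pow, map_inv₀, ← mul_assoc,
      ← mul_assoc, ← sq, ← mul_pow, mul_inv_cancel₀ hvd, one_pow, one_mul]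

end TF14
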