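import Pool.Agent.W_4ce76a_h14.LosTarski

set_option autoImplicit false
set_option linter.unusedSectionVars false

/-!
# MP_4ce76a_lc : continuation of `LosTarski.lean`, see there for the proofs
-/

namespace TF14

variable {p n : ℕ} {φ : Fm n}

theorem lt_step2 {N : Type} [Field N] {O : ValuationSubring N} {t : N} {a : Fin n → N}
    (hn : ∀ ψ : Fm (n + 1), Ex ψ → Imp p φ ψ → ¬ Sat O ψ (Fin.snoc a t : Fin _ → N))
    (D : List (Σ m : ℕ, Lit (Fin m) × (Fin m → N))) (hD : ∀ q ∈ D, q.2.1.Holds O q.2.2) :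
    ∃ (N' : Type) (_ : Field N') (O' : ValuationSubring N') (t' : N') (v : N → N'),
      TF p N' O' t' ∧ v t = t' ∧ (∀ q ∈ D, q.2.1.Holds O' (v ∘ q.2.2)) ∧
      ¬ Sat O' φ (fun i => v (a i)) := by
  classical
  set W : Set N := {t} ∪ Set.range a ∪ ⋃ q ∈ D, Set.range q.2.2 with hW
  have hWf : W.Finite := by
    refine ((Set.finite_singleton t).union (Set.finite_range a)).union ?_
    have : (⋃ q ∈ D, Set.range q.2.2) = ⋃ q ∈ {q | q ∈ D}, Set.range q.2.2 := rfl
    rw [this]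
    exact (List.finite_toSet D).biUnion fun q _ => Set.finite_range q.2.2
  have htW : t ∈ W := Or.inl (Or.inl rfl)
  have haW : ∀ i, a i ∈ W := fun i => Or.inl (Or.inr ⟨i, rfl⟩)
  have hDW : ∀ q ∈ D, ∀ i, q.2.2 i ∈ W := fun q hq i =>
    Or.inr (Set.mem_iUnion₂.2 ⟨q, hq, ⟨i, rfl⟩⟩)
  haveI : Finite W := hWf
  obtain ⟨k, ⟨e⟩⟩ := Finite.exists_equiv_fin W
  set g : N → Fin k := fun x => if h : x ∈ W then e ⟨x, h⟩ else e ⟨t, htW⟩ with hg
  set w : Fin k → N := fun j => (e.symm j).1 with hw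
  have hwg : ∀ x ∈ W, w (g x) = x := by
    intro x hx
    simp only [hw, hg, dif_pos hx, Equiv.symm_apply_apply]
  set s : List (Lit (Fin (n + 1) ⊕ Fin k)) :=
    D.map (fun q => q.2.1.ren (fun i => Sum.inr (g (q.2.2 i)))) ++
      (Lit.zer (MvPolynomial.X (Sum.inr (g t)) - MvPolynomial.X (Sum.inl (Fin.last n))) ::
      List.ofFn fun i : Fin n => Lit.zer (MvPolynomial.X (Sum.inr (g (a i))) -
        MvPolynomial.X (Sum.inl (Fin.castSucc i)))) with hs
  obtain ⟨ψ, hψ, hsat⟩ := exists_fm (n + 1) k s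
  have h1 : Sat O ψ (Fin.snoc a t : Fin _ → N) := by
    rw [hsat]
    refine ⟨w, ?_⟩
    intro l hl
    rw [hs, List.mem_append, List.mem_cons, List.mem_map] at hl
    rcases hl with ⟨q, hq, rfl⟩ | rfl | hl
    · rw [Lit.holds_ren]
      have : (Sum.elim (Fin.snoc a t : Fin (n + 1) → N) w ∘ fun i => Sum.inr (g (q.2.2 i))) =
          q.2.2 := by
        funext i
        exact hwg _ (hDW q hq i)
      rw [this]
      exact hD q hq
    · show MvPolynomial.aeval _ _ = 0
      rw [map_sub, MvPolynomial.aeval_X, MvPolynomial.aeval_X, Sum.elim_inr, Sum.elim_inl,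
        Fin.snoc_last, hwg t htW, sub_self]
    · obtain ⟨i, rfl⟩ := (List.mem_ofFn' _ _).1 hl
      show MvPolynomial.aeval _ _ = 0
      rw [map_sub, MvPolynomial.aeval_X, MvPolynomial.aeval_X, Sum.elim_inr, Sum.elim_inl,
        Fin.snoc_castSucc, hwg _ (haW i), sub_self]
  have h2 : ¬ Imp p φ ψ := fun h => hn ψ hψ h h1
  unfold Imp at h2
  push Not at h2
  obtain ⟨N', iN', O', t', hTF, a', hsat', hnot⟩ := h2
  rw [hsat] at hsat'
  obtain ⟨y, hy⟩ := hsat'
  have h3 : y (g t) = t' := by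
    have := hy (Lit.zer (MvPolynomial.X (Sum.inr (g t)) - MvPolynomial.X (Sum.inl (Fin.last n))))
      (by rw [hs]; simp)
    have h4 : MvPolynomial.aeval (Sum.elim (Fin.snoc a' t' : Fin (n + 1) → N') y)
      (MvPolynomial.X (Sum.inr (g t)) - MvPolynomial.X (Sum.inl (Fin.last n)) :
        MvPolynomial (Fin (n + 1) ⊕ Fin k) ℤ) = 0 := this
    rw [map_sub, MvPolynomial.aeval_X, MvPolynomial.aeval_X, Sum.elim_inr, Sum.elim_inl,
        Fin.snoc_last] at h4
    exact sub_eq_zero.1 h4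
  have h5 : ∀ i, y (g (a i)) = a' i := by
    intro i
    have := hy (Lit.zer (MvPolynomial.X (Sum.inr (g (a i))) -
        MvPolynomial.X (Sum.inl (Fin.castSucc i)))) (by
          rw [hs, List.mem_append, List.mem_cons]
          exact Or.inr (Or.inr ((List.mem_ofFn' _ _).2 ⟨i, rfl⟩)))
    have h4 : MvPolynomial.aeval (Sum.elim (Fin.snoc a' t' : Fin (n + 1) → N') y)
      (MvPolynomial.X (Sum.inr (g (a i))) - MvPolynomial.X (Sum.inl (Fin.castSucc i)) :
        MvPolynomial (Fin (n + 1) ⊕ Fin k) ℤ) = 0 := this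
    rw [map_sub, MvPolynomial.aeval_X, MvPolynomial.aeval_X, Sum.elim_inr, Sum.elim_inl,
        Fin.snoc_castSucc] at h4
    exact sub_eq_zero.1 h4
  refine ⟨N', iN', O', t', fun x => y (g x), hTF, h3, ?_, ?_⟩
  · intro q hq
    have := hy (q.2.1.ren (fun i => Sum.inr (g (q.2.2 i)))) (by
      rw [hs, List.mem_append, List.mem_map]
      exact Or.inl ⟨q, hq, rfl⟩)
    rw [Lit.holds_ren] at this
    exact this
  · have : (fun i => y (g (a i))) = a' := funext h5
    show ¬ Sat O' φ (fun i => y (g (a i)))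
    rw [this]
    exact hnot

end TF14
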