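import Pool.Agent.W_4ce76a_h14.LTB

set_option autoImplicit false
set_option linter.unusedSectionVars false

/-!
# MP_4ce76a_lc : continuation of `LTB.lean`, see there for the proofs
-/

namespace TF14

variable {p n : ℕ} {φ : Fm n}

theorem lt_step3 (hp : p.Prime) {N : Type} [Field N] {O : ValuationSubring N} {t : N} {a : Fin n → N}
    (hn : ∀ ψ : Fm (n + 1), Ex ψ → Imp p φ ψ → ¬ Sat O ψ (Fin.snoc a t : Fin _ → N)) :
    ∃ (N' : Type) (_ : Field N') (O' : ValuationSubring N') (t' : N') (f : N →+* N'),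
      TF p N' O' t' ∧ Emb O O' t t' f ∧ Pre O O' f ∧ ¬ Sat O' φ (fun i => f (a i)) := by
  classical
  obtain ⟨U, hU⟩ := exists_ultra {q : Σ m : ℕ, Lit (Fin m) × (Fin m → N) // q.2.1.Holds O q.2.2}
  choose M instM OM tM vM h1 h2 h3 h4 using
    fun s : List {q : Σ m : ℕ, Lit (Fin m) × (Fin m → N) // q.2.1.Holds O q.2.2} =>
      lt_step2 hn (s.map Subtype.val) (by
        intro q hq
        obtain ⟨q', -, rfl⟩ := List.mem_map.1 hq
        exact q'.2)
  have key : ∀ (m : ℕ) (l : Lit (Fin m)) (c : Fin m → N), l.Holds O c →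
      ∀ᶠ s in (U : Filter _), l.Holds (OM s) (vM s ∘ c) := by
    intro m l c hl
    filter_upwards [hU ⟨⟨m, l, c⟩, hl⟩] with s hs
    exact h3 s ⟨m, l, c⟩ (List.mem_map.2 ⟨_, hs, rfl⟩)
  have hzero : ∀ᶠ s in (U : Filter _), vM s 0 = 0 := by
    have h5 := key 1 (Lit.zer (MvPolynomial.X 0)) ![0] (by simp [Lit.Holds])
    filter_upwards [h5] with s hs
    simpa [Lit.Holds] using hs
  have hone : ∀ᶠ s in (U : Filter _), vM s 1 = 1 := by
    have h5 := key 1 (Lit.zer (MvPolynomial.X 0 - 1)) ![1] (by simp [Lit.Holds])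
    filter_upwards [h5] with s hs
    have h6 : vM s 1 - 1 = 0 := by simpa [Lit.Holds] using hs
    exact sub_eq_zero.1 h6
  have hmul : ∀ x y : N, ∀ᶠ s in (U : Filter _), vM s (x * y) = vM s x * vM s y := by
    intro x y
    have h5 := key 3 (Lit.zer (MvPolynomial.X 0 * MvPolynomial.X 1 - MvPolynomial.X 2))
      ![x, y, x * y] (by simp [Lit.Holds])
    filter_upwards [h5] with s hs
    have h6 : vM s x * vM s y - vM s (x * y) = 0 := by simpa [Lit.Holds] using hs
    exact (sub_eq_zero.1 h6).symm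
  have hadd : ∀ x y : N, ∀ᶠ s in (U : Filter _), vM s (x + y) = vM s x + vM s y := by
    intro x y
    have h5 := key 3 (Lit.zer (MvPolynomial.X 0 + MvPolynomial.X 1 - MvPolynomial.X 2))
      ![x, y, x + y] (by simp [Lit.Holds])
    filter_upwards [h5] with s hs
    have h6 : vM s x + vM s y - vM s (x + y) = 0 := by simpa [Lit.Holds] using hs
    exact (sub_eq_zero.1 h6).symm
  let f : N →+* UF M U :=
    { toFun := fun x => umk M U (fun s => vM s x)
      map_zero' := (umk_eq_zero_iff M U).2 hzero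
      map_one' := by
        rw [← map_one (umk M U), umk_eq_iff]
        exact hone
      map_mul' := by
        intro x y
        rw [← map_mul, umk_eq_iff]
        exact hmul x y
      map_add' := by
        intro x y
        rw [← map_add, umk_eq_iff]
        exact hadd x y }
  refine ⟨UF M U, inferInstance, uO M U OM, umk M U tM, f, tf_ultra M U hp OM tM h1, ⟨?_, ?_⟩, ?_, ?_⟩
  · exact (umk_eq_iff M U).2 (Filter.Eventually.of_forall h2)
  · intro x
    constructor
    · intro hx
      by_contra hx'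
      have h5 : ∀ᶠ s in (U : Filter _), vM s x ∈ OM s := (umk_mem_uO M U).1 hx
      have h6 := key 1 (Lit.nin (MvPolynomial.X 0)) ![x] (by simpa [Lit.Holds] using hx')
      obtain ⟨s, h7, h8⟩ := (h5.and h6).exists
      have h9 : vM s x ∉ OM s := by simpa [Lit.Holds] using h8
      exact h9 h7
    · intro hx
      have h6 := key 1 (Lit.int (MvPolynomial.X 0)) ![x] (by simpa [Lit.Holds] using hx)
      refine (umk_mem_uO M U).2 ?_
      filter_upwards [h6] with s hs
      simpa [Lit.Holds] using hs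
  · intro m k χ c hc
    have h5 := key m (Lit.all k χ) c hc
    exact (allO_los M U OM k χ (fun i s => vM s (c i))).2 h5
  · intro hsat
    have h5 := (los M U OM φ (fun i s => vM s (a i))).1 hsat
    obtain ⟨s, hs⟩ := h5.exists
    exact h4 s hs

theorem ex_of_up (hp : p.Prime) (h : UP p φ) : ∃ ψ : Fm (n + 1), Ex ψ ∧ Eqv p φ ψ := by
  by_contra hno
  obtain ⟨N, _, O, t, a, h1, h2, h3⟩ := lt_step1 hp hno
  obtain ⟨N', _, O', t', f, h4, h5, h5', h6⟩ := lt_step3 hp h3
  exact h6 (h N N' O O' t t' h1 h4 f h5 h5' a h2)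

end TF14
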