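import Pool.Agent.W_4ce76a_h14.Syn

set_option autoImplicit false
set_option linter.unusedSectionVars false

/-!
# MP_4ce76a_lc : the coordinates of level `m`

* `exists_lam`: induction on `m`.  `m = 0`: `c 0 = x`.  Step: `x = ∑ i < p, t ^ i c_i ^ p` (`h.rep`), `c_i = ∑ j < p ^ m, t ^ j d_ij ^ (p ^ m)`, so
  `c_i ^ p = ∑ j, t ^ (p j) d_ij ^ (p ^ (m + 1))` (characteristic `p`: `sum_pow_char`), `x = ∑ t ^ (i + p j) d_ij ^ (p ^ (m + 1))`;
  `finProdFinEquiv : Fin (p ^ m) × Fin p ≃ Fin (p ^ m * p)` sends `(j, i)` to `i + p * j`.  Uniqueness in the same way (group the terms, uniqueness for `c`, then for `d`).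
* `lam_one`, `lam_succ`: from the proof of `exists_lam` or from uniqueness.
* `lam_int`: induction with `h.int`.  `lam_sub`: `(a - b) ^ (p ^ m) = a ^ (p ^ m) - b ^ (p ^ m)` (`sub_pow_char_pow`) and uniqueness.
* `lam_mul_pow`: uniqueness.  `lam_cl`: `lam_sub`, `lam_mul_pow`, `lam_int`.  `cl_lam`: `sub_pow_char_pow`.
-/

namespace TF14

variable {p : ℕ} {N : Type} [Field N] {O : ValuationSubring N} {t : N}

/-- the pair `(i, j)` has the index `j + p ^ m * i` -/
def Lam_e (p m : ℕ) : Fin p × Fin (p ^ m) ≃ Fin (p ^ (m + 1)) :=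
  finProdFinEquiv.trans (finCongr (pow_succ' p m).symm)

theorem Lam_e_val (p m : ℕ) (i : Fin p) (j : Fin (p ^ m)) :
    ((Lam_e p m (i, j) : Fin (p ^ (m + 1))) : ℕ) = j + p ^ m * i := rfl

theorem Lam_group (hp : p.Prime) (h : TA p N O t) (m : ℕ) (d : Fin (p ^ (m + 1)) → N) :
    ∑ k : Fin (p ^ (m + 1)), t ^ (k : ℕ) * d k ^ (p ^ (m + 1)) =
      ∑ j : Fin (p ^ m), t ^ (j : ℕ) *
        (∑ i : Fin p, t ^ (i : ℕ) * d (Lam_e p m (i, j)) ^ p) ^ (p ^ m) := by
  have : Fact p.Prime := ⟨hp⟩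
  have : CharP N p := h.char
  rw [← (Lam_e p m).sum_comp, Fintype.sum_prod_type_right]
  refine Finset.sum_congr rfl fun j _ => ?_
  rw [sum_pow_char_pow, Finset.mul_sum]
  refine Finset.sum_congr rfl fun i _ => ?_
  rw [Lam_e_val]
  generalize d (Lam_e p m (i, j)) = y
  rw [mul_pow, ← pow_mul, ← pow_mul, pow_add, mul_comm (p ^ m) (i : ℕ), pow_succ' p m, mul_assoc]

theorem exists_lam (hp : p.Prime) (h : TA p N O t) (m : ℕ) (x : N) :
    ∃! c : Fin (p ^ m) → N, x = ∑ j : Fin (p ^ m), t ^ (j : ℕ) * c j ^ (p ^ m) := by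
  induction m with
  | zero =>
    show ∃! c : Fin 1 → N, x = ∑ j : Fin 1, t ^ (j : ℕ) * c j ^ 1
    refine ⟨fun _ => x, by simp, ?_⟩
    intro c hc
    funext j
    have hj : j = 0 := Subsingleton.elim _ _
    rw [hj]
    simpa using hc.symm
  | succ m ih =>
    obtain ⟨L, hL, hLu⟩ := ih
    choose c hc hcu using fun j => h.rep (L j)
    refine ⟨fun k => c ((Lam_e p m).symm k).2 ((Lam_e p m).symm k).1, ?_, ?_⟩
    · show x = _
      rw [Lam_group hp h m]
      simp only [Equiv.symm_apply_apply]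
      rw [hL]
      refine Finset.sum_congr rfl fun j _ => ?_
      rw [← hc j]
    · intro d hd
      have h1 : (fun j : Fin (p ^ m) => ∑ i : Fin p, t ^ (i : ℕ) * d (Lam_e p m (i, j)) ^ p) = L :=
        hLu _ (by
          show x = _
          rw [← Lam_group hp h m d]
          exact hd)
      funext k
      obtain ⟨⟨i, j⟩, rfl⟩ := (Lam_e p m).surjective k
      have h2 : (fun i : Fin p => d (Lam_e p m (i, j))) = c j := hcu j _ (congrFun h1 j).symm
      simp only [Equiv.symm_apply_apply]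
      exact congrFun h2 i

/-- The coordinates of `x` of level `m`. -/
noncomputable def lam (hp : p.Prime) (h : TA p N O t) (m : ℕ) (x : N) : Fin (p ^ m) → N :=
  (exists_lam hp h m x).exists.choose

theorem lam_spec (hp : p.Prime) (h : TA p N O t) (m : ℕ) (x : N) :
    x = ∑ j : Fin (p ^ m), t ^ (j : ℕ) * lam hp h m x j ^ (p ^ m) :=
  (exists_lam hp h m x).exists.choose_spec

theorem lam_unique (hp : p.Prime) (h : TA p N O t) (m : ℕ) (x : N) (c : Fin (p ^ m) → N)
    (hc : x = ∑ j : Fin (p ^ m), t ^ (j : ℕ) * c j ^ (p ^ m)) : lam hp h m x = c :=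
  (exists_lam hp h m x).unique (lam_spec hp h m x) hc

theorem t_ne_zero (h : TA p N O t) : t ≠ 0 := by
  rintro rfl
  exact h.t_inv (by rw [inv_zero]; exact O.zero_mem)

theorem Lam_key (hp : p.Prime) (h : TA p N O t) (m : ℕ) (x : N) (j : Fin (p ^ m)) :
    lam hp h m x j = ∑ i : Fin p, t ^ (i : ℕ) * lam hp h (m + 1) x (Lam_e p m (i, j)) ^ p := by
  have h1 := lam_spec hp h (m + 1) x
  rw [Lam_group hp h m] at h1
  exact congrFun (lam_unique hp h m x _ h1) j

/-- the components of a coordinate of level `m` are coordinates of level `m + 1` -/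
theorem lam_succ (hp : p.Prime) (h : TA p N O t) (m : ℕ) (x : N) (j : Fin (p ^ m))
    (c : Fin p → N) (hc : lam hp h m x j = ∑ i : Fin p, t ^ (i : ℕ) * c i ^ p) (i : Fin p) :
    ∃ k, c i = lam hp h (m + 1) x k := by
  refine ⟨Lam_e p m (i, j), ?_⟩
  have h1 := Lam_key hp h m x j
  exact congrFun ((h.rep (lam hp h m x j)).unique hc h1) i

/-- every coordinate of level `m + 1` is a component of a coordinate of level `m` -/
theorem lam_succ' (hp : p.Prime) (h : TA p N O t) (m : ℕ) (x : N) (k : Fin (p ^ (m + 1))) :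
    ∃ (j : Fin (p ^ m)) (c : Fin p → N) (i : Fin p),
      lam hp h m x j = ∑ i : Fin p, t ^ (i : ℕ) * c i ^ p ∧ c i = lam hp h (m + 1) x k := by
  obtain ⟨⟨i, j⟩, rfl⟩ := (Lam_e p m).surjective k
  exact ⟨j, fun i => lam hp h (m + 1) x (Lam_e p m (i, j)), i, Lam_key hp h m x j, rfl⟩

end TF14
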