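import Pool.Agent.W_4ce76a_h14.Lam

set_option autoImplicit false
set_option linter.unusedSectionVars false

/-!
# MP_4ce76a_lc : continuation of `Lam.lean`, see there for the proofs
-/

namespace TF14

variable {p : ℕ} {N : Type} [Field N] {O : ValuationSubring N} {t : N}

theorem lam_int (hp : p.Prime) (h : TA p N O t) (m : ℕ) {x : N} (hx : x ∈ O)
    (j : Fin (p ^ m)) : lam hp h m x j ∈ O := by
  induction m with
  | zero =>
    have h0 : ∀ k : Fin (p ^ 0), (k : ℕ) = 0 := by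
      intro k
      have h1 := k.2
      simp only [pow_zero] at h1
      omega
    have hu : ∀ k ∈ (Finset.univ : Finset (Fin (p ^ 0))), k ≠ j →
        t ^ (k : ℕ) * lam hp h 0 x k ^ (p ^ 0) = 0 := by
      intro k _ hk
      exact absurd (Fin.ext ((h0 k).trans (h0 j).symm)) hk
    have h1 := lam_spec hp h 0 x
    rw [Finset.sum_eq_single j hu (fun h2 => absurd (Finset.mem_univ _) h2), h0 j, pow_zero,
      pow_zero, pow_one, one_mul] at h1
    rw [← h1]
    exact hx
  | succ m ih =>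
    obtain ⟨j', c, i, h1, h2⟩ := lam_succ' hp h m x j
    rw [← h2]
    refine h.int c ?_ i
    rw [← h1]
    exact ih j'

theorem lam_sub (hp : p.Prime) (h : TA p N O t) (m : ℕ) (x y : N) (j : Fin (p ^ m)) :
    lam hp h m (x - y) j = lam hp h m x j - lam hp h m y j := by
  haveI := h.char
  haveI := Fact.mk hp
  have h1 : lam hp h m (x - y) = fun j => lam hp h m x j - lam hp h m y j := by
    refine lam_unique hp h m _ _ ?_
    conv_lhs => rw [lam_spec hp h m x, lam_spec hp h m y]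
    rw [← Finset.sum_sub_distrib]
    refine Finset.sum_congr rfl fun k _ => ?_
    rw [sub_pow_char_pow, mul_sub]
  rw [h1]

theorem lam_mul_pow (hp : p.Prime) (h : TA p N O t) (m : ℕ) (r x : N) (j : Fin (p ^ m)) :
    lam hp h m (r ^ (p ^ m) * x) j = r * lam hp h m x j := by
  have h1 : lam hp h m (r ^ (p ^ m) * x) = fun j => r * lam hp h m x j := by
    refine lam_unique hp h m _ _ ?_
    conv_lhs => rw [lam_spec hp h m x]
    rw [Finset.mul_sum]
    refine Finset.sum_congr rfl fun k _ => ?_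
    rw [mul_pow]
    ring
  rw [h1]

/-- the coordinates are continuous -/
theorem lam_cl (hp : p.Prime) (h : TA p N O t) (m : ℕ) {e x y : N} (hxy : Cl O (e ^ (p ^ m)) x y)
    (j : Fin (p ^ m)) : Cl O e (lam hp h m x j) (lam hp h m y j) := by
  obtain ⟨u, hu, h1⟩ := hxy
  refine ⟨lam hp h m u j, lam_int hp h m hu j, ?_⟩
  rw [← lam_sub, h1, lam_mul_pow]

/-- an element is a continuous function of the coordinates -/
theorem cl_lam (hp : p.Prime) (h : TA p N O t) (m : ℕ) {e : N} {c d : Fin (p ^ m) → N}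
    (hcd : ∀ j, Cl O e (c j) (d j)) :
    Cl O (e ^ (p ^ m)) (∑ j : Fin (p ^ m), t ^ (j : ℕ) * c j ^ (p ^ m))
      (∑ j : Fin (p ^ m), t ^ (j : ℕ) * d j ^ (p ^ m)) := by
  haveI := h.char
  haveI := Fact.mk hp
  choose u hu h1 using hcd
  refine ⟨∑ j : Fin (p ^ m), t ^ (j : ℕ) * u j ^ (p ^ m), ?_, ?_⟩
  · exact O.toSubring.sum_mem fun j _ => O.toSubring.mul_mem (O.toSubring.pow_mem h.t_mem _)
      (O.toSubring.pow_mem (hu j) _)
  · rw [← Finset.sum_sub_distrib, Finset.mul_sum]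
    refine Finset.sum_congr rfl fun k _ => ?_
    rw [← mul_sub, ← sub_pow_char_pow, h1, mul_pow]
    ring

/-- for every radius there is a radius of the form `e ^ (p ^ m)` -/
theorem exists_pow_le (hp : p.Prime) (m : ℕ) {e : N} (he : e ≠ 0) :
    ∃ d : N, d ≠ 0 ∧ ∀ a b, Cl O (d ^ (p ^ m)) a b → Cl O e a b := by
  rcases O.mem_or_inv_mem e with h1 | h1
  · refine ⟨e, he, fun a b hab => ?_⟩
    obtain ⟨u, hu, h2⟩ := hab
    have h3 : p ^ m ≠ 0 := pow_ne_zero _ hp.ne_zero
    refine ⟨e ^ (p ^ m - 1) * u, O.toSubring.mul_mem (O.toSubring.pow_mem h1 _) hu, ?_⟩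
    rw [h2, ← mul_assoc, mul_pow_sub_one h3]
  · refine ⟨1, one_ne_zero, fun a b hab => ?_⟩
    obtain ⟨u, hu, h2⟩ := hab
    refine ⟨e⁻¹ * u, O.toSubring.mul_mem h1 hu, ?_⟩
    rw [h2, one_pow, one_mul, mul_inv_cancel_left₀ he]

end TF14
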