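import Pool.Agent.W_4ce76a_h14.LamB

set_option autoImplicit false
set_option linter.unusedSectionVars false

/-!
# MP_4ce76a_lc : the field generated by all coordinates of a tuple

`M` is a subfield of `N` (both with `TA p`), `lamt m x` the family of all coordinates of level `m` of the tuple `x : Fin k → N`, `Em m = M(lamt m x)`, `EE = ⋃ Em m`.
* `Em_mono`: `lam m x j = ∑ t ^ i c_i ^ p`, where the `c_i` are coordinates of level `m + 1` (`lam_succ`), `t ∈ M`.
* `EE_closed` (the components of elements of `EE` are in `EE`): the set `F` of the `y ∈ EE` whose components are all in `EE` is a subfield which contains `M`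
  (the components in `N` of an element of `M` are its components in `M`, by uniqueness): sums: components add; products: `(∑ t ^ i c_i ^ p) (∑ t ^ j d_j ^ p)`
  has the components `∑_{i + j = k} c_i d_j + t ∑_{i + j = k + p} c_i d_j` (as `t ^ (k + p) = t ^ k t ^ p`), which are in `EE` because `t ∈ EE`;
  inverse: `y⁻¹ = y ^ (p - 1) (y⁻¹) ^ p` has the components `y⁻¹ c_i`, `c_i` the components of `y ^ (p - 1)`.  `F` contains all coordinates of `x`
  (`lam_succ`).  So `EE ≤ F`.
* `lin_pow`: if `∑ c_i y_i ^ p = 0` with `c_i ∈ E`, not all zero, `c_i = ∑ t ^ j d_ij ^ p`, `d_ij ∈ E`, then `∑ t ^ j (∑ i, d_ij y_i) ^ p = 0`, so `∑ i, d_ij y_i = 0`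
  for all `j` (uniqueness for `0`), and not all `d_ij` are zero.
-/

namespace TF14

open IntermediateField

variable {p : ℕ} {M N : Type} [Field M] [Field N] [Algebra M N] {O : ValuationSubring M}
  {O' : ValuationSubring N} {t : M} {t' : N} {k : ℕ}

/-- the coordinates of level `m` of the tuple `x` -/
noncomputable def lamt (hp : p.Prime) (h' : TA p N O' t') (m : ℕ) (x : Fin k → N) :
    Fin k × Fin (p ^ m) → N := fun q => lam hp h' m (x q.1) q.2

/-- the field generated by the coordinates of level `m` -/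
noncomputable def Em (M : Type) [Field M] [Algebra M N] (hp : p.Prime) (h' : TA p N O' t')
    (x : Fin k → N) (m : ℕ) : IntermediateField M N :=
  adjoin M (Set.range (lamt hp h' m x))

/-- the field generated by all coordinates -/
noncomputable def EE (M : Type) [Field M] [Algebra M N] (hp : p.Prime) (h' : TA p N O' t')
    (x : Fin k → N) : IntermediateField M N :=
  ⨆ m, Em M hp h' x m

theorem LamField_t_mem (hf : Emb O O' t t' (algebraMap M N)) (K : IntermediateField M N) :
    t' ∈ K := by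
  rw [← hf.1]
  exact K.algebraMap_mem t

theorem LamField_mem_Em (hp : p.Prime) (h' : TA p N O' t') (x : Fin k → N) (m : ℕ) (i : Fin k)
    (j : Fin (p ^ m)) : lam hp h' m (x i) j ∈ Em M hp h' x m :=
  subset_adjoin M _ ⟨(i, j), rfl⟩

theorem Em_mono (hp : p.Prime) (h : TA p M O t) (h' : TA p N O' t')
    (hf : Emb O O' t t' (algebraMap M N)) (x : Fin k → N) : Monotone (Em M hp h' x) := by
  refine monotone_nat_of_le_succ fun m => ?_
  unfold Em
  rw [adjoin_le_iff]
  rintro _ ⟨q, rfl⟩
  obtain ⟨c, hc, -⟩ := h'.rep (lam hp h' m (x q.1) q.2)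
  show lam hp h' m (x q.1) q.2 ∈ Em M hp h' x (m + 1)
  rw [hc]
  refine sum_mem fun i _ => mul_mem (pow_mem (LamField_t_mem hf _) _) (pow_mem ?_ _)
  obtain ⟨k', hk'⟩ := lam_succ hp h' m (x q.1) q.2 c hc i
  rw [hk']
  exact LamField_mem_Em hp h' x (m + 1) q.1 k'

theorem mem_EE (hp : p.Prime) (h : TA p M O t) (h' : TA p N O' t')
    (hf : Emb O O' t t' (algebraMap M N)) (x : Fin k → N) (y : N) :
    y ∈ EE M hp h' x ↔ ∃ m, y ∈ Em M hp h' x m := by
  unfold EE
  rw [← SetLike.mem_coe, coe_iSup_of_directed (Em_mono hp h h' hf x).directed_le]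
  simp only [Set.mem_iUnion, SetLike.mem_coe]

/-- `y` is a combination of `p`-th powers of elements of `K`. -/
def LamField_P (p : ℕ) (t' : N) (K : IntermediateField M N) (y : N) : Prop :=
  ∃ c : Fin p → N, y = ∑ i : Fin p, t' ^ (i : ℕ) * c i ^ p ∧ ∀ i, c i ∈ K

theorem LamField_P_add (hp : p.Prime) (h' : TA p N O' t') {K : IntermediateField M N} {y z : N}
    (hy : LamField_P p t' K y) (hz : LamField_P p t' K z) : LamField_P p t' K (y + z) := by
  have := h'.char
  have : Fact p.Prime := ⟨hp⟩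
  obtain ⟨c, rfl, hc⟩ := hy
  obtain ⟨d, rfl, hd⟩ := hz
  refine ⟨fun i => c i + d i, ?_, fun i => add_mem (hc i) (hd i)⟩
  rw [← Finset.sum_add_distrib]
  refine Finset.sum_congr rfl fun i _ => ?_
  rw [add_pow_char, mul_add]

theorem LamField_P_zero (hp : p.Prime) (K : IntermediateField M N) : LamField_P p t' K 0 := by
  refine ⟨fun _ => 0, ?_, fun _ => zero_mem K⟩
  simp [hp.ne_zero]

theorem LamField_P_sum (hp : p.Prime) (h' : TA p N O' t') {K : IntermediateField M N}
    {ι : Type} (s : Finset ι) (y : ι → N) (hy : ∀ a ∈ s, LamField_P p t' K (y a)) :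
    LamField_P p t' K (∑ a ∈ s, y a) := by
  classical
  induction s using Finset.induction_on with
  | empty => simpa using LamField_P_zero hp K
  | insert a s ha ih =>
    rw [Finset.sum_insert ha]
    exact LamField_P_add hp h' (hy a (Finset.mem_insert_self a s))
      (ih fun b hb => hy b (Finset.mem_insert_of_mem hb))

theorem LamField_P_term (hp : p.Prime) {K : IntermediateField M N} (ht : t' ∈ K) (e : ℕ) {g : N}
    (hg : g ∈ K) : LamField_P p t' K (t' ^ e * g ^ p) := by
  classical
  refine ⟨fun i => if (i : ℕ) = e % p then t' ^ (e / p) * g else 0, ?_, fun i => ?_⟩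
  · rw [Finset.sum_eq_single (⟨e % p, Nat.mod_lt _ hp.pos⟩ : Fin p)]
    · simp only [if_true]
      rw [mul_pow, ← pow_mul, ← mul_assoc, ← pow_add, mul_comm (e / p) p, Nat.mod_add_div]
    · intro b _ hb
      have hb' : ¬ (b : ℕ) = e % p := fun h => hb (Fin.ext h)
      simp only [if_neg hb', zero_pow hp.ne_zero, mul_zero]
    · intro hcon
      exact absurd (Finset.mem_univ _) hcon
  · show (if (i : ℕ) = e % p then t' ^ (e / p) * g else 0) ∈ K
    split_ifs
    · exact mul_mem (pow_mem ht _) hg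
    · exact zero_mem K

theorem LamField_P_mul (hp : p.Prime) (h' : TA p N O' t') {K : IntermediateField M N}
    (ht : t' ∈ K) {y z : N} (hy : LamField_P p t' K y) (hz : LamField_P p t' K z) :
    LamField_P p t' K (y * z) := by
  obtain ⟨c, rfl, hc⟩ := hy
  obtain ⟨d, rfl, hd⟩ := hz
  rw [Finset.sum_mul_sum]
  refine LamField_P_sum hp h' _ _ fun i _ => LamField_P_sum hp h' _ _ fun j _ => ?_
  have h1 : t' ^ (i : ℕ) * c i ^ p * (t' ^ (j : ℕ) * d j ^ p) =
      t' ^ ((i : ℕ) + (j : ℕ)) * (c i * d j) ^ p := by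
    rw [mul_pow, pow_add]
    ring
  rw [h1]
  exact LamField_P_term hp ht _ (mul_mem (hc i) (hd j))

theorem LamField_P_pow (hp : p.Prime) (h' : TA p N O' t') {K : IntermediateField M N}
    (ht : t' ∈ K) {y : N} (hy : LamField_P p t' K y) (n : ℕ) : LamField_P p t' K (y ^ n) := by
  induction n with
  | zero =>
    have h1 := LamField_P_term (K := K) hp ht 0 (one_mem K)
    simpa using h1
  | succ n ih =>
    rw [pow_succ]
    exact LamField_P_mul hp h' ht ih hy

theorem LamField_P_inv (hp : p.Prime) (h' : TA p N O' t') {K : IntermediateField M N}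
    (ht : t' ∈ K) {y : N} (hyK : y ∈ K) (hy : LamField_P p t' K y) : LamField_P p t' K y⁻¹ := by
  by_cases hy0 : y = 0
  · rw [hy0, inv_zero]
    exact LamField_P_zero hp K
  · obtain ⟨c, hc, hcK⟩ := LamField_P_pow hp h' ht hy (p - 1)
    refine ⟨fun i => y⁻¹ * c i, ?_, fun i => mul_mem (inv_mem hyK) (hcK i)⟩
    have h1 : y⁻¹ = (y⁻¹) ^ p * y ^ (p - 1) := by
      have h2 : (y⁻¹) ^ p = y⁻¹ * (y⁻¹) ^ (p - 1) := by
        rw [← pow_succ', Nat.sub_add_cancel hp.one_le]
      rw [h2, mul_assoc, ← mul_pow, inv_mul_cancel₀ hy0, one_pow, mul_one]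
    calc y⁻¹ = (y⁻¹) ^ p * y ^ (p - 1) := h1
      _ = (y⁻¹) ^ p * ∑ i : Fin p, t' ^ (i : ℕ) * c i ^ p := by rw [← hc]
      _ = ∑ i : Fin p, t' ^ (i : ℕ) * (y⁻¹ * c i) ^ p := by
          rw [Finset.mul_sum]
          refine Finset.sum_congr rfl fun i _ => ?_
          rw [mul_pow]
          ring

theorem EE_closed (hp : p.Prime) (h : TA p M O t) (h' : TA p N O' t')
    (hf : Emb O O' t t' (algebraMap M N)) (x : Fin k → N) (c : Fin p → N)
    (hc : (∑ i : Fin p, t' ^ (i : ℕ) * c i ^ p) ∈ EE M hp h' x) (i : Fin p) :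
    c i ∈ EE M hp h' x := by
  have ht : t' ∈ EE M hp h' x := LamField_t_mem hf _
  have key : ∀ y ∈ EE M hp h' x, LamField_P p t' (EE M hp h' x) y := by
    intro y hy
    have hEE : EE M hp h' x = adjoin M (⋃ m, Set.range (lamt hp h' m x)) := by
      rw [adjoin_iUnion]
      rfl
    have hy' : y ∈ adjoin M (⋃ m, Set.range (lamt hp h' m x)) := by
      rw [← hEE]
      exact hy
    refine adjoin_induction M (p := fun z _ => LamField_P p t' (EE M hp h' x) z) ?_ ?_ ?_ ?_ ?_ hy'
    · intro z hz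
      obtain ⟨m, q, rfl⟩ := Set.mem_iUnion.1 hz
      obtain ⟨d, hd, -⟩ := h'.rep (lam hp h' m (x q.1) q.2)
      refine ⟨d, hd, fun i => ?_⟩
      obtain ⟨k', hk'⟩ := lam_succ hp h' m (x q.1) q.2 d hd i
      rw [hk', mem_EE hp h h' hf x]
      exact ⟨m + 1, LamField_mem_Em hp h' x (m + 1) q.1 k'⟩
    · intro a
      obtain ⟨d, hd, -⟩ := h.rep a
      refine ⟨fun i => algebraMap M N (d i), ?_, fun i => IntermediateField.algebraMap_mem _ _⟩
      conv_lhs => rw [hd]
      rw [map_sum]
      refine Finset.sum_congr rfl fun i _ => ?_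
      rw [map_mul, map_pow, map_pow, hf.1]
    · intro a b _ _ ha hb
      exact LamField_P_add hp h' ha hb
    · intro a ha haP
      exact LamField_P_inv hp h' ht (by rw [hEE]; exact ha) haP
    · intro a b _ _ ha hb
      exact LamField_P_mul hp h' ht ha hb
  obtain ⟨d, hd, hdE⟩ := key _ hc
  have h1 : c = d := (h'.rep _).unique rfl hd
  rw [h1]
  exact hdE i

end TF14
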