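import Pool.Agent.W_4ce76a_h14.Syn

set_option autoImplicit false
set_option linter.unusedSectionVars false

/-!
# MP_4ce76a_lc : the fields `F_p((t))` and `F_p(t)^h`

`L p = F_p((t))`, `OL p` the ring of power series, `tL p = t`, `F p = F_p(t)`, `K p` the relative algebraic closure of `F p` in `L p`, `OK p`, `tK p`.

* `ta_L`: characteristic; `t⁻¹` is not a power series.  Henselian: `OL p` is isomorphic to `PowerSeries (ZMod p)`, which is complete (`IsAdicComplete`, Mathlib has
  `IsAdicComplete.henselianRing`; or Newton iteration).  `rep`: `x = ∑ a_n t ^ n`, `c_i = ∑ a_(p k + i) t ^ k` (as `a ^ p = a` in `ZMod p`); `(∑ b_k t ^ k) ^ p = ∑ b_k t ^ (p k)`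
  (Frobenius: for a Hahn series `x`, `x ^ p` is the image of `x` under `n ↦ p n`; or use that `x ↦ x ^ p` is additive and continuous; one can also reduce to power
  series, multiplying by a power of `t ^ p`, where `PowerSeries` has a lemma for `f ^ p` in characteristic `p`: `expand`).  Uniqueness: if `∑ t ^ i c_i ^ p = 0`, the orders of the
  nonzero terms are pairwise different modulo `p`.  `int`: the same argument.
* `comp_F`: the components of an element of `F p` are in `F p`: the set of the elements of `F p` with all components in `F p` is a subfield (compare `EE_closed` in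
  `LamField.lean`) which contains `t`.
* `comp_K`: let `x ∈ K p`, `d = [F(x) : F]`.  `1, x, .., x ^ (d - 1)` are linearly independent over `F`, so `1, x ^ p, .., x ^ (p (d - 1))` also (as in `lin_pow` of `LamField.lean`,
  by `comp_F`), so they are a basis of `F(x)` and `x = ∑ r_k x ^ (p k)`, `r_k = ∑ t ^ i s_ik ^ p` with `s_ik ∈ F`, so by uniqueness the components of `x` are `∑ k, s_ik x ^ k ∈ K p`.
* `ta_K`: `rep`: `comp_K`.  Henselian: a root in `OL p` of a monic polynomial over `OK p` is in `K p`.
* `dense_K`: subtract from `y` finitely many terms; Laurent polynomials are in `F p`.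
* `closed_K`: transitivity of algebraicity.
-/

namespace TF14

variable (p : ℕ) [Fact p.Prime]

/-- `F_p((t))` -/
abbrev L : Type := LaurentSeries (ZMod p)

/-- `t` -/
noncomputable def tL : L p := HahnSeries.single 1 1

/-- the valuation ring of `F_p((t))`, the ring of power series -/
noncomputable def OL : ValuationSubring (L p) where
  carrier := {x | ∃ f : PowerSeries (ZMod p), (f : LaurentSeries (ZMod p)) = x}
  mul_mem' := by
    rintro _ _ ⟨f, rfl⟩ ⟨g, rfl⟩
    exact ⟨f * g, by push_cast; rfl⟩
  one_mem' := ⟨1, by push_cast; rfl⟩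
  add_mem' := by
    rintro _ _ ⟨f, rfl⟩ ⟨g, rfl⟩
    exact ⟨f + g, by push_cast; rfl⟩
  zero_mem' := ⟨0, by push_cast; rfl⟩
  neg_mem' := by
    rintro _ ⟨f, rfl⟩
    exact ⟨-f, by push_cast; rfl⟩
  mem_or_inv_mem' := by
    intro x
    rcases le_total ((Valued.v : Valuation (LaurentSeries (ZMod p)) _) x) 1 with h | h
    · left
      exact (LaurentSeries.val_le_one_iff_eq_coe (ZMod p) x).1 h
    · right
      refine (LaurentSeries.val_le_one_iff_eq_coe (ZMod p) x⁻¹).1 ?_
      rw [map_inv₀]
      exact inv_le_one_of_one_le₀ h

/-- `F_p(t)` -/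
noncomputable def F : IntermediateField (ZMod p) (L p) := IntermediateField.adjoin (ZMod p) {tL p}

/-- `F_p(t)^h`: the relative algebraic closure of `F_p(t)` in `F_p((t))` -/
noncomputable def K : IntermediateField (F p) (L p) := algebraicClosure (F p) (L p)

/-- the valuation ring of `F_p(t)^h` -/
noncomputable def OK : ValuationSubring (K p) := (OL p).comap (algebraMap (K p) (L p))

theorem tL_mem_F : tL p ∈ F p := IntermediateField.subset_adjoin _ _ rfl

theorem tL_mem : tL p ∈ K p := by
  unfold K
  rw [mem_algebraicClosure_iff]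
  exact isAlgebraic_algebraMap (⟨tL p, tL_mem_F p⟩ : F p)

/-- `t` as an element of `F_p(t)^h` -/
noncomputable def tK : K p := ⟨tL p, tL_mem p⟩

end TF14
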