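import Pool.Agent.W_4ce76a_h14.Laurent

set_option autoImplicit false
set_option linter.unusedSectionVars false

/-!
# MP_4ce76a_lc : the ring of power series is henselian

PROOF. `OL p` is isomorphic to `PowerSeries (ZMod p)`.  Mathlib has the instance `IsAdicComplete (Ideal.span {PowerSeries.X}) (PowerSeries R)`
(`RingTheory/AdicCompletion/Completeness`), so `PowerSeries (ZMod p)` is a henselian ring for this ideal (`IsAdicComplete.henselianRing`), which is its maximal ideal,
so it is a `HenselianLocalRing`; transport along the isomorphism.
-/

namespace TF14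

variable (p : ℕ) [Fact p.Prime]

theorem LaurentH_ps : HenselianLocalRing (PowerSeries (ZMod p)) where
  is_henselian f hf a₀ h1 h2 := by
    rw [PowerSeries.maximalIdeal_eq_span_X] at h1 ⊢
    exact HenselianRing.is_henselian (I := Ideal.span {PowerSeries.X}) f hf a₀ h1 (h2.map _)

theorem LaurentH_transfer {R S : Type*} [CommRing R] [CommRing S] [HenselianLocalRing R]
    [IsLocalRing S] (e : R ≃+* S) : HenselianLocalRing S where
  is_henselian f hf a₀ h1 h2 := by
    have hm : ∀ x : S, x ∈ IsLocalRing.maximalIdeal S ↔
        e.symm x ∈ IsLocalRing.maximalIdeal R := by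
      intro x
      rw [IsLocalRing.mem_maximalIdeal, IsLocalRing.mem_maximalIdeal, mem_nonunits_iff,
        mem_nonunits_iff, not_iff_not]
      exact ⟨fun h => h.map e.symm, fun h => by simpa using h.map e⟩
    obtain ⟨a, ha, hb⟩ := HenselianLocalRing.is_henselian (f.map (e.symm : S →+* R))
      (hf.map _) (e.symm a₀) (by
        have : (f.map (e.symm : S →+* R)).eval (e.symm a₀) = e.symm (f.eval a₀) := by
          exact Polynomial.eval_map_apply (e.symm : S →+* R) a₀
        rw [this, ← hm]
        exact h1) (by
        have : ((f.map (e.symm : S →+* R)).derivative).eval (e.symm a₀) =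
            e.symm (f.derivative.eval a₀) := by
          rw [Polynomial.derivative_map]
          exact Polynomial.eval_map_apply (e.symm : S →+* R) a₀
        rw [this]
        exact h2.map _)
    refine ⟨e a, ?_, ?_⟩
    · have h3 : (f.map (e.symm : S →+* R)).eval a = 0 := ha
      have h4 : (f.map (e.symm : S →+* R)).eval (e.symm (e a)) = e.symm (f.eval (e a)) :=
        Polynomial.eval_map_apply (e.symm : S →+* R) (e a)
      rw [RingEquiv.symm_apply_apply, h3] at h4
      show f.eval (e a) = 0
      apply e.symm.injective
      rw [← h4, map_zero]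
    · rw [hm, map_sub, RingEquiv.symm_apply_apply]
      exact hb

theorem hens_OL : HenselianLocalRing (OL p) := by
  have := LaurentH_ps p
  let φ : PowerSeries (ZMod p) →+* OL p :=
    (HahnSeries.ofPowerSeries ℤ (ZMod p)).codRestrict (OL p) fun f => ⟨f, rfl⟩
  have hφ : Function.Bijective φ := by
    constructor
    · intro f g h
      apply HahnSeries.ofPowerSeries_injective (Γ := ℤ)
      exact congrArg Subtype.val h
    · rintro ⟨_, f, rfl⟩
      exact ⟨f, rfl⟩
  exact LaurentH_transfer (RingEquiv.ofBijective φ hφ)

end TF14
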