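import Pool.Agent.W_4ce76a_h14.LaurentL

set_option autoImplicit false
set_option linter.unusedSectionVars false

/-!
# MP_4ce76a_lc : `F_p(t)^h` is in the class, it is dense and algebraically closed in `F_p((t))`; see `Laurent.lean` for the proofs
-/

namespace TF14

variable (p : ℕ) [Fact p.Prime]

theorem LaurentK_charP : CharP (L p) p :=
  charP_of_injective_algebraMap (algebraMap (ZMod p) (L p)).injective p

/-- the element has components in `A` -/
def LaurentK_E (A : IntermediateField (ZMod p) (L p)) (x : L p) : Prop :=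
  ∃ c : Fin p → L p, (∀ i, c i ∈ A) ∧ x = ∑ i : Fin p, tL p ^ (i : ℕ) * c i ^ p

theorem LaurentK_mon {A : IntermediateField (ZMod p) (L p)} (ht : tL p ∈ A) (k : ℕ) {a : L p}
    (ha : a ∈ A) : LaurentK_E p A (tL p ^ k * a ^ p) := by
  have hp : 0 < p := (Fact.out : p.Prime).pos
  refine ⟨fun i => if i = ⟨k % p, Nat.mod_lt _ hp⟩ then tL p ^ (k / p) * a else 0, ?_, ?_⟩
  · intro i
    by_cases hi : i = ⟨k % p, Nat.mod_lt _ hp⟩
    · simp only [hi, if_true]
      exact mul_mem (pow_mem ht _) ha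
    · simp only [hi, if_false]
      exact zero_mem _
  · rw [Finset.sum_eq_single (⟨k % p, Nat.mod_lt _ hp⟩ : Fin p)]
    · simp only [if_true]
      rw [mul_pow, ← pow_mul, ← mul_assoc, ← pow_add]
      congr 2
      exact (Nat.mod_add_div' k p).symm
    · intro i _ hi
      simp [hi, hp.ne']
    · intro h
      exact absurd (Finset.mem_univ _) h

theorem LaurentK_add {A : IntermediateField (ZMod p) (L p)} {x y : L p}
    (hx : LaurentK_E p A x) (hy : LaurentK_E p A y) : LaurentK_E p A (x + y) := by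
  have := LaurentK_charP p
  obtain ⟨c, hc, rfl⟩ := hx
  obtain ⟨d, hd, rfl⟩ := hy
  refine ⟨fun i => c i + d i, fun i => add_mem (hc i) (hd i), ?_⟩
  rw [← Finset.sum_add_distrib]
  refine Finset.sum_congr rfl fun i _ => ?_
  rw [add_pow_char, mul_add]

theorem LaurentK_zero {A : IntermediateField (ZMod p) (L p)} : LaurentK_E p A 0 := by
  have hp : p ≠ 0 := (Fact.out : p.Prime).ne_zero
  exact ⟨fun _ => 0, fun _ => zero_mem _, by simp [hp]⟩

theorem LaurentK_sum {A : IntermediateField (ZMod p) (L p)} {ι : Type} (s : Finset ι)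
    (f : ι → L p) (h : ∀ i ∈ s, LaurentK_E p A (f i)) : LaurentK_E p A (∑ i ∈ s, f i) := by
  classical
  induction s using Finset.induction_on with
  | empty => simpa using LaurentK_zero p
  | insert a s ha ih =>
    rw [Finset.sum_insert ha]
    exact LaurentK_add p (h a (Finset.mem_insert_self _ _))
      (ih fun i hi => h i (Finset.mem_insert_of_mem hi))

theorem LaurentK_mul {A : IntermediateField (ZMod p) (L p)} (ht : tL p ∈ A) {x y : L p}
    (hx : LaurentK_E p A x) (hy : LaurentK_E p A y) : LaurentK_E p A (x * y) := by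
  obtain ⟨c, hc, rfl⟩ := hx
  obtain ⟨d, hd, rfl⟩ := hy
  rw [Finset.sum_mul_sum]
  refine LaurentK_sum p _ _ fun i _ => LaurentK_sum p _ _ fun j _ => ?_
  have h1 : tL p ^ (i : ℕ) * c i ^ p * (tL p ^ (j : ℕ) * d j ^ p) =
      tL p ^ ((i : ℕ) + j) * (c i * d j) ^ p := by
    rw [pow_add, mul_pow]
    ring
  rw [h1]
  exact LaurentK_mon p ht _ (mul_mem (hc i) (hd j))

theorem LaurentK_one {A : IntermediateField (ZMod p) (L p)} (ht : tL p ∈ A) :
    LaurentK_E p A 1 := by
  have := LaurentK_mon p ht 0 (one_mem A)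
  simpa using this

theorem LaurentK_pow {A : IntermediateField (ZMod p) (L p)} (ht : tL p ∈ A) {x : L p}
    (hx : LaurentK_E p A x) (n : ℕ) : LaurentK_E p A (x ^ n) := by
  induction n with
  | zero => simpa using LaurentK_one p ht
  | succ n ih =>
    rw [pow_succ]
    exact LaurentK_mul p ht ih hx

theorem LaurentK_mem {A : IntermediateField (ZMod p) (L p)} (ht : tL p ∈ A) {x : L p}
    (hx : LaurentK_E p A x) : x ∈ A := by
  obtain ⟨c, hc, rfl⟩ := hx
  exact sum_mem fun i _ => mul_mem (pow_mem ht _) (pow_mem (hc i) _)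

theorem LaurentK_inv {A : IntermediateField (ZMod p) (L p)} (ht : tL p ∈ A) {x : L p}
    (hx : LaurentK_E p A x) : LaurentK_E p A x⁻¹ := by
  by_cases h0 : x = 0
  · rw [h0, inv_zero]
    exact LaurentK_zero p
  have hp : 0 < p := (Fact.out : p.Prime).pos
  have h2 : ∀ n : ℕ, x⁻¹ = x ^ n * (x⁻¹) ^ (n + 1) := by
    intro n
    rw [pow_succ, ← mul_assoc, ← mul_pow, mul_inv_cancel₀ h0, one_pow, one_mul]
  have h1 : x⁻¹ = x ^ (p - 1) * (tL p ^ 0 * (x⁻¹) ^ p) := by
    have h3 := h2 (p - 1)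
    rw [Nat.sub_add_cancel hp] at h3
    rw [pow_zero, one_mul]
    exact h3
  rw [h1]
  exact LaurentK_mul p ht (LaurentK_pow p ht hx _) (LaurentK_mon p ht 0
    (inv_mem (LaurentK_mem p ht hx)))

theorem LaurentK_const {A : IntermediateField (ZMod p) (L p)} (ht : tL p ∈ A) (a : ZMod p) :
    LaurentK_E p A (algebraMap (ZMod p) (L p) a) := by
  have h1 : algebraMap (ZMod p) (L p) a = tL p ^ 0 * (algebraMap (ZMod p) (L p) a) ^ p := by
    rw [pow_zero, one_mul, ← map_pow, ZMod.pow_card]
  rw [h1]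
  exact LaurentK_mon p ht 0 (A.algebraMap_mem a)

theorem LaurentK_F {x : L p} (hx : x ∈ F p) : LaurentK_E p (F p) x := by
  have ht := tL_mem_F p
  let S : IntermediateField (ZMod p) (L p) :=
    { carrier := {x | LaurentK_E p (F p) x}
      mul_mem' := fun h1 h2 => LaurentK_mul p ht h1 h2
      one_mem' := LaurentK_one p ht
      add_mem' := fun h1 h2 => LaurentK_add p h1 h2
      zero_mem' := LaurentK_zero p
      algebraMap_mem' := fun a => LaurentK_const p ht a
      inv_mem' := fun x h1 => LaurentK_inv p ht h1 }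
  have h1 : F p ≤ S := by
    refine IntermediateField.adjoin_le_iff.2 ?_
    intro y hy
    rw [Set.mem_singleton_iff] at hy
    rw [hy]
    have h2 := LaurentK_mon p ht 1 (one_mem (F p))
    rw [pow_one, one_pow, mul_one] at h2
    exact h2
  exact h1 hx

theorem LaurentK_unique {c d : Fin p → L p}
    (h : ∑ i : Fin p, tL p ^ (i : ℕ) * c i ^ p = ∑ i : Fin p, tL p ^ (i : ℕ) * d i ^ p) :
    c = d := by
  obtain ⟨e, -, he⟩ := rep_L p (∑ i : Fin p, tL p ^ (i : ℕ) * c i ^ p)
  rw [he c rfl, he d h]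

theorem comp_F (c : Fin p → L p) (hc : (∑ i : Fin p, tL p ^ (i : ℕ) * c i ^ p) ∈ F p) (i : Fin p) :
    c i ∈ F p := by
  obtain ⟨d, hd, he⟩ := LaurentK_F p hc
  rw [LaurentK_unique p he]
  exact hd i

theorem LaurentK_swap {n : ℕ} (s : Fin n → Fin p → L p) (y : Fin n → L p) :
    ∑ k : Fin n, (∑ i : Fin p, tL p ^ (i : ℕ) * s k i ^ p) * y k ^ p =
      ∑ i : Fin p, tL p ^ (i : ℕ) * (∑ k : Fin n, s k i * y k) ^ p := by
  have := LaurentK_charP p
  have h1 : ∀ i : Fin p, tL p ^ (i : ℕ) * (∑ k : Fin n, s k i * y k) ^ p =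
      ∑ k : Fin n, tL p ^ (i : ℕ) * (s k i ^ p * y k ^ p) := by
    intro i
    rw [sum_pow_char, Finset.mul_sum]
    refine Finset.sum_congr rfl fun k _ => ?_
    rw [mul_pow]
  simp_rw [h1]
  rw [Finset.sum_comm]
  refine Finset.sum_congr rfl fun k _ => ?_
  rw [Finset.sum_mul]
  refine Finset.sum_congr rfl fun i _ => ?_
  ring

theorem comp_K (c : Fin p → L p) (hc : (∑ i : Fin p, tL p ^ (i : ℕ) * c i ^ p) ∈ K p) (i : Fin p) :
    c i ∈ K p := by
  set x : L p := ∑ i : Fin p, tL p ^ (i : ℕ) * c i ^ p with hx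
  have hp : p ≠ 0 := (Fact.out : p.Prime).ne_zero
  have hint : IsIntegral (F p) x := (mem_algebraicClosure_iff.1 hc).isIntegral
  set d := (minpoly (F p) x).natDegree with hd
  have hli : LinearIndependent (F p) (fun k : Fin d => x ^ (k : ℕ)) := linearIndependent_pow x
  -- components of a family of scalars
  have hch : ∀ r : F p, ∃ s : Fin p → F p, (r : L p) = ∑ i : Fin p, tL p ^ (i : ℕ) * (s i : L p) ^ p := by
    intro r
    obtain ⟨s, hs, hr⟩ := LaurentK_F p r.2
    exact ⟨fun i => ⟨s i, hs i⟩, hr⟩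
  choose S hS using hch
  have hli2 : LinearIndependent (F p) (fun k : Fin d => (x ^ (k : ℕ)) ^ p) := by
    rw [Fintype.linearIndependent_iff]
    intro g hg k
    have h1 : ∑ k : Fin d, (∑ i : Fin p, tL p ^ (i : ℕ) * (S (g k) i : L p) ^ p) * (x ^ (k : ℕ)) ^ p
        = 0 := by
      rw [← hg]
      refine Finset.sum_congr rfl fun k _ => ?_
      rw [← hS (g k)]
      rfl
    rw [LaurentK_swap p (fun k i => (S (g k) i : L p)) (fun k => x ^ (k : ℕ))] at h1
    have h2 : ∑ i : Fin p, tL p ^ (i : ℕ) * (∑ k : Fin d, (S (g k) i : L p) * x ^ (k : ℕ)) ^ p =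
        ∑ i : Fin p, tL p ^ (i : ℕ) * ((fun _ => 0 : Fin p → L p) i) ^ p := by
      rw [h1]
      simp [hp]
    have h3 := LaurentK_unique p h2
    have h4 : ∀ i : Fin p, S (g k) i = 0 := by
      intro i
      have h5 : ∑ k : Fin d, (S (g k) i) • (x ^ (k : ℕ)) = 0 := congrFun h3 i
      exact (Fintype.linearIndependent_iff.1 hli (fun k => S (g k) i) h5) k
    have h5 : ((g k : F p) : L p) = 0 := by
      rw [hS (g k)]
      simp [h4, hp]
    exact_mod_cast h5
  have hfin : FiniteDimensional (F p) (IntermediateField.adjoin (F p) {x}) :=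
    IntermediateField.adjoin.finiteDimensional hint
  have hle : Submodule.span (F p) (Set.range (fun k : Fin d => (x ^ (k : ℕ)) ^ p)) ≤
      Subalgebra.toSubmodule (IntermediateField.adjoin (F p) {x}).toSubalgebra := by
    rw [Submodule.span_le]
    rintro _ ⟨k, rfl⟩
    exact pow_mem (pow_mem (IntermediateField.mem_adjoin_simple_self (F p) x) _) _
  have hfr : Module.finrank (F p)
      (Subalgebra.toSubmodule (IntermediateField.adjoin (F p) {x}).toSubalgebra) = d :=
    IntermediateField.adjoin.finrank hint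
  have hfin' : FiniteDimensional (F p)
      (Subalgebra.toSubmodule (IntermediateField.adjoin (F p) {x}).toSubalgebra) := hfin
  have heq := Submodule.eq_of_le_of_finrank_eq hle (by
    rw [hfr, finrank_span_eq_card hli2, Fintype.card_fin])
  have hxm : x ∈ Submodule.span (F p) (Set.range (fun k : Fin d => (x ^ (k : ℕ)) ^ p)) := by
    rw [heq]
    exact IntermediateField.mem_adjoin_simple_self (F p) x
  obtain ⟨r, hr⟩ := (Submodule.mem_span_range_iff_exists_fun (F p)).1 hxm
  have h1 : ∑ k : Fin d, (∑ i : Fin p, tL p ^ (i : ℕ) * (S (r k) i : L p) ^ p) * (x ^ (k : ℕ)) ^ p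
      = x := by
    rw [← hr]
    refine Finset.sum_congr rfl fun k _ => ?_
    rw [← hS (r k)]
    simp only [hr]
    rfl
  rw [LaurentK_swap p (fun k i => (S (r k) i : L p)) (fun k => x ^ (k : ℕ))] at h1
  have h2 := LaurentK_unique p (h1.trans hx)
  rw [← h2]
  have hK : ∀ k : ℕ, x ^ k ∈ K p := fun k => pow_mem hc k
  exact sum_mem fun k _ => mul_mem ((K p).algebraMap_mem (S (r k) i)) (hK k)

end TF14
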