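import Pool.Agent.W_4ce76a_h14.LaurentH

set_option autoImplicit false
set_option linter.unusedSectionVars false

/-!
# MP_4ce76a_lc : `F_p((t))` is in the class, see `Laurent.lean` for the proofs
-/

namespace TF14

variable (p : ℕ) [Fact p.Prime]

theorem LaurentL_char : CharP (L p) p :=
  charP_of_injective_ringHom (HahnSeries.C_injective (Γ := ℤ) (R := ZMod p)) p

theorem LaurentL_low (x : L p) (a : ℤ) (hx : ∀ n < a, x.coeff n = 0) (m : ℤ)
    (hm : m < p * a) : (x ^ p).coeff m = 0 := by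
  have hp : p.Prime := Fact.out
  by_cases h0 : x = 0
  · rw [h0, zero_pow hp.ne_zero]
    rfl
  · refine HahnSeries.coeff_eq_zero_of_lt_order (lt_of_lt_of_le hm ?_)
    rw [HahnSeries.order_pow, nsmul_eq_mul]
    exact mul_le_mul_of_nonneg_left ((HahnSeries.le_order_iff_forall h0).2 hx)
      (by exact_mod_cast hp.pos.le)

theorem LaurentL_main (k : ℕ) : ∀ (x : L p) (a : ℤ), (∀ n < a, x.coeff n = 0) → ∀ m : ℤ,
    m < p * (a + k) → (x ^ p).coeff m = if (p : ℤ) ∣ m then x.coeff (m / p) else 0 := by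
  have hp : p.Prime := Fact.out
  have hp0 : (0 : ℤ) < p := by exact_mod_cast hp.pos
  have := LaurentL_char p
  induction k with
  | zero =>
    intro x a hx m hm
    rw [Nat.cast_zero, add_zero] at hm
    rw [LaurentL_low p x a hx m hm]
    split_ifs with h1
    · obtain ⟨m', rfl⟩ := h1
      rw [Int.mul_ediv_cancel_left _ hp0.ne']
      exact (hx m' (lt_of_mul_lt_mul_left hm hp0.le)).symm
    · rfl
  | succ k ih =>
    intro x a hx m hm
    set y : L p := x - HahnSeries.single a (x.coeff a) with hy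
    have hxy : x = HahnSeries.single a (x.coeff a) + y := by rw [hy]; ring
    have hy1 : ∀ n, n ≠ a → y.coeff n = x.coeff n := by
      intro n hn
      rw [hy, HahnSeries.coeff_sub, HahnSeries.coeff_single_of_ne hn, sub_zero]
    have hy2 : y.coeff a = 0 := by
      rw [hy, HahnSeries.coeff_sub, HahnSeries.coeff_single_same, sub_self]
    have hy3 : ∀ n < a + 1, y.coeff n = 0 := by
      intro n hn
      rcases lt_or_eq_of_le (Int.lt_add_one_iff.1 hn) with h1 | h1
      · rw [hy1 n h1.ne]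
        exact hx n h1
      · rw [h1]
        exact hy2
    have h1 := ih y (a + 1) hy3 m (by push_cast at hm; rwa [add_assoc, add_comm (1 : ℤ)])
    have h2 : (x ^ p).coeff m =
        (HahnSeries.single (p • a) (x.coeff a) : L p).coeff m + (y ^ p).coeff m := by
      conv_lhs => rw [hxy]
      rw [add_pow_char, HahnSeries.single_pow, ZMod.pow_card, HahnSeries.coeff_add]
    rw [h2, h1]
    have h3 : (p • a : ℤ) = p * a := by simp
    rw [h3]
    by_cases hma : m = p * a
    · rw [hma, HahnSeries.coeff_single_same, if_pos (dvd_mul_right _ _),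
        if_pos (dvd_mul_right _ _), Int.mul_ediv_cancel_left _ hp0.ne', hy2, add_zero]
    · rw [HahnSeries.coeff_single_of_ne hma, zero_add]
      split_ifs with h4
      · obtain ⟨m', rfl⟩ := h4
        rw [Int.mul_ediv_cancel_left _ hp0.ne', hy1]
        rintro rfl
        exact hma rfl
      · rfl

theorem LaurentL_coeff (x : L p) (m : ℤ) :
    (x ^ p).coeff m = if (p : ℤ) ∣ m then x.coeff (m / p) else 0 := by
  have hp : p.Prime := Fact.out
  have hp0 : (0 : ℤ) < p := by exact_mod_cast hp.pos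
  refine LaurentL_main p ((m - x.order).toNat + (x.order).toNat + (-x.order).toNat + 1
    + m.toNat) x x.order
    (fun n hn => HahnSeries.coeff_eq_zero_of_lt_order hn) m ?_
  have h1 : (1 : ℤ) ≤ p := hp0
  set o := x.order
  have h2 : m < o + (((m - o).toNat + o.toNat + (-o).toNat + 1 + m.toNat : ℕ) : ℤ) := by
    push_cast
    omega
  have h3 : 0 ≤ o + (((m - o).toNat + o.toNat + (-o).toNat + 1 + m.toNat : ℕ) : ℤ) := by
    push_cast
    omega
  exact lt_of_lt_of_le h2 (le_mul_of_one_le_left h3 h1)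

theorem frob_coeff (x : L p) (n : ℤ) : (x ^ p).coeff (p * n) = x.coeff n := by
  have hp : p.Prime := Fact.out
  have hp0 : (0 : ℤ) < p := by exact_mod_cast hp.pos
  rw [LaurentL_coeff, if_pos (dvd_mul_right _ _), Int.mul_ediv_cancel_left _ hp0.ne']

theorem frob_coeff_zero (x : L p) (n : ℤ) (hn : ¬ (p : ℤ) ∣ n) : (x ^ p).coeff n = 0 := by
  rw [LaurentL_coeff, if_neg hn]

theorem LaurentL_tpow (i : ℕ) : tL p ^ i = HahnSeries.single (i : ℤ) 1 := by
  rw [tL, HahnSeries.single_pow, one_pow]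
  simp

theorem LaurentL_sum (c : Fin p → L p) (k : ℤ) (i : Fin p) :
    (∑ j : Fin p, tL p ^ (j : ℕ) * c j ^ p).coeff (p * k + (i : ℕ)) = (c i).coeff k := by
  have h1 : (∑ j : Fin p, tL p ^ (j : ℕ) * c j ^ p).coeff (p * k + (i : ℕ)) =
      ∑ j : Fin p, (tL p ^ (j : ℕ) * c j ^ p).coeff (p * k + (i : ℕ)) := by
    rw [HahnSeries.coeff_sum]
  rw [h1, Finset.sum_eq_single i]
  · rw [LaurentL_tpow, HahnSeries.coeff_single_mul, one_mul, add_sub_cancel_right, frob_coeff]
  · intro j _ hj
    rw [LaurentL_tpow, HahnSeries.coeff_single_mul, one_mul]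
    refine frob_coeff_zero p _ _ ?_
    rintro ⟨d, hd⟩
    refine hj (Fin.ext ?_)
    have h2 : ((i : ℕ) : ℤ) - ((j : ℕ) : ℤ) = p * (d - k) := by linarith
    have h3 : (p : ℤ) ∣ ((i : ℕ) : ℤ) - ((j : ℕ) : ℤ) := ⟨_, h2⟩
    have h4 := Int.eq_zero_of_abs_lt_dvd h3 (by
      have hi := i.2
      have hj := j.2
      rw [abs_lt]
      constructor <;> omega)
    omega
  · intro h2
    exact absurd (Finset.mem_univ _) h2

theorem LaurentL_comp (x : L p) (i : ℕ) :
    BddBelow (Function.support (fun k : ℤ => x.coeff (p * k + i))) := by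
  have hp : p.Prime := Fact.out
  have hp0 : (1 : ℤ) ≤ p := by exact_mod_cast hp.pos
  refine ⟨-(|x.order| + i), fun k hk => ?_⟩
  rw [Function.mem_support] at hk
  have h1 := HahnSeries.order_le_of_coeff_ne_zero hk
  by_contra h2
  push Not at h2
  have h3 : 0 ≤ |x.order| := abs_nonneg _
  have h4 : -|x.order| ≤ x.order := neg_abs_le _
  have h5 : (p : ℤ) * k ≤ k := by
    have h6 : k ≤ 0 := by
      have : (0 : ℤ) ≤ i := Int.natCast_nonneg _
      linarith
    nlinarith
  linarith

theorem rep_L (x : L p) : ∃! c : Fin p → L p, x = ∑ i : Fin p, tL p ^ (i : ℕ) * c i ^ p := by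
  have hp : p.Prime := Fact.out
  have hp0 : (0 : ℤ) < p := by exact_mod_cast hp.pos
  refine ⟨fun i => HahnSeries.ofSuppBddBelow (fun k : ℤ => x.coeff (p * k + ((i : ℕ) : ℤ)))
    (LaurentL_comp p x i), ?_, ?_⟩
  · ext n
    have h1 : n % p < p := Int.emod_lt_of_pos _ hp0
    have h2 : 0 ≤ n % p := Int.emod_nonneg _ hp0.ne'
    obtain ⟨r, hr⟩ := Int.eq_ofNat_of_zero_le h2
    have h3 : r < p := by
      rw [hr] at h1
      exact_mod_cast h1
    have h4 : n = p * (n / p) + r := by
      have h5 := Int.mul_ediv_add_emod n p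
      rw [hr] at h5
      exact h5.symm
    have h5 := LaurentL_sum p (fun i => HahnSeries.ofSuppBddBelow
      (fun k : ℤ => x.coeff (p * k + ((i : ℕ) : ℤ))) (LaurentL_comp p x i)) (n / p) ⟨r, h3⟩
    simp only [HahnSeries.coeff_ofSuppBddBelow] at h5
    rw [← h4] at h5
    exact h5.symm
  · intro c hc
    funext i
    ext k
    have h5 := LaurentL_sum p c k i
    rw [← hc] at h5
    rw [HahnSeries.coeff_ofSuppBddBelow]
    exact h5.symm

theorem LaurentL_mem (x : L p) : x ∈ OL p ↔ ∀ n < 0, x.coeff n = 0 := by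
  constructor
  · rintro ⟨f, rfl⟩ n hn
    rw [PowerSeries.coeff_coe, if_pos hn]
  · intro h
    refine ⟨PowerSeries.mk fun n => x.coeff n, ?_⟩
    ext n
    rw [PowerSeries.coeff_coe]
    split_ifs with h1
    · exact (h n h1).symm
    · rw [PowerSeries.coeff_mk, Int.natAbs_of_nonneg (not_lt.1 h1)]

theorem int_L (c : Fin p → L p) (hc : (∑ i : Fin p, tL p ^ (i : ℕ) * c i ^ p) ∈ OL p) (i : Fin p) :
    c i ∈ OL p := by
  have hp : p.Prime := Fact.out
  have hp0 : (0 : ℤ) < p := by exact_mod_cast hp.pos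
  rw [LaurentL_mem] at hc ⊢
  intro n hn
  rw [← LaurentL_sum p c n i]
  refine hc _ ?_
  have h1 : (((i : ℕ) : ℤ)) < p := by exact_mod_cast i.2
  have h2 : n ≤ -1 := by omega
  nlinarith

theorem ta_L : TA p (L p) (OL p) (tL p) where
  char := LaurentL_char p
  hens := hens_OL p
  t_mem := by
    rw [LaurentL_mem]
    intro n hn
    rw [tL, HahnSeries.coeff_single_of_ne (by omega)]
  t_inv := by
    rw [LaurentL_mem]
    intro h
    have h1 : (tL p)⁻¹ = HahnSeries.single (-1) 1 := by
      refine inv_eq_of_mul_eq_one_right ?_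
      rw [tL, HahnSeries.single_mul_single]
      simp
    have h2 := h (-1) (by norm_num)
    rw [h1, HahnSeries.coeff_single_same] at h2
    exact one_ne_zero h2
  rep := rep_L p
  int := fun c hc i => int_L p c hc i

end TF14
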