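import Pool.Agent.W_4ce76a_h14.Lam

set_option autoImplicit false
set_option linter.unusedSectionVars false

/-!
# MP_4ce76a_lc : continuation of `LamField.lean`, see there for the proofs
-/

namespace TF14

open IntermediateField

variable {p : ℕ} {M N : Type} [Field M] [Field N] [Algebra M N] {O : ValuationSubring M}
  {O' : ValuationSubring N} {t : M} {t' : N} {k : ℕ}

theorem lin_pow (hp : p.Prime) (h' : TA p N O' t') (E : IntermediateField M N)
    (hE : ∀ c : Fin p → N, (∑ i : Fin p, t' ^ (i : ℕ) * c i ^ p) ∈ E → ∀ i, c i ∈ E)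
    (s : Finset N) (hs : LinearIndepOn E id (s : Set N)) :
    LinearIndepOn E (fun y => y ^ p) (s : Set N) := by
  have : CharP N p := h'.char
  have : Fact p.Prime := ⟨hp⟩
  rw [linearIndepOn_finset_iff] at hs ⊢
  intro g hg
  have h1 : ∀ y : N, ∃ c : Fin p → N, ((g y : E) : N) = ∑ i : Fin p, t' ^ (i : ℕ) * c i ^ p :=
    fun y => (h'.rep _).exists
  choose c hc using h1
  have h2 : ∀ y i, c y i ∈ E := by
    intro y
    apply hE
    rw [← hc y]
    exact (g y).2
  have h3 : (fun i : Fin p => ∑ y ∈ s, c y i * y) = fun _ => 0 := by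
    refine (h'.rep 0).unique ?_ ?_
    · have h4 : ∀ i : Fin p, t' ^ (i : ℕ) * (∑ y ∈ s, c y i * y) ^ p =
          ∑ y ∈ s, t' ^ (i : ℕ) * c y i ^ p * y ^ p := by
        intro i
        rw [sum_pow_char, Finset.mul_sum]
        refine Finset.sum_congr rfl fun y _ => ?_
        rw [mul_pow, mul_assoc]
      simp only [h4]
      rw [Finset.sum_comm, ← hg]
      refine Finset.sum_congr rfl fun y _ => ?_
      rw [← Finset.sum_mul, ← hc y]
      rfl
    · simp [hp.ne_zero]
  intro y hy
  have h5 : ∀ i : Fin p, c y i = 0 := by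
    intro i
    have h6 := hs (fun y => ⟨c y i, h2 y i⟩) (by
      have h7 := congrFun h3 i
      rw [← h7]
      exact Finset.sum_congr rfl fun y _ => rfl) y hy
    exact congrArg Subtype.val h6
  have h8 : ((g y : E) : N) = 0 := by
    rw [hc y]
    refine Finset.sum_eq_zero fun i _ => ?_
    rw [h5 i, zero_pow hp.ne_zero, mul_zero]
  exact Subtype.ext h8

end TF14
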