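import Pool.Agent.W_4ce76a_h14.GenUltra
import Pool.Agent.W_4ce76a_h14.UltraTF
import Pool.Agent.W_4ce76a_h14.WitB

set_option autoImplicit false
set_option linter.unusedSectionVars false

/-!
# MP_4ce76a_lc : a formula preserved by embeddings is equivalent to a formula without ball quantifiers

`Imp p φ ψ`: `ψ` (which has one more variable, the last one, for `t`) implies `φ`.

* `lt_step1`: let `A` be the type of the `ψ` with `Ex ψ` and `Imp p φ ψ`.  For every list `s` of elements of `A` the disjunction of the members of `s` (for the empty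
  list: `nzr 0`) is in `A` and is not equivalent to `φ`, so there are `N_s, O_s, t_s, a_s` with `TF`, `Sat φ a_s` and no member of `s` holds.  Take the
  ultraproduct for the ultrafilter on `List A` from `exists_ultra` (`tf_ultra`, `los`).
* `lt_step2`: the elements of `D` are pairs of a literal `l` in the variables `Fin n` and a tuple `c : Fin n → N`.  Let `w : Fin k → N` be a list of elements of `N` which
  contains all entries of the tuples in `D`, all `a i`, and `t` (choose a finite set and enumerate it); for every tuple `c` in `D` choose `r` with `w ∘ r = c`.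
  By `exists_fm` there is `ψ : Fm (n + 1)` without ball quantifiers which says: there are `y : Fin k → N'` with the literals `l.ren (Sum.inr ∘ r)` of `D`,
  `y (index of t) = x (Fin.last n)` and `y (index of a i) = x (Fin.castSucc i)`.  It holds in `N` at `Fin.snoc a t` (`y = w`), so not `Imp p φ ψ`.  This gives `N', O', t', a'`, `y`.
  Put `v (w j) = y j` (choose `w` injective) and `v = 0` outside the range of `w`.
* `lt_step3`: `I = List {q // q.2.1.Holds O q.2.2}`, `U` from `exists_ultra`, `N_D, v_D` from `lt_step2`, ultraproduct `N'`, `f x = umk (fun D => v_D x)`.  It is a ring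
  homomorphism because of the literals `X 0 + X 1 - X 2`, `X 0 * X 1 - X 2`, `X 0 - 1`, `X 0` (all `zer`); `f x ∈ O' ↔ x ∈ O` because of `int (X 0)` and `nin (X 0)`;
  `Pre` because of the literals `all k χ` and `allO_los`.  `los` for the last property.
* `ex_of_up`: otherwise `lt_step1` and `lt_step3` contradict `UP`.
-/

namespace TF14

open Filter

/-- `ψ` implies `φ` in all fields of the class. -/
def Imp (p : ℕ) {n : ℕ} (φ : Fm n) (ψ : Fm (n + 1)) : Prop :=
  ∀ (N : Type) [Field N] (O : ValuationSubring N) (t : N), TF p N O t →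
    ∀ a : Fin n → N, Sat O ψ (Fin.snoc a t : Fin _ → N) → Sat O φ a

/-- `ψ` is equivalent to `φ` in all fields of the class. -/
def Eqv (p : ℕ) {n : ℕ} (φ : Fm n) (ψ : Fm (n + 1)) : Prop :=
  ∀ (N : Type) [Field N] (O : ValuationSubring N) (t : N), TF p N O t →
    ∀ a : Fin n → N, Sat O φ a ↔ Sat O ψ (Fin.snoc a t : Fin _ → N)

variable {p n : ℕ} {φ : Fm n}

/-- the disjunction of a list of formulas -/
private noncomputable def LosTarski_disj {m : ℕ} : List (Fm m) → Fm m
  | [] => .nzr 0
  | ψ :: s => .or ψ (LosTarski_disj s)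

private theorem LosTarski_ex {m : ℕ} : ∀ s : List (Fm m), (∀ ψ ∈ s, Ex ψ) →
    Ex (LosTarski_disj s) := by
  intro s
  induction s with
  | nil => intro _; exact trivial
  | cons ψ s ih =>
    intro h
    exact ⟨h ψ List.mem_cons_self, ih fun χ hχ => h χ (List.mem_cons_of_mem _ hχ)⟩

private theorem LosTarski_sat {m : ℕ} {N : Type} [Field N] (O : ValuationSubring N)
    (v : Fin m → N) : ∀ s : List (Fm m), Sat O (LosTarski_disj s) v ↔ ∃ ψ ∈ s, Sat O ψ v := by
  intro s
  induction s with
  | nil =>
    constructor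
    · intro h
      have h1 : MvPolynomial.aeval v (0 : MvPolynomial (Fin m) ℤ) ≠ 0 := h
      rw [map_zero] at h1
      exact absurd rfl h1
    · rintro ⟨ψ, h, -⟩
      simp at h
  | cons ψ s ih =>
    constructor
    · rintro (h | h)
      · exact ⟨ψ, List.mem_cons_self, h⟩
      · obtain ⟨χ, h1, h2⟩ := ih.1 h
        exact ⟨χ, List.mem_cons_of_mem _ h1, h2⟩
    · rintro ⟨χ, h1, h2⟩
      rcases List.mem_cons.1 h1 with rfl | h1
      · exact Or.inl h2
      · exact Or.inr (ih.2 ⟨χ, h1, h2⟩)

theorem lt_step1 (hp : p.Prime) (hno : ¬ ∃ ψ : Fm (n + 1), Ex ψ ∧ Eqv p φ ψ) :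
    ∃ (N : Type) (_ : Field N) (O : ValuationSubring N) (t : N) (a : Fin n → N), TF p N O t ∧
      Sat O φ a ∧
      ∀ ψ : Fm (n + 1), Ex ψ → Imp p φ ψ → ¬ Sat O ψ (Fin.snoc a t : Fin _ → N) := by
  classical
  let A : Type := {ψ : Fm (n + 1) // Ex ψ ∧ Imp p φ ψ}
  have hex : ∀ s : List A, ∃ (N : Type) (_ : Field N) (O : ValuationSubring N) (t : N)
      (a : Fin n → N), TF p N O t ∧ Sat O φ a ∧
      ∀ ψ ∈ s, ¬ Sat O ψ.1 (Fin.snoc a t : Fin _ → N) := by
    intro s
    by_contra hcon
    apply hno
    refine ⟨LosTarski_disj (s.map fun ψ => ψ.1), LosTarski_ex _ ?_, ?_⟩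
    · intro ψ hψ
      obtain ⟨χ, -, rfl⟩ := List.mem_map.1 hψ
      exact χ.2.1
    · intro N _ O t hTF a
      constructor
      · intro hφ
        by_contra h1
        apply hcon
        refine ⟨N, inferInstance, O, t, a, hTF, hφ, fun ψ hψ h2 => h1 ?_⟩
        exact (LosTarski_sat O _ _).2 ⟨ψ.1, List.mem_map_of_mem hψ, h2⟩
      · intro h1
        obtain ⟨ψ, hψ, h2⟩ := (LosTarski_sat O _ _).1 h1
        obtain ⟨χ, -, rfl⟩ := List.mem_map.1 hψ
        exact χ.2.2 N O t hTF a h2
  choose N hN O t a h1 h2 h3 using hex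
  obtain ⟨U, hU⟩ := exists_ultra A
  refine ⟨UF N U, inferInstance, uO N U O, umk N U t, fun k => umk N U fun s => a s k,
    tf_ultra N U hp O t h1, ?_, ?_⟩
  · rw [los]
    exact Eventually.of_forall h2
  · intro ψ hψ1 hψ2 hsat
    have hsn : (Fin.snoc (fun k => umk N U fun s => a s k) (umk N U t) : Fin (n + 1) → UF N U) =
        fun k => umk N U fun s => (Fin.snoc (a s) (t s) : Fin (n + 1) → N s) k := by
      funext k
      refine Fin.lastCases ?_ (fun k => ?_) k
      · simp only [Fin.snoc_last]
      · simp only [Fin.snoc_castSucc]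
    rw [hsn, los] at hsat
    obtain ⟨s, hs1, hs2⟩ := (hsat.and (hU ⟨ψ, hψ1, hψ2⟩)).exists
    exact h3 s _ hs2 hs1

end TF14
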