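import Pool.Agent.W_4ce76a_h14.Syn

set_option autoImplicit false
set_option linter.unusedSectionVars false

/-!
# MP_4ce76a_lc : MacLane

`exists_sep`: apply `exists_isTranscendenceBasis_and_isSeparable_of_linearIndepOn_pow_of_essFiniteType` (Mathlib, `FieldTheory/SeparablyGenerated`) to the extension
`IntermediateField.adjoin E (Set.range y)` of `E` (its hypothesis `H` for finite subsets of this field follows from `H` here by the inclusion into `N`);
map the transcendence basis and the separability to `N`.
-/

namespace TF14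

open IntermediateField

theorem macL_isSep {F1 F2 K N : Type} [Field F1] [Field F2] [Field K] [Field N] [Algebra F1 K]
    [Algebra F2 N] (f : K →+* N) (i : F1 →+* F2)
    (h : f.comp (algebraMap F1 K) = (algebraMap F2 N).comp i) {x : K} (hx : IsSeparable F1 x) :
    IsSeparable F2 (f x) := by
  unfold IsSeparable at *
  refine (hx.map (f := i)).of_dvd (minpoly.dvd _ _ ?_)
  rw [Polynomial.aeval_def, Polynomial.eval₂_map, ← h, ← Polynomial.hom_eval₂,
    ← Polynomial.aeval_def, minpoly.aeval, map_zero]

theorem macL_map {E K N : Type} [Field E] [Field K] [Field N] [Algebra E K] [Algebra E N]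
    (v : K →ₐ[E] N) (A : IntermediateField E K) {x : K} (hx : IsSeparable A x) :
    IsSeparable (A.map v) (v x) :=
  macL_isSep v.toRingHom (A.equivMap v).toAlgHom.toRingHom (RingHom.ext fun _ => rfl) hx

theorem macL_H {p : ℕ} {E K N : Type} [Field E] [Field K] [Field N] [Algebra E K] [Algebra E N]
    (v : K →ₐ[E] N)
    (H : ∀ s : Finset N, LinearIndepOn E id (s : Set N) → LinearIndepOn E (fun y => y ^ p) (s : Set N))
    (s : Finset K) (hs : LinearIndepOn E id (s : Set K)) :
    LinearIndepOn E (fun y => y ^ p) (s : Set K) := by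
  have hv : Function.Injective v := v.toRingHom.injective
  have h1 := H (s.map ⟨v, hv⟩) (by
    rw [linearIndepOn_finset_iff] at hs ⊢
    intro g hg i hi
    rw [Finset.mem_map] at hi
    obtain ⟨x, hx, rfl⟩ := hi
    rw [Finset.sum_map] at hg
    refine hs (fun x => g (v x)) (hv ?_) x hx
    rw [map_sum, map_zero, ← hg]
    refine Finset.sum_congr rfl fun y _ => ?_
    rw [map_smul]
    rfl)
  rw [linearIndepOn_finset_iff] at h1 ⊢
  intro g hg x hx
  have h2 := h1 (Function.extend v g 0) (by
    rw [Finset.sum_map]
    have h3 := congrArg v hg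
    rw [map_sum, map_zero] at h3
    rw [← h3]
    refine Finset.sum_congr rfl fun y _ => ?_
    simp only [Function.Embedding.coeFn_mk, hv.extend_apply, map_smul, map_pow]) (v x)
    (Finset.mem_map.2 ⟨x, hx, rfl⟩)
  rwa [hv.extend_apply] at h2

theorem exists_sep {p : ℕ} (hp : p.Prime) {E N : Type} [Field E] [Field N] [Algebra E N] [CharP N p]
    (H : ∀ s : Finset N, LinearIndepOn E id (s : Set N) → LinearIndepOn E (fun y => y ^ p) (s : Set N))
    {r : ℕ} (y : Fin r → N) :
    ∃ (l : ℕ) (s : Fin l → N), AlgebraicIndependent E s ∧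
      ∀ j, IsSeparable (IntermediateField.adjoin E (Set.range s)) (y j) := by
  obtain ⟨K, hK⟩ : ∃ K : IntermediateField E N, K = IntermediateField.adjoin E (Set.range y) :=
    ⟨_, rfl⟩
  have h1 : Algebra.EssFiniteType E K := by
    rw [IntermediateField.essFiniteType_iff, hK]
    exact IntermediateField.fg_adjoin_of_finite (Set.finite_range y)
  have h0 : CharP E p := (algebraMap E N).charP (RingHom.injective _) p
  have h00 : ExpChar E p := ExpChar.prime hp
  obtain ⟨s, hs1, hs2⟩ := exists_isTranscendenceBasis_and_isSeparable_of_linearIndepOn_pow_of_essFiniteType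
    p hp (macL_H K.val H)
  have hmem : ∀ j, y j ∈ K := fun j => by
    rw [hK]
    exact IntermediateField.subset_adjoin _ _ ⟨j, rfl⟩
  have hrange : Set.range (fun i : Fin s.card => (((s.equivFin.symm i : s) : K) : N)) =
      K.val '' (s : Set K) := by
    ext z
    constructor
    · rintro ⟨i, rfl⟩
      exact ⟨_, (s.equivFin.symm i).2, rfl⟩
    · rintro ⟨x, hx, rfl⟩
      exact ⟨s.equivFin ⟨x, hx⟩, by simp⟩
  refine ⟨s.card, fun i => (((s.equivFin.symm i : s) : K) : N), ?_, fun j => ?_⟩
  · have h2 : AlgebraicIndependent E (fun i : Fin s.card => ((s.equivFin.symm i : s) : K)) :=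
      hs1.1.comp s.equivFin.symm s.equivFin.symm.injective
    exact (h2.map' (f := K.val) K.val.toRingHom.injective)
  · have h3 : IsSeparable (adjoin E (s : Set K)) (⟨y j, hmem j⟩ : K) := hs2.isSeparable' _
    have h4 : IsSeparable ((adjoin E (s : Set K)).map K.val) (K.val ⟨y j, hmem j⟩) :=
      macL_map K.val _ h3
    have h5 : (adjoin E (s : Set K)).map K.val =
      adjoin E (Set.range (fun i : Fin s.card => (((s.equivFin.symm i : s) : K) : N))) := by
      rw [hrange, IntermediateField.adjoin_map]
    have h6 : K.val ⟨y j, hmem j⟩ = y j := rfl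
    rw [h6] at h4
    exact h5 ▸ h4

end TF14
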