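import Pool.Agent.W_4ce76a_h14.LTC
import Pool.Agent.W_4ce76a_h14.BallN
import Pool.Agent.W_4ce76a_h14.ExDown
import Pool.Agent.W_4ce76a_h14.GenUB

set_option autoImplicit false
set_option linter.unusedSectionVars false

/-!
# MP_4ce76a_lc : all formulas are preserved by embeddings
-/

namespace TF14

variable {p : ℕ}

private theorem Main_snoc_append {N : Type} {k n : ℕ} (x : Fin k → N) (a : Fin n → N) (t : N) :
    (Fin.snoc (Fin.append x a) t : Fin (k + n + 1) → N) =
      (Fin.append x (Fin.snoc a t : Fin (n + 1) → N) : Fin (k + (n + 1)) → N) := by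
  funext i
  refine Fin.lastCases ?_ (fun i => ?_) i
  · rw [Fin.snoc_last]
    have h1 : (Fin.last (k + n) : Fin (k + n + 1)) = Fin.natAdd k (Fin.last n) := rfl
    rw [h1]
    exact (by rw [Fin.append_right, Fin.snoc_last] :
      t = Fin.append x (Fin.snoc a t : Fin (n + 1) → N) (Fin.natAdd k (Fin.last n)))
  · rw [Fin.snoc_castSucc]
    refine Fin.addCases (fun j => ?_) (fun j => ?_) i
    · rw [Fin.append_left]
      exact (by rw [Fin.append_left] :
        x j = Fin.append x (Fin.snoc a t : Fin (n + 1) → N) (Fin.castAdd (n + 1) j))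
    · rw [Fin.append_right]
      exact (by rw [Fin.append_right, Fin.snoc_castSucc] :
        a j = Fin.append x (Fin.snoc a t : Fin (n + 1) → N) (Fin.natAdd k (Fin.castSucc j)))

private theorem Main_append {M M' : Type} {k n : ℕ} (g : M → M') (z : Fin k → M)
    (a : Fin n → M) : (Fin.append (fun j => g (z j)) (fun s => g (a s)) : Fin (k + n) → M') =
      fun x => g (Fin.append z a x) := by
  funext x
  refine Fin.addCases (fun j => ?_) (fun j => ?_) x
  · rw [Fin.append_left, Fin.append_left]
  · rw [Fin.append_right, Fin.append_right]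

/-- PROOF. Let `(z, e)` be the ball in `N`.  `exists_generic` gives `I`, `U`, `x`; `W = UF (fun _ : I => N') U`, `tf_ultra`, `j = (umap N' U).comp f`, `X i = umk (f (x s i))`.
All `x s` are in the ball, so `Sat O ψ (append (x s) a)`, so `Sat O' ψ (append (f (x s)) (f a))` (`up_of_ex`), so `ψ` holds in `W` at `append X (j a)` (`los`).  With
`j.toAlgebra` as algebra structure, `lamt m X` is algebraically independent over `N`.  `ball_generic` and `los_umap`. -/
theorem up_ball_ex (hp : p.Prime) {n : ℕ} (k : ℕ) (ψ : Fm (k + n)) (hψ : Ex ψ) :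
    UP p (Fm.ball k ψ) := by
  intro M M' _ _ O O' t t' hM hM' f hf _ a hS
  obtain ⟨z, e, he, hball⟩ := hS
  obtain ⟨I, U, x, hx, hgen⟩ := exists_generic (k := k) hp hM.toTA hM'.toTA f hf z he
  have hW := tf_ultra (fun _ : I => M') U hp (fun _ => O') (fun _ => t') (fun _ => hM')
  have h1 : ∀ s, Sat O ψ (Fin.append (x s) a) := by
    intro s
    choose u hu1 hu2 using hx s
    have h2 := hball u hu1
    have h3 : (fun i => z i + e * u i) = x s := by
      funext i
      rw [← hu2 i]
      ring
    rwa [h3] at h2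
  have h2 : ∀ s, Sat O' ψ (fun q => f (Fin.append (x s) a q)) := by
    intro s
    exact up_of_ex ψ hψ M M' O O' t t' hM hM' f hf ‹_› _ (h1 s)
  have h3 := (los (fun _ : I => M') U (fun _ => O') ψ (fun q s => f (Fin.append (x s) a q))).2
    (Filter.Eventually.of_forall fun s => h2 s)
  letI alg : Algebra M (UF (fun _ : I => M') U) := ((umap (I := I) M' U).comp f).toAlgebra
  have hEmb : Emb O (uO (fun _ : I => M') U fun _ => O') t (umk (fun _ : I => M') U fun _ => t')
      (algebraMap M (UF (fun _ : I => M') U)) := by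
    have h4 := emb_umap (I := I) M' U O' t'
    refine ⟨?_, fun y => ?_⟩
    · show umap M' U (f t) = _
      rw [hf.1]
      exact h4.1
    · show umap M' U (f y) ∈ _ ↔ _
      rw [h4.2, hf.2]
  have h5 : (fun q => umk (fun _ : I => M') U fun s => f (Fin.append (x s) a q)) =
      Fin.append (fun i => umk (fun _ : I => M') U fun s => f (x s i))
        (fun i => algebraMap M (UF (fun _ : I => M') U) (a i)) := by
    funext q
    refine Fin.addCases (fun j => ?_) (fun j => ?_) q
    · rw [Fin.append_left]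
      congr 1
      funext s
      rw [Fin.append_left]
    · rw [Fin.append_right]
      show _ = umap M' U (f (a j))
      show _ = umk (fun _ : I => M') U fun _ => f (a j)
      congr 1
      funext s
      rw [Fin.append_right]
  rw [h5] at h3
  have h6 := ball_generic hp hM.toTA hW hEmb k ψ hψ a
    (fun i => umk (fun _ : I => M') U fun s => f (x s i)) (by
      intro m
      rw [algebraicIndependent_iff]
      intro H hH
      by_contra hne
      exact hgen hW.toTA m H hne hH) h3
  exact (los_umap (I := I) M' U O' (Fm.ball k ψ) (fun i => f (a i))).1 h6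

/-- PROOF. `ex_of_up` for `φ` gives `ψ : Fm (k + n + 1) = Fm (k + (n + 1))`; `Fin.snoc (Fin.append x a) t = Fin.append x (Fin.snoc a t)` (`Fin.append_snoc`), so `ball k φ` at `a` is
equivalent to `ball k ψ` at `Fin.snoc a t` in all fields of the class; `up_ball_ex`. -/
theorem up_ball (hp : p.Prime) {n : ℕ} (k : ℕ) {φ : Fm (k + n)} (h : UP p φ) :
    UP p (Fm.ball k φ) := by
  obtain ⟨ψ, hψ, hE⟩ := ex_of_up hp h
  intro M M' _ _ O O' t t' hM hM' f hf hpre a hS
  obtain ⟨z, e, he, hball⟩ := hS
  have h1 : Sat O (Fm.ball (n := n + 1) k (ψ : Fm (k + (n + 1))))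
      (Fin.snoc a t : Fin (n + 1) → M) := by
    refine ⟨z, e, he, fun u hu => ?_⟩
    have h2 := (hE M O t hM _).1 (hball u hu)
    rw [Main_snoc_append] at h2
    exact h2
  have h3 := up_ball_ex hp (n := n + 1) k ψ hψ M M' O O' t t' hM hM' f hf hpre _ h1
  obtain ⟨z', e', he', hball'⟩ := h3
  refine ⟨z', e', he', fun u hu => ?_⟩
  rw [hE M' O' t' hM', Main_snoc_append]
  have h4 := hball' u hu
  have h5 : (fun i => f ((Fin.snoc a t : Fin (n + 1) → M) i)) =
      (Fin.snoc (fun i => f (a i)) t' : Fin (n + 1) → M') := by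
    funext i
    refine Fin.lastCases ?_ (fun i => ?_) i
    · rw [Fin.snoc_last, Fin.snoc_last]
      exact hf.1
    · rw [Fin.snoc_castSucc, Fin.snoc_castSucc]
  rw [h5] at h4
  exact h4

theorem up_every (hp : p.Prime) {n : ℕ} (φ : Fm n) : UP p φ := by
  induction φ with
  | zer f => exact up_zer p f
  | nzr f => exact up_nzr p f
  | int f => exact up_int p f
  | nin f => exact up_nin p f
  | all k χ => exact up_all' p χ
  | and φ ψ h1 h2 => exact up_and h1 h2
  | or φ ψ h1 h2 => exact up_or h1 h2
  | ex φ h => exact up_ex h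
  | ball k φ h => exact up_ball hp k h

theorem ex_every (hp : p.Prime) {n : ℕ} (φ : Fm n) : ∃ ψ : Fm (n + 1), Ex ψ ∧ Eqv p φ ψ :=
  ex_of_up hp (up_every hp φ)

theorem elem (hp : p.Prime) {M N : Type} [Field M] [Field N] [Algebra M N] {O : ValuationSubring M}
    {O' : ValuationSubring N} {t : M} {t' : N} (h : TF p M O t) (h' : TF p N O' t')
    (hf : Emb O O' t t' (algebraMap M N)) (hpre : Pre O O' (algebraMap M N))
    (hclosed : ∀ y : N, IsAlgebraic M y → y ∈ Set.range (algebraMap M N))
    (hdense : ∀ y e : N, e ≠ 0 → ∃ z : M, Cl O' e (algebraMap M N z) y)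
    {n : ℕ} (φ : Fm n) (a : Fin n → M) :
    Sat O φ a ↔ Sat O' φ (fun i => algebraMap M N (a i)) := by
  refine ⟨up_every hp φ M N O O' t t' h h' _ hf hpre a, fun h1 => ?_⟩
  obtain ⟨ψ, h2, h3⟩ := ex_every hp φ
  rw [h3 M O t h a]
  rw [h3 N O' t' h' _] at h1
  refine ex_down hp h.toTA h' hf hclosed hdense ψ h2 _ ?_
  convert! h1 using 1
  funext i
  refine Fin.lastCases ?_ (fun i => ?_) i
  · rw [Fin.snoc_last, Fin.snoc_last]
    exact hf.1
  · rw [Fin.snoc_castSucc, Fin.snoc_castSucc]

end TF14
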