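import Pool.Agent.W_4ce76a_h14.Laurent
import Pool.Agent.W_4ce76a_h14.ContB

set_option autoImplicit false
set_option linter.unusedSectionVars false

/-!
# MP_4ce76a_lc : `F_p((t))` satisfies `OpenAll`, by compactness of the ring of power series

* `seq_compact`: a sequence of tuples of power series over the finite field `ZMod p` has a subsequence which converges coefficientwise (the space `Fin k → ℕ → ZMod p` with the product of
  the discrete topologies is compact and first countable: `CompactSpace.tendsto_subseq`; or a diagonal argument), so that for every `m` almost all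
  members are `t ^ m`-close to the limit.
* `qm_open`: the set where `χ` holds is open (`cont_aeval`, as in `lits_open`).
* `qm_tendsto`: so if `χ` fails at all members of a convergent sequence it fails at the limit.
* `openAll_L`: otherwise for every `m` there are `b m`, `t ^ m`-close to `a`, and `w m ∈ O ^ k` such that `χ` fails at `(w m, b m)`.  Take a convergent subsequence of `w m`.  The limit `w` is
  in `O ^ k` and `χ` fails at `(w, a)`.
-/

namespace TF14

variable (p : ℕ) [Fact p.Prime]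

theorem OpenL_unit {e : L p} (he : e ≠ 0) : ∃ N : ℕ, ∀ g : PowerSeries (ZMod p),
    ∃ u ∈ OL p, ((PowerSeries.X ^ N * g : PowerSeries (ZMod p)) : LaurentSeries (ZMod p)) =
      e * u := by
  obtain ⟨o, P, hx⟩ : ∃ (o : ℤ) (P : PowerSeries (ZMod p)),
      (HahnSeries.single o 1 : L p) * (P : LaurentSeries (ZMod p)) = e⁻¹ :=
    ⟨_, _, LaurentSeries.single_order_mul_powerSeriesPart (e⁻¹ : L p)⟩
  obtain ⟨M, hM⟩ : ∃ M : ℕ, o + (o.natAbs : ℤ) = M := ⟨(o + (o.natAbs : ℤ)).toNat, by omega⟩
  refine ⟨o.natAbs, fun g => ?_⟩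
  refine ⟨e⁻¹ * ((PowerSeries.X ^ o.natAbs * g : PowerSeries (ZMod p)) :
    LaurentSeries (ZMod p)), ?_, ?_⟩
  · refine ⟨PowerSeries.X ^ M * (P * g), ?_⟩
    rw [← hx, PowerSeries.coe_mul, PowerSeries.coe_mul, PowerSeries.coe_mul,
      HahnSeries.ofPowerSeries_X_pow, HahnSeries.ofPowerSeries_X_pow, ← hM]
    have h1 : (HahnSeries.single (o + (o.natAbs : ℤ)) (1 : ZMod p) : L p) =
        HahnSeries.single o 1 * HahnSeries.single (o.natAbs : ℤ) 1 := by
      rw [HahnSeries.single_mul_single, mul_one]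
    rw [h1]
    ring
  · rw [mul_inv_cancel_left₀ he]

theorem OpenL_dvd {N : ℕ} {f g : PowerSeries (ZMod p)}
    (h : ∀ n < N, PowerSeries.coeff n f = PowerSeries.coeff n g) :
    ∃ q : PowerSeries (ZMod p), f - g = PowerSeries.X ^ N * q := by
  obtain ⟨q, hq⟩ := (PowerSeries.X_pow_dvd_iff (n := N) (φ := f - g)).2 (fun n hn => by
    rw [map_sub, h n hn, sub_self])
  exact ⟨q, hq⟩

theorem seq_compact {k : ℕ} (w : ℕ → Fin k → L p) (hw : ∀ m i, w m i ∈ OL p) :
    ∃ (r : ℕ → ℕ) (v : Fin k → L p), StrictMono r ∧ (∀ i, v i ∈ OL p) ∧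
      ∀ e : L p, e ≠ 0 → ∃ m0 : ℕ, ∀ m ≥ m0, ∀ i, Cl (OL p) e (w (r m) i) (v i) := by
  choose f hf using hw
  -- a convergent subsequence of the coefficients
  obtain ⟨a, r, hr, hlim⟩ := CompactSpace.tendsto_subseq
    (fun m => (fun i n => PowerSeries.coeff n (f m i) : Fin k → ℕ → ZMod p))
  refine ⟨r, fun i => ((PowerSeries.mk (a i) : PowerSeries (ZMod p)) : LaurentSeries (ZMod p)),
    hr, fun i => ⟨_, rfl⟩, fun e he => ?_⟩
  obtain ⟨N, hN⟩ := OpenL_unit p he
  have hev : ∀ i : Fin k, ∀ n : ℕ, ∀ᶠ m in Filter.atTop,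
      PowerSeries.coeff n (f (r m) i) = a i n := by
    intro i n
    have h1 : Filter.Tendsto (fun m => PowerSeries.coeff n (f (r m) i)) Filter.atTop
        (nhds (a i n)) := by
      have h2 := (tendsto_pi_nhds.1 hlim i)
      exact tendsto_pi_nhds.1 h2 n
    rw [nhds_discrete, Filter.tendsto_pure] at h1
    exact h1
  have hall : ∀ᶠ m in Filter.atTop, ∀ i : Fin k, ∀ n ∈ Finset.range N,
      PowerSeries.coeff n (f (r m) i) = a i n := by
    rw [Filter.eventually_all]
    intro i
    rw [Filter.eventually_all_finset]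
    intro n _
    exact hev i n
  obtain ⟨m0, hm0⟩ := Filter.eventually_atTop.1 hall
  refine ⟨m0, fun m hm i => ?_⟩
  obtain ⟨q, hq⟩ := OpenL_dvd p (N := N) (f := f (r m) i) (g := PowerSeries.mk (a i))
    (fun n hn => by rw [PowerSeries.coeff_mk]; exact hm0 m hm i n (Finset.mem_range.2 hn))
  obtain ⟨u, hu, huq⟩ := hN q
  refine ⟨u, hu, ?_⟩
  rw [← huq, ← hq, PowerSeries.coe_sub, hf]

end TF14
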