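import Pool.Agent.W_4ce76a_h14.Final

set_option autoImplicit false
set_option linter.unusedSectionVars false

/-!
# MP_4ce76a_lc : the classes of formulas as classes of uniformly defined relations

A formula with `l` variables for balls and field variables in `σ` is identified with the relation which it defines in all fields with a valuation ring.
-/

namespace TF14

open MvPolynomial

/-- Relations between `l` sets and elements indexed by `σ`, one in every field `N` with a valuation ring `O`. -/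
def Rel (l : ℕ) (σ : Type) : Type 1 :=
  ∀ (N : Type) [Field N], ValuationSubring N → (Fin l → Set N) → (σ → N) → Prop

/-- Positive Boolean combinations of open conditions. -/
inductive QForm {l : ℕ} {σ : Type} : Rel l σ → Prop
  | nzr (f : MvPolynomial σ ℤ) : QForm fun _ _ _ _ v => aeval v f ≠ 0
  | int (f : MvPolynomial σ ℤ) : QForm fun _ _ O _ v => aeval v f ∈ O
  | nin (f : MvPolynomial σ ℤ) : QForm fun _ _ O _ v => aeval v f ∉ O
  | mem (j : Fin l) (f : MvPolynomial σ ℤ) : QForm fun _ _ _ B v => aeval v f ∈ B j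
  | nmem (j : Fin l) (f : MvPolynomial σ ℤ) : QForm fun _ _ _ B v => aeval v f ∉ B j
  | and {R S : Rel l σ} : QForm R → QForm S → QForm fun N _ O B v => R N O B v ∧ S N O B v
  | or {R S : Rel l σ} : QForm R → QForm S → QForm fun N _ O B v => R N O B v ∨ S N O B v

/-- The class of positive formulas. -/
inductive GForm : {l n : ℕ} → Rel l (Fin n) → Prop
  | zer {l n : ℕ} (f : MvPolynomial (Fin n) ℤ) :
      GForm (l := l) (n := n) fun _ _ _ _ a => aeval a f = 0
  | nzr {l n : ℕ} (f : MvPolynomial (Fin n) ℤ) :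
      GForm (l := l) (n := n) fun _ _ _ _ a => aeval a f ≠ 0
  | int {l n : ℕ} (f : MvPolynomial (Fin n) ℤ) :
      GForm (l := l) (n := n) fun _ _ O _ a => aeval a f ∈ O
  | nin {l n : ℕ} (f : MvPolynomial (Fin n) ℤ) :
      GForm (l := l) (n := n) fun _ _ O _ a => aeval a f ∉ O
  | mem {l n : ℕ} (j : Fin l) (f : MvPolynomial (Fin n) ℤ) :
      GForm (l := l) (n := n) fun _ _ _ B a => aeval a f ∈ B j
  | nmem {l n : ℕ} (j : Fin l) (f : MvPolynomial (Fin n) ℤ) :
      GForm (l := l) (n := n) fun _ _ _ B a => aeval a f ∉ B j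
  | and {l n : ℕ} {R S : Rel l (Fin n)} : GForm R → GForm S →
      GForm (l := l) (n := n) fun N _ O B a => R N O B a ∧ S N O B a
  | or {l n : ℕ} {R S : Rel l (Fin n)} : GForm R → GForm S →
      GForm (l := l) (n := n) fun N _ O B a => R N O B a ∨ S N O B a
  | all {l n k : ℕ} {R : Rel l (Fin k ⊕ Fin n)} : QForm R →
      GForm (l := l) (n := n) fun N _ O B a =>
        ∀ w : Fin k → N, (∀ i, w i ∈ O) → R N O B (Sum.elim w a)
  | ex {l n : ℕ} {R : Rel l (Fin (n + 1))} : GForm R →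
      GForm (l := l) (n := n) fun N _ O B a => ∃ x : N, R N O B (Fin.snoc a x : Fin (n + 1) → N)
  | exB {l n : ℕ} {R : Rel (l + 1) (Fin n)} : GForm R →
      GForm (l := l) (n := n) fun N _ O B a =>
        ∃ b : Set N, IsBl O b ∧ R N O (Fin.snoc B b : Fin (l + 1) → Set N) a
  | ball {l n k : ℕ} {R : Rel l (Fin (k + n))} : GForm R →
      GForm (l := l) (n := n) fun N _ O B a => ∃ (z : Fin k → N) (e : N), e ≠ 0 ∧
        ∀ u : Fin k → N, (∀ i, u i ∈ O) → R N O B (Fin.append (fun i => z i + e * u i) a)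

/-- Boolean combinations of such formulas with quantifiers over balls. -/
inductive BForm : {l n : ℕ} → Rel l (Fin n) → Prop
  | of {l n : ℕ} {R : Rel l (Fin n)} : GForm R → BForm R
  | not {l n : ℕ} {R : Rel l (Fin n)} : BForm R →
      BForm (l := l) (n := n) fun N _ O B a => ¬ R N O B a
  | and {l n : ℕ} {R S : Rel l (Fin n)} : BForm R → BForm S →
      BForm (l := l) (n := n) fun N _ O B a => R N O B a ∧ S N O B a
  | allB {l n : ℕ} {R : Rel (l + 1) (Fin n)} : BForm R →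
      BForm (l := l) (n := n) fun N _ O B a =>
        ∀ b : Set N, IsBl O b → R N O (Fin.snoc B b : Fin (l + 1) → Set N) a

theorem QForm.exists_qb {l : ℕ} {σ : Type} {R : Rel l σ} (h : QForm R) :
    ∃ χ : Qb l σ, ∀ (N : Type) [Field N] (O : ValuationSubring N) (B : Fin l → Set N) (v : σ → N),
      R N O B v ↔ χ.Holds O B v := by
  induction h with
  | nzr f => exact ⟨.nzr f, fun _ _ _ _ _ => Iff.rfl⟩
  | int f => exact ⟨.int f, fun _ _ _ _ _ => Iff.rfl⟩
  | nin f => exact ⟨.nin f, fun _ _ _ _ _ => Iff.rfl⟩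
  | mem j f => exact ⟨.mem j f, fun _ _ _ _ _ => Iff.rfl⟩
  | nmem j f => exact ⟨.nmem j f, fun _ _ _ _ _ => Iff.rfl⟩
  | and _ _ h1 h2 =>
    obtain ⟨χ1, h1⟩ := h1
    obtain ⟨χ2, h2⟩ := h2
    exact ⟨.and χ1 χ2, fun N _ O B v => and_congr (h1 N O B v) (h2 N O B v)⟩
  | or _ _ h1 h2 =>
    obtain ⟨χ1, h1⟩ := h1
    obtain ⟨χ2, h2⟩ := h2
    exact ⟨.or χ1 χ2, fun N _ O B v => or_congr (h1 N O B v) (h2 N O B v)⟩

theorem GForm.exists_gm {l n : ℕ} {R : Rel l (Fin n)} (h : GForm R) :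
    ∃ φ : Gm l n, ∀ (N : Type) [Field N] (O : ValuationSubring N) (B : Fin l → Set N)
      (a : Fin n → N), R N O B a ↔ SatG O φ B a := by
  induction h with
  | zer f => exact ⟨.zer f, fun _ _ _ _ _ => Iff.rfl⟩
  | nzr f => exact ⟨.nzr f, fun _ _ _ _ _ => Iff.rfl⟩
  | int f => exact ⟨.int f, fun _ _ _ _ _ => Iff.rfl⟩
  | nin f => exact ⟨.nin f, fun _ _ _ _ _ => Iff.rfl⟩
  | mem j f => exact ⟨.mem j f, fun _ _ _ _ _ => Iff.rfl⟩
  | nmem j f => exact ⟨.nmem j f, fun _ _ _ _ _ => Iff.rfl⟩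
  | and _ _ h1 h2 =>
    obtain ⟨χ1, h1⟩ := h1
    obtain ⟨χ2, h2⟩ := h2
    exact ⟨.and χ1 χ2, fun N _ O B v => and_congr (h1 N O B v) (h2 N O B v)⟩
  | or _ _ h1 h2 =>
    obtain ⟨χ1, h1⟩ := h1
    obtain ⟨χ2, h2⟩ := h2
    exact ⟨.or χ1 χ2, fun N _ O B v => or_congr (h1 N O B v) (h2 N O B v)⟩
  | @all l n k R hR =>
    obtain ⟨χ, hχ⟩ := hR.exists_qb
    exact ⟨.all k χ, fun N _ O B a => forall_congr' fun w => imp_congr_right fun _ => hχ N O B _⟩
  | ex _ h1 =>
    obtain ⟨χ, hχ⟩ := h1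
    exact ⟨.ex χ, fun N _ O B a => exists_congr fun x => hχ N O B _⟩
  | exB _ h1 =>
    obtain ⟨χ, hχ⟩ := h1
    exact ⟨.exB χ, fun N _ O B a => exists_congr fun b => and_congr_right fun _ => hχ N O _ a⟩
  | @ball l n k R _ h1 =>
    obtain ⟨χ, hχ⟩ := h1
    exact ⟨.ball k χ, fun N _ O B a => exists_congr fun z => exists_congr fun e =>
      and_congr_right fun _ => forall_congr' fun u => imp_congr_right fun _ => hχ N O B _⟩

theorem BForm.exists_bm {l n : ℕ} {R : Rel l (Fin n)} (h : BForm R) :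
    ∃ φ : Bm l n, ∀ (N : Type) [Field N] (O : ValuationSubring N) (B : Fin l → Set N)
      (a : Fin n → N), R N O B a ↔ SatB O φ B a := by
  induction h with
  | of h =>
    obtain ⟨χ, hχ⟩ := h.exists_gm
    exact ⟨.at χ, hχ⟩
  | not _ h1 =>
    obtain ⟨χ, hχ⟩ := h1
    exact ⟨.not χ, fun N _ O B a => not_congr (hχ N O B a)⟩
  | and _ _ h1 h2 =>
    obtain ⟨χ1, h1⟩ := h1
    obtain ⟨χ2, h2⟩ := h2
    exact ⟨.and χ1 χ2, fun N _ O B v => and_congr (h1 N O B v) (h2 N O B v)⟩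
  | allB _ h1 =>
    obtain ⟨χ, hχ⟩ := h1
    exact ⟨.allB χ, fun N _ O B a => forall_congr' fun b => imp_congr_right fun _ => hχ N O _ a⟩

theorem elem_rel (p : ℕ) [Fact p.Prime] {l n : ℕ} {R : Rel l (Fin n)} (h : BForm R)
    (z c : Fin l → K p) (hc : ∀ j, c j ≠ 0) (a : Fin n → K p) :
    R (K p) (OK p) (fun j => bl (OK p) (z j) (c j)) a ↔
      R (L p) (OL p) (fun j => bl (OL p) (z j : L p) (c j : L p)) (fun i => (a i : L p)) := by
  obtain ⟨φ, hφ⟩ := h.exists_bm
  rw [hφ (K p), hφ (L p)]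
  exact (final p).1 l n φ z c hc a

/-- The relative algebraic closure of `F_p(t)` in `F_p((t))`, as a subfield. -/
noncomputable def Kh (p : ℕ) [Fact p.Prime] : Subfield (L p) := (K p).toSubfield

/-- `F_p(t)^h` -/
def Kt (p : ℕ) [Fact p.Prime] : Type := Kh p

noncomputable instance instFieldKt (p : ℕ) [Fact p.Prime] : Field (Kt p) := (Kh p).toField

/-- The inclusion of `F_p(t)^h` in `F_p((t))`. -/
noncomputable def inc (p : ℕ) [Fact p.Prime] : Kt p →+* L p := (Kh p).subtype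

/-- The valuation ring of `F_p(t)^h`. -/
noncomputable def OKt (p : ℕ) [Fact p.Prime] : ValuationSubring (Kt p) := (OL p).comap (inc p)

theorem elem_kt (p : ℕ) [Fact p.Prime] {l n : ℕ} {R : Rel l (Fin n)} (h : BForm R)
    (z c : Fin l → Kt p) (hc : ∀ j, c j ≠ 0) (a : Fin n → Kt p) :
    R (Kt p) (OKt p) (fun j => bl (OKt p) (z j) (c j)) a ↔
      R (L p) (OL p) (fun j => bl (OL p) (inc p (z j)) (inc p (c j))) (fun i => inc p (a i)) :=
  elem_rel p h (z : Fin l → K p) (c : Fin l → K p) hc (a : Fin n → K p)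

end TF14
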