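import Pool.Agent.W_4ce76a_h14.HensB
import Pool.Agent.W_4ce76a_h14.ContB

set_option autoImplicit false
set_option linter.unusedSectionVars false

/-!
# MP_4ce76a_lc : continuity of simple roots

`root_cont`: choose `s ≠ 0` with `s θ ∈ O`, and `r ≠ 0` such that `r c s⁻¹ ^ i ∈ O` for all `i ≤ n` and all `c` which are `1`-close to the coefficients
of `G`.  For `H = r G (X / s)` (coefficients `r s⁻¹ ^ i G.coeff i`, in `O`), `H (s θ) = 0`, `H' (s θ) = r G'(θ) / s =: d ≠ 0`.  If the coefficients of `G'` are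
close enough to those of `G`, then the corresponding `H'` has coefficients in `O`, `H'(s θ)` is small and the derivative has the valuation of `d`
(`poly_cont`).  `newton` gives a root `η` of `H'` with `v (η - s θ) = v (H' (s θ)) / v d`; `θ' = η / s`.
-/

namespace TF14

variable {N : Type} [Field N] {O : ValuationSubring N}

theorem rootCont_lip (f : Polynomial N) (hf : ∀ i, f.coeff i ∈ O) {a b : N} (ha : a ∈ O)
    (hb : b ∈ O) : ∃ u ∈ O, f.eval b - f.eval a = (b - a) * u := by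
  have h1 : f ∈ Polynomial.lifts O.subtype := by
    rw [Polynomial.lifts_iff_coeff_lifts]
    intro i
    exact ⟨⟨_, hf i⟩, rfl⟩
  rw [Polynomial.mem_lifts] at h1
  obtain ⟨g, rfl⟩ := h1
  obtain ⟨c, hc⟩ := Polynomial.sub_dvd_eval_sub (⟨b, hb⟩ : O) ⟨a, ha⟩ g
  refine ⟨c, c.2, ?_⟩
  have h2 := congrArg O.subtype hc
  rw [map_sub, map_mul, map_sub, ← Polynomial.eval₂_at_apply, ← Polynomial.eval₂_at_apply] at h2
  rw [Polynomial.eval_map, Polynomial.eval_map]
  exact h2

theorem rootCont_scale {ι : Type} [Finite ι] (a : ι → N) :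
    ∃ r : N, r ≠ 0 ∧ ∀ i, r * a i ∈ O := by
  classical
  obtain ⟨d, hd, h⟩ := exists_all (O := O) (fun i => if a i = 0 then 1 else (a i)⁻¹) (fun i => by
    by_cases ha : a i = 0
    · simp [ha]
    · simp [ha])
  refine ⟨d, hd, fun i => ?_⟩
  by_cases ha : a i = 0
  · rw [ha, mul_zero]
    exact O.zero_mem
  · have h1 := h i d 0 ⟨1, O.one_mem, by ring⟩
    simp only [ha, if_false] at h1
    obtain ⟨u, hu, h2⟩ := h1
    rw [sub_zero] at h2
    have h3 : d * a i = u := by
      rw [h2]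
      field_simp
    rw [h3]
    exact hu

theorem root_cont (hO : HenselianLocalRing O) (hO' : ∃ x : N, x ≠ 0 ∧ O.valuation x < 1)
    (G : Polynomial N) (n : ℕ) (hn : G.natDegree ≤ n) {θ : N} (h : G.eval θ = 0)
    (h' : G.derivative.eval θ ≠ 0) {e : N} (he : e ≠ 0) :
    ∃ d : N, d ≠ 0 ∧ ∀ G' : Polynomial N, G'.natDegree ≤ n →
      (∀ i, Cl O d (G'.coeff i) (G.coeff i)) →
      ∃ θ' : N, G'.eval θ' = 0 ∧ G'.derivative.eval θ' ≠ 0 ∧ Cl O e θ' θ := by
  obtain ⟨x0, hx0, hx1⟩ := hO'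
  obtain ⟨s, hs0, hs⟩ : ∃ s : N, s ≠ 0 ∧ s * θ ∈ O := by
    by_cases hθ : θ = 0
    · exact ⟨1, one_ne_zero, by rw [hθ, mul_zero]; exact O.zero_mem⟩
    · rcases O.mem_or_inv_mem θ with h1 | h1
      · exact ⟨1, one_ne_zero, by rwa [one_mul]⟩
      · exact ⟨θ⁻¹, inv_ne_zero hθ, by rw [inv_mul_cancel₀ hθ]; exact O.one_mem⟩
  obtain ⟨r, hr0, hr⟩ := rootCont_scale (O := O)
    (Sum.elim (fun i : Fin (n + 1) => G.coeff i * s⁻¹ ^ (i : ℕ)) (fun i : Fin (n + 1) => s⁻¹ ^ (i : ℕ)))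
  obtain ⟨g1, hg1⟩ : ∃ g1 : N, g1 = G.derivative.eval θ := ⟨_, rfl⟩
  have hg10 : g1 ≠ 0 := hg1 ▸ h'
  obtain ⟨d0, hd0⟩ : ∃ d0 : N, d0 = r * s⁻¹ * g1 := ⟨_, rfl⟩
  have hd00 : d0 ≠ 0 := hd0 ▸ mul_ne_zero (mul_ne_zero hr0 (inv_ne_zero hs0)) hg10
  have hr1 : r⁻¹ ≠ 0 := inv_ne_zero hr0
  obtain ⟨e1, he1, h11, h12⟩ := exists_both (O := O) (e := e * s * d0 * r⁻¹)
    (e' := x0 * d0 ^ 2 * r⁻¹) (mul_ne_zero (mul_ne_zero (mul_ne_zero he hs0) hd00) hr1)
    (mul_ne_zero (mul_ne_zero hx0 (pow_ne_zero _ hd00)) hr1)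
  obtain ⟨d1, hd1, h1⟩ := poly_cont (O := O) G θ n he1
  obtain ⟨d2, hd2, h2⟩ := poly_cont (O := O) G.derivative θ n (mul_ne_zero hx0 hg10)
  obtain ⟨d3, hd3, h31, h32⟩ := exists_both (O := O) hd1 hd2
  obtain ⟨d, hd, h41, h42⟩ := exists_both (O := O) hd3 (one_ne_zero (α := N))
  refine ⟨d, hd, fun G' hn' hc => ?_⟩
  have hv0 : O.valuation d0 ≠ 0 := (Valuation.ne_zero_iff _).2 hd00
  have hvr : O.valuation r ≠ 0 := (Valuation.ne_zero_iff _).2 hr0
  have hvs : O.valuation s ≠ 0 := (Valuation.ne_zero_iff _).2 hs0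
  have h5 : Cl O e1 (G'.eval θ) 0 := by
    rw [← h]
    exact h1 G' θ hn' (fun i => h31 _ _ (h41 _ _ (hc i))) (cl_refl _ _)
  have h51 := (cl_iff (mul_ne_zero (mul_ne_zero (mul_ne_zero he hs0) hd00) hr1)).1 (h11 _ _ h5)
  have h52 := (cl_iff (mul_ne_zero (mul_ne_zero hx0 (pow_ne_zero 2 hd00)) hr1)).1 (h12 _ _ h5)
  rw [sub_zero] at h51 h52
  have h6 : Cl O (x0 * g1) (G'.derivative.eval θ) g1 := by
    rw [hg1] at h2 ⊢
    refine h2 G'.derivative θ ((Polynomial.natDegree_derivative_le _).trans (by omega)) (fun i => ?_)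
      (cl_refl _ _)
    obtain ⟨u, hu, hu2⟩ := h32 _ _ (h41 _ _ (hc (i + 1)))
    refine ⟨u * ((i + 1 : ℕ) : N), O.mul_mem _ _ hu (natCast_mem O _), ?_⟩
    rw [Polynomial.coeff_derivative, Polynomial.coeff_derivative, ← sub_mul, hu2]
    push_cast
    ring
  have h7 : O.valuation (G'.derivative.eval θ) = O.valuation g1 := by
    refine Valuation.map_eq_of_sub_lt _ ?_
    refine ((cl_iff (mul_ne_zero hx0 hg10)).1 h6).trans_lt ?_
    rw [map_mul]
    have hvg : 0 < O.valuation g1 := zero_lt_iff.2 ((Valuation.ne_zero_iff _).2 hg10)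
    calc O.valuation x0 * O.valuation g1 < 1 * O.valuation g1 := by gcongr
      _ = O.valuation g1 := one_mul _
  obtain ⟨H, hH⟩ : ∃ H : Polynomial N,
    H = Polynomial.C r * G'.comp (Polynomial.C s⁻¹ * Polynomial.X) := ⟨_, rfl⟩
  have hHO : ∀ i, H.coeff i ∈ O := by
    intro i
    rw [hH, Polynomial.coeff_C_mul, Polynomial.comp_C_mul_X_coeff]
    by_cases hi : i ≤ n
    · obtain ⟨u, hu, hu2⟩ := h42 _ _ (hc i)
      have h8 := hr (Sum.inl ⟨i, Nat.lt_succ_of_le hi⟩)
      have h9 := hr (Sum.inr ⟨i, Nat.lt_succ_of_le hi⟩)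
      simp only [Sum.elim_inl, Sum.elim_inr] at h8 h9
      have h10 : r * (G'.coeff i * s⁻¹ ^ i) = r * (G.coeff i * s⁻¹ ^ i) + (r * s⁻¹ ^ i) * u := by
        rw [one_mul] at hu2
        rw [sub_eq_iff_eq_add.1 hu2]
        ring
      rw [h10]
      exact O.add_mem _ _ h8 (O.mul_mem _ _ h9 hu)
    · rw [Polynomial.coeff_eq_zero_of_natDegree_lt (by omega), zero_mul, mul_zero]
      exact O.zero_mem
  have hev : ∀ x, H.eval x = r * G'.eval (s⁻¹ * x) := by
    intro x
    rw [hH, Polynomial.eval_mul, Polynomial.eval_C, Polynomial.eval_comp, Polynomial.eval_mul,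
      Polynomial.eval_C, Polynomial.eval_X]
  have hdev : ∀ x, H.derivative.eval x = r * s⁻¹ * G'.derivative.eval (s⁻¹ * x) := by
    intro x
    rw [hH, Polynomial.derivative_C_mul, Polynomial.derivative_comp, Polynomial.derivative_C_mul,
      Polynomial.derivative_X, mul_one, Polynomial.eval_mul, Polynomial.eval_mul,
      Polynomial.eval_C, Polynomial.eval_C, Polynomial.eval_comp, Polynomial.eval_mul,
      Polynomial.eval_C, Polynomial.eval_X, mul_assoc]
  have hsθ : s⁻¹ * (s * θ) = θ := by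
    rw [← mul_assoc, inv_mul_cancel₀ hs0, one_mul]
  have hD : O.valuation (H.derivative.eval (s * θ)) = O.valuation d0 := by
    rw [hdev, hsθ, map_mul, h7, hd0, ← map_mul]
  have hV : O.valuation (H.eval (s * θ)) = O.valuation r * O.valuation (G'.eval θ) := by
    rw [hev, hsθ, map_mul]
  have hlt : O.valuation (H.eval (s * θ)) < O.valuation (H.derivative.eval (s * θ)) ^ 2 := by
    rw [hD, hV]
    have hv2 : 0 < O.valuation d0 ^ 2 := zero_lt_iff.2 (pow_ne_zero _ hv0)
    calc O.valuation r * O.valuation (G'.eval θ)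
        ≤ O.valuation r * O.valuation (x0 * d0 ^ 2 * r⁻¹) := by gcongr
      _ = O.valuation (x0 * d0 ^ 2) := by
          rw [← map_mul]
          congr 1
          field_simp
      _ = O.valuation x0 * O.valuation d0 ^ 2 := by rw [map_mul, map_pow]
      _ < 1 * O.valuation d0 ^ 2 := by gcongr
      _ = O.valuation d0 ^ 2 := one_mul _
  obtain ⟨b, hb, hb0, hb1, hb2⟩ := newton hO H hHO hs hlt
  rw [hD] at hb1 hb2
  rw [hV] at hb2
  refine ⟨s⁻¹ * b, ?_, ?_, ?_⟩
  · rw [hev] at hb0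
    exact (mul_eq_zero.1 hb0).resolve_left hr0
  · intro h8
    obtain ⟨u, hu, hu2⟩ := rootCont_lip H.derivative (fun i => by
      rw [Polynomial.coeff_derivative]
      have := natCast_mem O (i + 1)
      push_cast at this
      exact O.mul_mem _ _ (hHO _) this) hs hb
    have h9 : H.derivative.eval b = 0 := by rw [hdev, h8, mul_zero]
    rw [h9, zero_sub] at hu2
    have h10 : O.valuation d0 = O.valuation (b - s * θ) * O.valuation u := by
      rw [← hD, ← map_mul, ← hu2, Valuation.map_neg]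
    have h11 : O.valuation u ≤ 1 := (O.valuation_le_one_iff u).2 hu
    have h12 : O.valuation d0 ≤ O.valuation (b - s * θ) := by
      rw [h10]
      exact mul_le_of_le_one_right' h11
    exact absurd hb1 (not_lt.2 h12)
  · rw [cl_iff he]
    have h8 : s⁻¹ * b - θ = s⁻¹ * (b - s * θ) := by
      rw [mul_sub, hsθ]
    rw [h8, map_mul]
    have h9 : O.valuation d0 * O.valuation (b - s * θ) ≤
        O.valuation d0 * (O.valuation e * O.valuation s) := by
      rw [← hb2]
      calc O.valuation r * O.valuation (G'.eval θ)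
          ≤ O.valuation r * O.valuation (e * s * d0 * r⁻¹) := by gcongr
        _ = O.valuation (e * s * d0) := by
            rw [← map_mul]
            congr 1
            field_simp
        _ = O.valuation d0 * (O.valuation e * O.valuation s) := by
            rw [map_mul, map_mul, mul_comm]
    have h10 : O.valuation (b - s * θ) ≤ O.valuation e * O.valuation s :=
      (mul_le_mul_iff_right₀ (zero_lt_iff.2 hv0)).1 h9
    calc O.valuation s⁻¹ * O.valuation (b - s * θ)
        ≤ O.valuation s⁻¹ * (O.valuation e * O.valuation s) := by gcongr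
      _ = O.valuation e := by
          rw [map_inv₀, mul_comm, mul_assoc, mul_inv_cancel₀ hvs, mul_one]

end TF14
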