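import Pool.Agent.W_4ce76a_h14.MacL
import Pool.Agent.W_4ce76a_h14.LamField
import Pool.Agent.W_4ce76a_h14.LinPow

set_option autoImplicit false
set_option linter.unusedSectionVars false

/-!
# MP_4ce76a_lc : descent to a finite level

`sep_level`: `E = EE M hp h' x` is the union of the increasing fields `Em m`.  By `exists_sep` (with `lin_pow`, `EE_closed`) there is `s : Fin l → N`, algebraically
independent over `E`, with all `y j` separable over `adjoin E (Set.range s)`.  The finitely many coefficients of the minimal polynomials of the `y j` over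
`adjoin E (Set.range s)` are in `adjoin (Em m) (Set.range s)` for some `m` (the union of these fields over `m` is a field).  So `y j` is separable over
`adjoin M (Set.range (Sum.elim (lamt m x) s))` (which is the same subfield of `N`): it is a root of a separable polynomial over it (`Polynomial.separable_map`).
`Sum.elim (lamt m x) s` is algebraically independent over `M`, because `lamt m x` is so over `M` and `s` is so over `E`, which contains `lamt m x`.

`sep_base`: `exists_sep` for `E = M`; the hypothesis: as in `lin_pow`, or apply `lin_pow` to `E = ⊥` (the components of elements of `M` are in `M`: `h.rep` for `M` and uniqueness in `N`).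
-/

namespace TF14

open IntermediateField

variable {p : ℕ} {M N : Type} [Field M] [Field N] [Algebra M N] {O : ValuationSubring M}
  {O' : ValuationSubring N} {t : M} {t' : N} {k : ℕ}

/-- separability only depends on the coefficients of a separable polynomial -/
theorem SepLev_isSep (D : IntermediateField M N) {F : Type} [Field F] [Algebra F N] (y : N)
    (hs : IsSeparable F y) (hD : ∀ i, algebraMap F N ((minpoly F y).coeff i) ∈ D) :
    IsSeparable D y := by
  have h1 : (minpoly F y).map (algebraMap F N) ∈ Polynomial.lifts (algebraMap D N) := by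
    rw [Polynomial.lifts_iff_coeff_lifts]
    intro i
    rw [Polynomial.coeff_map]
    exact ⟨⟨_, hD i⟩, rfl⟩
  obtain ⟨g, hg⟩ := (Polynomial.mem_lifts _).1 h1
  have h2 : g.Separable := by
    rw [← Polynomial.separable_map (algebraMap D N), hg, Polynomial.separable_map]
    exact hs
  have h3 : Polynomial.aeval y g = 0 := by
    rw [Polynomial.aeval_def, ← Polynomial.eval_map, hg, Polynomial.eval_map, ← Polynomial.aeval_def,
      minpoly.aeval]
  exact h2.of_dvd (minpoly.dvd D y h3)

theorem sep_level (hp : p.Prime) (h : TA p M O t) (h' : TA p N O' t')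
    (hf : Emb O O' t t' (algebraMap M N)) (x : Fin k → N)
    (hx : ∀ m, AlgebraicIndependent M (lamt hp h' m x)) {r : ℕ} (y : Fin r → N) :
    ∃ (m l : ℕ) (s : Fin l → N), AlgebraicIndependent M (Sum.elim (lamt hp h' m x) s) ∧
      ∀ j, IsSeparable (IntermediateField.adjoin M (Set.range (Sum.elim (lamt hp h' m x) s))) (y j) := by
  classical
  have : CharP N p := h'.char
  have hH : ∀ s : Finset N, LinearIndepOn (EE M hp h' x) id (s : Set N) →
      LinearIndepOn (EE M hp h' x) (fun y => y ^ p) (s : Set N) :=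
    lin_pow hp h' (EE M hp h' x) fun c hc i => EE_closed hp h h' hf x c hc i
  obtain ⟨l, s, hs, hsep⟩ := exists_sep hp (E := EE M hp h' x) hH y
  -- the fields of level `m`
  obtain ⟨D, hD⟩ : ∃ D : ℕ → IntermediateField M N,
    ∀ m, D m = adjoin M (Set.range (Sum.elim (lamt hp h' m x) s)) := ⟨_, fun _ => rfl⟩
  have hEm : ∀ m, Em M hp h' x m ≤ D m := by
    intro m
    rw [hD]
    unfold Em
    rw [adjoin_le_iff]
    rintro _ ⟨q, rfl⟩
    exact subset_adjoin M _ ⟨Sum.inl q, rfl⟩
  have hsD : ∀ m i, s i ∈ D m := by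
    intro m i
    rw [hD]
    exact subset_adjoin M _ ⟨Sum.inr i, rfl⟩
  have hmono : Monotone D := by
    intro m m' hmm
    rw [hD m, adjoin_le_iff]
    rintro _ ⟨q, rfl⟩
    rcases q with q | q
    · exact hEm m' (Em_mono hp h h' hf x hmm (subset_adjoin M _ ⟨q, rfl⟩))
    · exact hsD m' q
  have hmemU : ∀ z : N, z ∈ (⨆ m, D m) ↔ ∃ m, z ∈ D m := by
    intro z
    rw [← SetLike.mem_coe, coe_iSup_of_directed hmono.directed_le]
    simp only [Set.mem_iUnion, SetLike.mem_coe]
  have hEU : EE M hp h' x ≤ ⨆ m, D m := iSup_mono hEm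
  have hadj : ∀ z ∈ adjoin (EE M hp h' x) (Set.range s), ∃ m, z ∈ D m := by
    intro z hz
    have h1 : adjoin (EE M hp h' x) (Set.range s) ≤ extendScalars hEU := by
      rw [adjoin_le_iff]
      rintro _ ⟨i, rfl⟩
      exact (hmemU _).2 ⟨0, hsD 0 i⟩
    exact (hmemU z).1 (h1 hz)
  -- the level for every `y j`
  have hlev : ∀ j, ∃ m, ∀ i, algebraMap (adjoin (EE M hp h' x) (Set.range s)) N
      ((minpoly (adjoin (EE M hp h' x) (Set.range s)) (y j)).coeff i) ∈ D m := by
    intro j
    obtain ⟨g, hg⟩ : ∃ g, g = minpoly (adjoin (EE M hp h' x) (Set.range s)) (y j) := ⟨_, rfl⟩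
    rw [← hg]
    choose m hm using fun i : ℕ => hadj _ (g.coeff i).2
    refine ⟨(Finset.range (g.natDegree + 1)).sup m, fun i => ?_⟩
    by_cases hi : i ∈ Finset.range (g.natDegree + 1)
    · exact hmono (Finset.le_sup hi) (hm i)
    · rw [Finset.mem_range] at hi
      rw [Polynomial.coeff_eq_zero_of_natDegree_lt (by omega), map_zero]
      exact zero_mem _
  choose m hm using hlev
  obtain ⟨m0, hm0⟩ : ∃ m0, m0 = Finset.univ.sup m := ⟨_, rfl⟩
  refine ⟨m0, l, s, ?_, fun j => ?_⟩
  · have h1 : Set.range (lamt hp h' m0 x) ⊆ Set.range (algebraMap (EE M hp h' x) N) := by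
      rintro _ ⟨q, rfl⟩
      exact ⟨⟨_, (mem_EE hp h h' hf x _).2 ⟨m0, subset_adjoin M _ ⟨q, rfl⟩⟩⟩, rfl⟩
    have h2 := (hx m0).sumElim_of_tower h1 hs
    have h3 := h2.comp (Equiv.sumComm (Fin k × Fin (p ^ m0)) (Fin l)) (Equiv.injective _)
    have h4 : Sum.elim s (lamt hp h' m0 x) ∘ (Equiv.sumComm (Fin k × Fin (p ^ m0)) (Fin l)) =
        Sum.elim (lamt hp h' m0 x) s := by
      funext q
      rcases q with q | q <;> rfl
    rw [h4] at h3
    exact h3
  · rw [← hD m0]
    refine SepLev_isSep (D m0) (y j) (hsep j) fun i => ?_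
    refine hmono ?_ (hm j i)
    rw [hm0]
    exact Finset.le_sup (Finset.mem_univ j)

/-- the analogue over `M` itself -/
theorem sep_base (hp : p.Prime) (h : TA p M O t) (h' : TA p N O' t')
    (hf : Emb O O' t t' (algebraMap M N)) {r : ℕ} (y : Fin r → N) :
    ∃ (l : ℕ) (s : Fin l → N), AlgebraicIndependent M s ∧
      ∀ j, IsSeparable (IntermediateField.adjoin M (Set.range s)) (y j) := by
  classical
  have : CharP N p := h'.char
  have : Fact p.Prime := ⟨hp⟩
  refine exists_sep hp (fun s hs => ?_) y
  rw [linearIndepOn_finset_iff] at hs ⊢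
  intro g hg
  choose c hc _ using fun y : N => h.rep (g y)
  have h2 : (fun i : Fin p => ∑ y ∈ s, algebraMap M N (c y i) * y) = fun _ => 0 := by
    refine (h'.rep 0).unique ?_ ?_
    · have h4 : ∀ i : Fin p, t' ^ (i : ℕ) * (∑ y ∈ s, algebraMap M N (c y i) * y) ^ p =
          ∑ y ∈ s, t' ^ (i : ℕ) * algebraMap M N (c y i) ^ p * y ^ p := by
        intro i
        rw [sum_pow_char, Finset.mul_sum]
        refine Finset.sum_congr rfl fun y _ => ?_
        rw [mul_pow, mul_assoc]
      rw [Finset.sum_congr rfl fun i _ => h4 i, Finset.sum_comm, ← hg]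
      refine Finset.sum_congr rfl fun y _ => ?_
      rw [Algebra.smul_def, hc y, map_sum, Finset.sum_mul]
      refine Finset.sum_congr rfl fun i _ => ?_
      rw [map_mul, map_pow, map_pow, hf.1]
    · simp [hp.ne_zero]
  have h3 : ∀ i, ∀ y ∈ s, c y i = 0 := by
    intro i
    refine hs (fun y => c y i) ?_
    have h4 := congrFun h2 i
    rw [← h4]
    refine Finset.sum_congr rfl fun y _ => ?_
    rw [Algebra.smul_def]
    rfl
  intro y hy
  rw [hc y]
  refine Finset.sum_eq_zero fun i _ => ?_
  rw [h3 i y hy, zero_pow hp.ne_zero, mul_zero]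

end TF14
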