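import Mathlib

set_option autoImplicit false
set_option linter.unusedSectionVars false

/-!
# MP_4ce76a_lc : formulas with ball quantifiers, definitions

`Qm σ`: positive Boolean combinations of `f ≠ 0`, `f ∈ O`, `f ∉ O` (`f` a polynomial with integral coefficients in the variables `σ`, `O` the valuation ring).

`Fm n`: formulas in `n` variables, built from `f = 0`, `f ≠ 0`, `f ∈ O`, `f ∉ O` and the formulas `∀ w ∈ O ^ k, χ(w, x)` (`χ` in `Qm`)
by conjunction, disjunction, `∃ x` and the ball quantifier `there is a ball in the space of dimension k such that for all x in it`.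
`Ex φ`: no ball quantifier in `φ`.

`TF p N O t`: `N` is a field of characteristic `p`, `O` a henselian valuation ring of `N`, `t` is in the maximal ideal, `t ≠ 0`, every element of `N` is
`∑ i < p, t ^ i c_i ^ p` with unique coefficients, which are in `O` if the element is in `O`, and the formulas `∀ w ∈ O ^ k, χ(w, x)` define open sets.
-/

namespace TF14

/-- Positive Boolean combinations of open conditions. -/
inductive Qm (σ : Type) : Type
  | nzr (f : MvPolynomial σ ℤ) : Qm σ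
  | int (f : MvPolynomial σ ℤ) : Qm σ
  | nin (f : MvPolynomial σ ℤ) : Qm σ
  | and (φ ψ : Qm σ) : Qm σ
  | or (φ ψ : Qm σ) : Qm σ

/-- The condition `χ` holds at `v`. -/
def Qm.Holds {σ N : Type} [Field N] (O : ValuationSubring N) (v : σ → N) : Qm σ → Prop
  | .nzr f => MvPolynomial.aeval v f ≠ 0
  | .int f => MvPolynomial.aeval v f ∈ O
  | .nin f => MvPolynomial.aeval v f ∉ O
  | .and φ ψ => Qm.Holds O v φ ∧ Qm.Holds O v ψ
  | .or φ ψ => Qm.Holds O v φ ∨ Qm.Holds O v ψ

/-- The condition `χ` holds at `(w, v)` for all `w ∈ O ^ k`. -/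
def AllO {σ N : Type} [Field N] (O : ValuationSubring N) (v : σ → N) (k : ℕ)
    (χ : Qm (Fin k ⊕ σ)) : Prop :=
  ∀ w : Fin k → N, (∀ i, w i ∈ O) → χ.Holds O (Sum.elim w v)

/-- Formulas in `n` variables. -/
inductive Fm : ℕ → Type
  | zer {n : ℕ} (f : MvPolynomial (Fin n) ℤ) : Fm n
  | nzr {n : ℕ} (f : MvPolynomial (Fin n) ℤ) : Fm n
  | int {n : ℕ} (f : MvPolynomial (Fin n) ℤ) : Fm n
  | nin {n : ℕ} (f : MvPolynomial (Fin n) ℤ) : Fm n
  | all {n : ℕ} (k : ℕ) (χ : Qm (Fin k ⊕ Fin n)) : Fm n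
  | and {n : ℕ} (φ ψ : Fm n) : Fm n
  | or {n : ℕ} (φ ψ : Fm n) : Fm n
  | ex {n : ℕ} (φ : Fm (n + 1)) : Fm n
  | ball {n : ℕ} (k : ℕ) (φ : Fm (k + n)) : Fm n

/-- The formula `φ` holds in the field `N` with valuation ring `O` at `a`. -/
def Sat {N : Type} [Field N] (O : ValuationSubring N) : {n : ℕ} → Fm n → (Fin n → N) → Prop
  | _, .zer f, a => MvPolynomial.aeval a f = 0
  | _, .nzr f, a => MvPolynomial.aeval a f ≠ 0
  | _, .int f, a => MvPolynomial.aeval a f ∈ O
  | _, .nin f, a => MvPolynomial.aeval a f ∉ O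
  | _, .all k χ, a => AllO O a k χ
  | _, .and φ ψ, a => Sat O φ a ∧ Sat O ψ a
  | _, .or φ ψ, a => Sat O φ a ∨ Sat O ψ a
  | _, .ex φ, a => ∃ x : N, Sat O φ (Fin.snoc a x : Fin _ → N)
  | _, .ball k φ, a => ∃ (z : Fin k → N) (e : N), e ≠ 0 ∧
      ∀ u : Fin k → N, (∀ i, u i ∈ O) → Sat O φ (Fin.append (fun i => z i + e * u i) a)

/-- The formula has no ball quantifier. -/
def Ex : {n : ℕ} → Fm n → Prop
  | _, .zer _ => True
  | _, .nzr _ => True
  | _, .int _ => True
  | _, .nin _ => True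
  | _, .all _ _ => True
  | _, .and φ ψ => Ex φ ∧ Ex ψ
  | _, .or φ ψ => Ex φ ∧ Ex ψ
  | _, .ex φ => Ex φ
  | _, .ball _ _ => False

/-- `a` and `b` are close. -/
def Cl {N : Type} [Field N] (O : ValuationSubring N) (e a b : N) : Prop :=
  ∃ u ∈ O, a - b = e * u

/-- The algebraic properties of the fields. -/
structure TA (p : ℕ) (N : Type) [Field N] (O : ValuationSubring N) (t : N) : Prop where
  char : CharP N p
  hens : HenselianLocalRing O
  t_mem : t ∈ O
  t_inv : t⁻¹ ∉ O
  rep : ∀ x : N, ∃! c : Fin p → N, x = ∑ i : Fin p, t ^ (i : ℕ) * c i ^ p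
  int : ∀ c : Fin p → N, (∑ i : Fin p, t ^ (i : ℕ) * c i ^ p) ∈ O → ∀ i, c i ∈ O

/-- The formulas `∀ w ∈ O ^ k, χ(w, x)` define open sets. -/
def OpenAll (N : Type) [Field N] (O : ValuationSubring N) : Prop :=
  ∀ (n k : ℕ) (χ : Qm (Fin k ⊕ Fin n)) (a : Fin n → N), AllO O a k χ →
    ∃ e : N, e ≠ 0 ∧ ∀ b : Fin n → N, (∀ i, Cl O e (b i) (a i)) → AllO O b k χ

/-- The properties of the fields. -/
structure TF (p : ℕ) (N : Type) [Field N] (O : ValuationSubring N) (t : N) : Prop
    extends TA p N O t where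
  opn : OpenAll N O

/-- An embedding of fields with valuation rings and a distinguished element. -/
def Emb {N N' : Type} [Field N] [Field N'] (O : ValuationSubring N) (O' : ValuationSubring N')
    (t : N) (t' : N') (f : N →+* N') : Prop :=
  f t = t' ∧ ∀ x, f x ∈ O' ↔ x ∈ O

/-- The embedding preserves the formulas `∀ w ∈ O ^ k, χ(w, x)`. -/
def Pre {N N' : Type} [Field N] [Field N'] (O : ValuationSubring N) (O' : ValuationSubring N')
    (f : N →+* N') : Prop :=
  ∀ (n k : ℕ) (χ : Qm (Fin k ⊕ Fin n)) (a : Fin n → N), AllO O a k χ →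
    AllO O' (fun i => f (a i)) k χ

/-- `φ` is preserved by embeddings. -/
def UP (p : ℕ) {n : ℕ} (φ : Fm n) : Prop :=
  ∀ (N N' : Type) [Field N] [Field N'] (O : ValuationSubring N) (O' : ValuationSubring N')
    (t : N) (t' : N'), TF p N O t → TF p N' O' t' → ∀ f : N →+* N', Emb O O' t t' f → Pre O O' f →
      ∀ a : Fin n → N, Sat O φ a → Sat O' φ (fun i => f (a i))

/-- A literal. -/
inductive Lit (σ : Type) : Type
  | zer (f : MvPolynomial σ ℤ) : Lit σ
  | nzr (f : MvPolynomial σ ℤ) : Lit σ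
  | int (f : MvPolynomial σ ℤ) : Lit σ
  | nin (f : MvPolynomial σ ℤ) : Lit σ
  | all (k : ℕ) (χ : Qm (Fin k ⊕ σ)) : Lit σ

/-- The literal holds at `v`. -/
def Lit.Holds {σ N : Type} [Field N] (O : ValuationSubring N) (v : σ → N) : Lit σ → Prop
  | .zer f => MvPolynomial.aeval v f = 0
  | .nzr f => MvPolynomial.aeval v f ≠ 0
  | .int f => MvPolynomial.aeval v f ∈ O
  | .nin f => MvPolynomial.aeval v f ∉ O
  | .all k χ => AllO O v k χ

/-- Renaming of the variables. -/
noncomputable def Qm.ren {σ τ : Type} (r : σ → τ) : Qm σ → Qm τ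
  | .nzr f => .nzr (MvPolynomial.rename r f)
  | .int f => .int (MvPolynomial.rename r f)
  | .nin f => .nin (MvPolynomial.rename r f)
  | .and φ ψ => .and (φ.ren r) (ψ.ren r)
  | .or φ ψ => .or (φ.ren r) (ψ.ren r)

/-- Renaming of the variables. -/
noncomputable def Lit.ren {σ τ : Type} (r : σ → τ) : Lit σ → Lit τ
  | .zer f => .zer (MvPolynomial.rename r f)
  | .nzr f => .nzr (MvPolynomial.rename r f)
  | .int f => .int (MvPolynomial.rename r f)
  | .nin f => .nin (MvPolynomial.rename r f)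
  | .all k χ => .all k (χ.ren (Sum.map id r))

theorem Qm.holds_ren {σ τ N : Type} [Field N] (O : ValuationSubring N) (r : σ → τ) (v : τ → N)
    (χ : Qm σ) : (χ.ren r).Holds O v ↔ χ.Holds O (v ∘ r) := by
  induction χ with
  | nzr f => simp only [Qm.ren, Qm.Holds, MvPolynomial.aeval_rename]
  | int f => simp only [Qm.ren, Qm.Holds, MvPolynomial.aeval_rename]
  | nin f => simp only [Qm.ren, Qm.Holds, MvPolynomial.aeval_rename]
  | and φ ψ h1 h2 => simp only [Qm.ren, Qm.Holds, h1, h2]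
  | or φ ψ h1 h2 => simp only [Qm.ren, Qm.Holds, h1, h2]

theorem allO_ren {σ τ N : Type} [Field N] (O : ValuationSubring N) (r : σ → τ) (v : τ → N)
    (k : ℕ) (χ : Qm (Fin k ⊕ σ)) : AllO O v k (χ.ren (Sum.map id r)) ↔ AllO O (v ∘ r) k χ := by
  unfold AllO
  refine forall_congr' fun w => imp_congr_right fun _ => ?_
  rw [Qm.holds_ren, Sum.elim_comp_map, Function.comp_id]

theorem Lit.holds_ren {σ τ N : Type} [Field N] (O : ValuationSubring N) (r : σ → τ) (v : τ → N)
    (l : Lit σ) : (l.ren r).Holds O v ↔ l.Holds O (v ∘ r) := by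
  cases l with
  | zer f => simp only [Lit.ren, Lit.Holds, MvPolynomial.aeval_rename]
  | nzr f => simp only [Lit.ren, Lit.Holds, MvPolynomial.aeval_rename]
  | int f => simp only [Lit.ren, Lit.Holds, MvPolynomial.aeval_rename]
  | nin f => simp only [Lit.ren, Lit.Holds, MvPolynomial.aeval_rename]
  | all k χ => simp only [Lit.ren, Lit.Holds, allO_ren]

end TF14
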