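import Pool.Agent.W_4ce76a_h14.Wit

set_option autoImplicit false
set_option linter.unusedSectionVars false

/-!
# MP_4ce76a_lc : formulas with variables for balls

`Qb l σ`: as `Qm σ`, with `l` variables for balls and the additional conditions `f ∈ B_j`, `f ∉ B_j`.
`Gm l n`: formulas with `l` variables for balls and `n` field variables: the atoms of `Fm` and `f ∈ B_j`, `f ∉ B_j`, `∀ w ∈ O ^ k, χ(w, x)` with `χ` in `Qb`,
conjunction, disjunction, `∃ x`, `∃ B` and the ball quantifier.  `Bm l n`: Boolean combinations of these with quantifiers over balls.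
A ball of `N` is a set `{x | c (x - z) ∈ O}`, `c ≠ 0`; `bl O z c`.
-/

namespace TF14

/-- Positive Boolean combinations of open conditions, with `l` ball variables. -/
inductive Qb (l : ℕ) (σ : Type) : Type
  | nzr (f : MvPolynomial σ ℤ) : Qb l σ
  | int (f : MvPolynomial σ ℤ) : Qb l σ
  | nin (f : MvPolynomial σ ℤ) : Qb l σ
  | mem (j : Fin l) (f : MvPolynomial σ ℤ) : Qb l σ
  | nmem (j : Fin l) (f : MvPolynomial σ ℤ) : Qb l σ
  | and (φ ψ : Qb l σ) : Qb l σ
  | or (φ ψ : Qb l σ) : Qb l σ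

/-- Formulas with `l` ball variables and `n` field variables. -/
inductive Gm : ℕ → ℕ → Type
  | zer {l n : ℕ} (f : MvPolynomial (Fin n) ℤ) : Gm l n
  | nzr {l n : ℕ} (f : MvPolynomial (Fin n) ℤ) : Gm l n
  | int {l n : ℕ} (f : MvPolynomial (Fin n) ℤ) : Gm l n
  | nin {l n : ℕ} (f : MvPolynomial (Fin n) ℤ) : Gm l n
  | mem {l n : ℕ} (j : Fin l) (f : MvPolynomial (Fin n) ℤ) : Gm l n
  | nmem {l n : ℕ} (j : Fin l) (f : MvPolynomial (Fin n) ℤ) : Gm l n
  | all {l n : ℕ} (k : ℕ) (χ : Qb l (Fin k ⊕ Fin n)) : Gm l n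
  | and {l n : ℕ} (φ ψ : Gm l n) : Gm l n
  | or {l n : ℕ} (φ ψ : Gm l n) : Gm l n
  | ex {l n : ℕ} (φ : Gm l (n + 1)) : Gm l n
  | exB {l n : ℕ} (φ : Gm (l + 1) n) : Gm l n
  | ball {l n : ℕ} (k : ℕ) (φ : Gm l (k + n)) : Gm l n

/-- Boolean combinations of formulas in `Gm` with quantifiers over balls. -/
inductive Bm : ℕ → ℕ → Type
  | at {l n : ℕ} (φ : Gm l n) : Bm l n
  | not {l n : ℕ} (φ : Bm l n) : Bm l n
  | and {l n : ℕ} (φ ψ : Bm l n) : Bm l n
  | allB {l n : ℕ} (φ : Bm (l + 1) n) : Bm l n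

/-- The ball of the `x` with `c (x - z) ∈ O`. -/
def bl {N : Type} [Field N] (O : ValuationSubring N) (z c : N) : Set N :=
  {x | c * (x - z) ∈ O}

/-- `B` is a ball. -/
def IsBl {N : Type} [Field N] (O : ValuationSubring N) (B : Set N) : Prop :=
  ∃ z c : N, c ≠ 0 ∧ B = bl O z c

/-- The condition `χ` holds for the balls `B` and the elements `v`. -/
def Qb.Holds {l : ℕ} {σ N : Type} [Field N] (O : ValuationSubring N) (B : Fin l → Set N)
    (v : σ → N) : Qb l σ → Prop
  | .nzr f => MvPolynomial.aeval v f ≠ 0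
  | .int f => MvPolynomial.aeval v f ∈ O
  | .nin f => MvPolynomial.aeval v f ∉ O
  | .mem j f => MvPolynomial.aeval v f ∈ B j
  | .nmem j f => MvPolynomial.aeval v f ∉ B j
  | .and φ ψ => Qb.Holds O B v φ ∧ Qb.Holds O B v ψ
  | .or φ ψ => Qb.Holds O B v φ ∨ Qb.Holds O B v ψ

/-- `φ` holds for the balls `B` and the elements `a`. -/
def SatG {N : Type} [Field N] (O : ValuationSubring N) :
    {l n : ℕ} → Gm l n → (Fin l → Set N) → (Fin n → N) → Prop
  | _, _, .zer f, _, a => MvPolynomial.aeval a f = 0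
  | _, _, .nzr f, _, a => MvPolynomial.aeval a f ≠ 0
  | _, _, .int f, _, a => MvPolynomial.aeval a f ∈ O
  | _, _, .nin f, _, a => MvPolynomial.aeval a f ∉ O
  | _, _, .mem j f, B, a => MvPolynomial.aeval a f ∈ B j
  | _, _, .nmem j f, B, a => MvPolynomial.aeval a f ∉ B j
  | _, _, .all k χ, B, a => ∀ w : Fin k → N, (∀ i, w i ∈ O) → χ.Holds O B (Sum.elim w a)
  | _, _, .and φ ψ, B, a => SatG O φ B a ∧ SatG O ψ B a
  | _, _, .or φ ψ, B, a => SatG O φ B a ∨ SatG O ψ B a
  | _, _, .ex φ, B, a => ∃ x : N, SatG O φ B (Fin.snoc a x : Fin _ → N)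
  | _, _, .exB φ, B, a => ∃ b : Set N, IsBl O b ∧ SatG O φ (Fin.snoc B b : Fin _ → Set N) a
  | _, _, .ball k φ, B, a => ∃ (z : Fin k → N) (e : N), e ≠ 0 ∧
      ∀ u : Fin k → N, (∀ i, u i ∈ O) → SatG O φ B (Fin.append (fun i => z i + e * u i) a)

/-- `φ` holds for the balls `B` and the elements `a`. -/
def SatB {N : Type} [Field N] (O : ValuationSubring N) :
    {l n : ℕ} → Bm l n → (Fin l → Set N) → (Fin n → N) → Prop
  | _, _, .at φ, B, a => SatG O φ B a
  | _, _, .not φ, B, a => ¬ SatB O φ B a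
  | _, _, .and φ ψ, B, a => SatB O φ B a ∧ SatB O ψ B a
  | _, _, .allB φ, B, a => ∀ b : Set N, IsBl O b → SatB O φ (Fin.snoc B b : Fin _ → Set N) a

/-- PROOF. Induction on `χ`: the new variables are `σ ⊕ (Fin l ⊕ Fin l)`, `f ∈ B_j` becomes `int (c_j (f - z_j))`. -/
theorem exists_trQ {l : ℕ} {σ : Type} (χ : Qb l σ) : ∃ χ' : Qm (σ ⊕ (Fin l ⊕ Fin l)),
    ∀ (N : Type) [Field N] (O : ValuationSubring N) (z c : Fin l → N) (v : σ → N),
      χ'.Holds O (Sum.elim v (Sum.elim z c)) ↔ χ.Holds O (fun j => bl O (z j) (c j)) v := by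
  induction χ with
  | nzr f =>
    refine ⟨.nzr (MvPolynomial.rename Sum.inl f), fun N _ O z c v => ?_⟩
    simp only [Qm.Holds, Qb.Holds, MvPolynomial.aeval_rename, Sum.elim_comp_inl]
  | int f =>
    refine ⟨.int (MvPolynomial.rename Sum.inl f), fun N _ O z c v => ?_⟩
    simp only [Qm.Holds, Qb.Holds, MvPolynomial.aeval_rename, Sum.elim_comp_inl]
  | nin f =>
    refine ⟨.nin (MvPolynomial.rename Sum.inl f), fun N _ O z c v => ?_⟩
    simp only [Qm.Holds, Qb.Holds, MvPolynomial.aeval_rename, Sum.elim_comp_inl]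
  | mem j f =>
    refine ⟨.int (MvPolynomial.X (Sum.inr (Sum.inr j)) * (MvPolynomial.rename Sum.inl f -
      MvPolynomial.X (Sum.inr (Sum.inl j)))), fun N _ O z c v => ?_⟩
    simp only [Qm.Holds, Qb.Holds, bl, Set.mem_ofPred_eq, map_mul, map_sub, MvPolynomial.aeval_X,
      MvPolynomial.aeval_rename, Sum.elim_comp_inl, Sum.elim_inr, Sum.elim_inl]
  | nmem j f =>
    refine ⟨.nin (MvPolynomial.X (Sum.inr (Sum.inr j)) * (MvPolynomial.rename Sum.inl f -
      MvPolynomial.X (Sum.inr (Sum.inl j)))), fun N _ O z c v => ?_⟩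
    simp only [Qm.Holds, Qb.Holds, bl, Set.mem_ofPred_eq, map_mul, map_sub, MvPolynomial.aeval_X,
      MvPolynomial.aeval_rename, Sum.elim_comp_inl, Sum.elim_inr, Sum.elim_inl]
  | and φ ψ h1 h2 =>
    obtain ⟨φ', h1⟩ := h1
    obtain ⟨ψ', h2⟩ := h2
    refine ⟨.and φ' ψ', fun N _ O z c v => ?_⟩
    simp only [Qm.Holds, Qb.Holds, h1, h2]
  | or φ ψ h1 h2 =>
    obtain ⟨φ', h1⟩ := h1
    obtain ⟨ψ', h2⟩ := h2
    refine ⟨.or φ' ψ', fun N _ O z c v => ?_⟩
    simp only [Qm.Holds, Qb.Holds, h1, h2]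

/-- Translation to formulas without ball variables: the ball `B_j` is given by the variables `z j` and `c j`.
PROOF. Induction on `φ`.  `mem j f`: `int (c_j (f - z_j))`.  `all`: `exists_trQ`, rename the variables (`Qm.ren`).  `ex`: `m + 1` variables, `x` becomes `Fin.snoc`.
`exB`: two new variables `z, c` and `c ≠ 0` (`nzr`).  `ball k`: `k + m` variables, the first `k` are the new ones. -/
theorem exists_tr {l n : ℕ} (φ : Gm l n) : ∀ {m : ℕ} (z c : Fin l → Fin m) (x : Fin n → Fin m),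
    ∃ ψ : Fm m, ∀ (N : Type) [Field N] (O : ValuationSubring N) (v : Fin m → N),
      (Sat O ψ v ↔ SatG O φ (fun j => bl O (v (z j)) (v (c j))) fun i => v (x i)) := by
  induction φ with
  | zer f =>
    intro m z c x
    refine ⟨.zer (MvPolynomial.rename x f), fun N _ O v => ?_⟩
    simp only [Sat, SatG, MvPolynomial.aeval_rename]
    rfl
  | nzr f =>
    intro m z c x
    refine ⟨.nzr (MvPolynomial.rename x f), fun N _ O v => ?_⟩
    simp only [Sat, SatG, MvPolynomial.aeval_rename]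
    rfl
  | int f =>
    intro m z c x
    refine ⟨.int (MvPolynomial.rename x f), fun N _ O v => ?_⟩
    simp only [Sat, SatG, MvPolynomial.aeval_rename]
    rfl
  | nin f =>
    intro m z c x
    refine ⟨.nin (MvPolynomial.rename x f), fun N _ O v => ?_⟩
    simp only [Sat, SatG, MvPolynomial.aeval_rename]
    rfl
  | mem j f =>
    intro m z c x
    refine ⟨.int (MvPolynomial.X (c j) * (MvPolynomial.rename x f - MvPolynomial.X (z j))),
      fun N _ O v => ?_⟩
    simp only [Sat, SatG, bl, Set.mem_ofPred_eq, map_mul, map_sub, MvPolynomial.aeval_X,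
      MvPolynomial.aeval_rename]
    rfl
  | nmem j f =>
    intro m z c x
    refine ⟨.nin (MvPolynomial.X (c j) * (MvPolynomial.rename x f - MvPolynomial.X (z j))),
      fun N _ O v => ?_⟩
    simp only [Sat, SatG, bl, Set.mem_ofPred_eq, map_mul, map_sub, MvPolynomial.aeval_X,
      MvPolynomial.aeval_rename]
    rfl
  | @all l n k χ =>
    intro m z c x
    obtain ⟨χ', h⟩ := exists_trQ χ
    let r : (Fin k ⊕ Fin n) ⊕ (Fin l ⊕ Fin l) → Fin k ⊕ Fin m :=
      Sum.elim (Sum.elim (fun i => Sum.inl i) fun i => Sum.inr (x i))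
        (Sum.elim (fun j => Sum.inr (z j)) fun j => Sum.inr (c j))
    refine ⟨.all k (χ'.ren r), fun N _ O v => ?_⟩
    simp only [Sat, SatG, AllO]
    refine forall_congr' fun w => imp_congr_right fun _ => ?_
    rw [Qm.holds_ren, ← h N O (fun j => v (z j)) (fun j => v (c j))]
    have e : (Sum.elim w v : Fin k ⊕ Fin m → N) ∘ r = Sum.elim (Sum.elim w fun i => v (x i))
        (Sum.elim (fun j => v (z j)) fun j => v (c j)) := by
      funext i
      rcases i with (i | i) | (i | i) <;> rfl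
    rw [e]
  | and φ ψ h1 h2 =>
    intro m z c x
    obtain ⟨φ', h1⟩ := h1 z c x
    obtain ⟨ψ', h2⟩ := h2 z c x
    refine ⟨.and φ' ψ', fun N _ O v => ?_⟩
    simp only [Sat, SatG, h1, h2]
  | or φ ψ h1 h2 =>
    intro m z c x
    obtain ⟨φ', h1⟩ := h1 z c x
    obtain ⟨ψ', h2⟩ := h2 z c x
    refine ⟨.or φ' ψ', fun N _ O v => ?_⟩
    simp only [Sat, SatG, h1, h2]
  | @ex l n φ h =>
    intro m z c x
    obtain ⟨ψ, h⟩ := h (m := m + 1) (fun j => (z j).castSucc) (fun j => (c j).castSucc)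
      (Fin.snoc (fun i => (x i).castSucc) (Fin.last m) : Fin (n + 1) → Fin (m + 1))
    refine ⟨.ex ψ, fun N _ O v => ?_⟩
    simp only [Sat, SatG]
    refine exists_congr fun y => ?_
    rw [h]
    have e1 : (fun i => (Fin.snoc v y : Fin (m + 1) → N)
        ((Fin.snoc (fun i => (x i).castSucc) (Fin.last m) : Fin (n + 1) → Fin (m + 1)) i)) =
        (Fin.snoc (fun i => v (x i)) y : Fin (n + 1) → N) := by
      funext i
      refine Fin.lastCases ?_ (fun i => ?_) i
      · simp only [Fin.snoc_last]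
      · simp only [Fin.snoc_castSucc]
    rw [e1]
    simp only [Fin.snoc_castSucc]
  | @exB l n φ h =>
    intro m z c x
    obtain ⟨ψ, h⟩ := h (m := m + 2)
      (Fin.snoc (fun j => (z j).castSucc.castSucc) (Fin.last m).castSucc :
        Fin (l + 1) → Fin (m + 2))
      (Fin.snoc (fun j => (c j).castSucc.castSucc) (Fin.last (m + 1)) : Fin (l + 1) → Fin (m + 2))
      (fun i => (x i).castSucc.castSucc)
    refine ⟨.ex (.ex (.and (.nzr (MvPolynomial.X (Fin.last (m + 1)))) ψ)), fun N _ O v => ?_⟩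
    have key : ∀ z0 c0 : N, (Sat O ψ (Fin.snoc (Fin.snoc v z0 : Fin (m + 1) → N) c0 :
        Fin (m + 2) → N) ↔ SatG O φ (Fin.snoc (fun j => bl O (v (z j)) (v (c j))) (bl O z0 c0) :
        Fin (l + 1) → Set N) fun i => v (x i)) := by
      intro z0 c0
      rw [h]
      have e1 : (fun j => bl O
          ((Fin.snoc (Fin.snoc v z0 : Fin (m + 1) → N) c0 : Fin (m + 2) → N)
            ((Fin.snoc (fun j => (z j).castSucc.castSucc) (Fin.last m).castSucc :
              Fin (l + 1) → Fin (m + 2)) j))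
          ((Fin.snoc (Fin.snoc v z0 : Fin (m + 1) → N) c0 : Fin (m + 2) → N)
            ((Fin.snoc (fun j => (c j).castSucc.castSucc) (Fin.last (m + 1)) :
              Fin (l + 1) → Fin (m + 2)) j))) =
          (Fin.snoc (fun j => bl O (v (z j)) (v (c j))) (bl O z0 c0) :
            Fin (l + 1) → Set N) := by
        funext j
        refine Fin.lastCases ?_ (fun j => ?_) j
        · simp only [Fin.snoc_last, Fin.snoc_castSucc]
        · simp only [Fin.snoc_castSucc]
      rw [e1]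
      simp only [Fin.snoc_castSucc]
    simp only [Sat, SatG, key, MvPolynomial.aeval_X, Fin.snoc_last, IsBl]
    constructor
    · rintro ⟨z0, c0, hc, hs⟩
      exact ⟨_, ⟨z0, c0, hc, rfl⟩, hs⟩
    · rintro ⟨_, ⟨z0, c0, hc, rfl⟩, hs⟩
      exact ⟨z0, c0, hc, hs⟩
  | @ball l n k φ h =>
    intro m z c x
    obtain ⟨ψ, h⟩ := h (m := k + m) (fun j => Fin.natAdd k (z j)) (fun j => Fin.natAdd k (c j))
      (Fin.append (fun i => Fin.castAdd m i) (fun i => Fin.natAdd k (x i)))
    refine ⟨.ball k ψ, fun N _ O v => ?_⟩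
    simp only [Sat, SatG]
    refine exists_congr fun z0 => exists_congr fun e => and_congr_right fun _ =>
      forall_congr' fun u => imp_congr_right fun _ => ?_
    rw [h]
    have e1 : (fun i => (Fin.append (fun i => z0 i + e * u i) v)
        ((Fin.append (fun i => Fin.castAdd m i) (fun i => Fin.natAdd k (x i))) i)) =
        Fin.append (fun i => z0 i + e * u i) (fun i => v (x i)) := by
      funext i
      refine Fin.addCases (fun i => ?_) (fun i => ?_) i
      · simp only [Fin.append_left]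
      · simp only [Fin.append_right]
    rw [e1]
    simp only [Fin.append_right]

end TF14
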