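import Pool.Agent.W_4ce76a_h14.Syn

set_option autoImplicit false
set_option linter.unusedSectionVars false

/-!
# MP_4ce76a_lc : ultraproducts

`UF N U`: the ultraproduct of the fields `N i`.  `uO N U O`: the ultraproduct of the valuation rings.

* `uIdeal` is maximal: if `f` is not in it, then with `g i = (f i)⁻¹` `f * g - 1` is in it.
* `uO`: `mk f ∈ uO` iff `∀ᶠ i in U, f i ∈ O i` (well defined: if `f - g ∈ uIdeal` then `f i = g i` for almost all `i`).
* `los`: induction on `φ`.  Atoms: `aeval (fun k => mk (a k)) F = mk (fun i => aeval (fun k => a k i) F)`.  `or`: ultrafilter (`Ultrafilter.eventually_or`).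
  `nzr`, `nin`: `Ultrafilter.eventually_not`.  `ex`: choice, `umk_surjective`, `Fin.snoc` and `Fin.append` commute with `umk`.  `ball`: (←) choose `z i`, `e i`, `e i ≠ 0` for almost all
  `i`; for `u = mk w ∈ uO` use the induction hypothesis.  (→) `z = mk z'`, `e = mk e'`; if it is not true that for almost all `i` for all `u ∈ O i` the formula
  holds, choose `w i ∈ O i` where it fails, `u = mk w`.  `all`: the same argument; `qm_los` for the condition `χ` (induction).
-/

namespace TF14

open Filter

section
variable {I : Type} (N : I → Type) [∀ i, Field (N i)] (U : Ultrafilter I)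

/-- The ideal of the elements which are zero almost everywhere. -/
def uIdeal : Ideal (∀ i, N i) where
  carrier := {f | ∀ᶠ i in (U : Filter I), f i = 0}
  add_mem' := by
    intro f g hf hg
    filter_upwards [hf, hg] with i h1 h2
    rw [Pi.add_apply, h1, h2, add_zero]
  zero_mem' := Eventually.of_forall fun _ => rfl
  smul_mem' := by
    intro c f hf
    filter_upwards [hf] with i h1
    rw [smul_eq_mul, Pi.mul_apply, h1, mul_zero]

instance uIdeal_max : (uIdeal N U).IsMaximal := by
  rw [Ideal.isMaximal_iff]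
  refine ⟨?_, fun J x hJ hx hxJ => ?_⟩
  · intro h
    have h1 : ∀ᶠ i in (U : Filter I), (1 : ∀ i, N i) i = 0 := h
    obtain ⟨i, hi⟩ := h1.exists
    exact one_ne_zero hi
  · classical
    have h1 : ¬ ∀ᶠ i in (U : Filter I), x i = 0 := hx
    rw [← Ultrafilter.eventually_not] at h1
    have h2 : (1 : ∀ i, N i) - x * (fun i => (x i)⁻¹) ∈ uIdeal N U := by
      show ∀ᶠ i in (U : Filter I), ((1 : ∀ i, N i) - x * (fun i => (x i)⁻¹)) i = 0
      filter_upwards [h1] with i hi
      rw [Pi.sub_apply, Pi.mul_apply, Pi.one_apply, mul_inv_cancel₀ hi, sub_self]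
    have h3 : (1 : ∀ i, N i) = (1 - x * (fun i => (x i)⁻¹)) + x * (fun i => (x i)⁻¹) := by ring
    rw [h3]
    exact J.add_mem (hJ h2) (J.mul_mem_right _ hxJ)

/-- The ultraproduct. -/
abbrev UF : Type := (∀ i, N i) ⧸ uIdeal N U

noncomputable instance UF_field : Field (UF N U) := Ideal.Quotient.field _

/-- The class of a family. -/
noncomputable def umk : (∀ i, N i) →+* UF N U := Ideal.Quotient.mk _

theorem umk_surjective : Function.Surjective (umk N U) := Ideal.Quotient.mk_surjective

theorem umk_eq_iff {f g : ∀ i, N i} : umk N U f = umk N U g ↔ ∀ᶠ i in (U : Filter I), f i = g i := by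
  have h1 : umk N U f = umk N U g ↔ f - g ∈ uIdeal N U := Ideal.Quotient.eq
  rw [h1]
  show (∀ᶠ i in (U : Filter I), (f - g) i = 0) ↔ _
  refine Filter.eventually_congr (Eventually.of_forall fun i => ?_)
  rw [Pi.sub_apply, sub_eq_zero]

theorem umk_eq_zero_iff {f : ∀ i, N i} : umk N U f = 0 ↔ ∀ᶠ i in (U : Filter I), f i = 0 := by
  rw [← map_zero (umk N U), umk_eq_iff]
  rfl

/-- The ultraproduct of the valuation rings. -/
noncomputable def uO (O : ∀ i, ValuationSubring (N i)) : ValuationSubring (UF N U) where
  carrier := {x | ∃ f : ∀ i, N i, umk N U f = x ∧ ∀ i, f i ∈ O i}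
  mul_mem' := by
    rintro x y ⟨f, rfl, hf⟩ ⟨g, rfl, hg⟩
    exact ⟨f * g, map_mul _ _ _, fun i => (O i).mul_mem _ _ (hf i) (hg i)⟩
  one_mem' := by
    exact ⟨1, map_one _, fun i => (O i).one_mem⟩
  add_mem' := by
    rintro x y ⟨f, rfl, hf⟩ ⟨g, rfl, hg⟩
    exact ⟨f + g, map_add _ _ _, fun i => (O i).add_mem _ _ (hf i) (hg i)⟩
  zero_mem' := by
    exact ⟨0, map_zero _, fun i => (O i).zero_mem⟩
  neg_mem' := by
    rintro x ⟨f, rfl, hf⟩
    exact ⟨-f, map_neg _ _, fun i => (O i).neg_mem _ (hf i)⟩
  mem_or_inv_mem' := by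
    classical
    intro x
    obtain ⟨f, rfl⟩ := umk_surjective N U x
    by_cases h : ∀ᶠ i in (U : Filter I), f i ∈ O i
    · left
      refine ⟨fun i => if f i ∈ O i then f i else 0, ?_, fun i => ?_⟩
      · rw [umk_eq_iff]
        filter_upwards [h] with i hi
        rw [if_pos hi]
      · show (if f i ∈ O i then f i else 0) ∈ O i
        split_ifs with h1
        · exact h1
        · exact (O i).zero_mem
    · right
      rw [← Ultrafilter.eventually_not] at h
      have h1 : ∀ i, (f i) ∉ O i → (f i)⁻¹ ∈ O i := fun i hi =>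
        ((O i).mem_or_inv_mem (f i)).resolve_left hi
      refine ⟨fun i => if f i ∈ O i then 0 else (f i)⁻¹, ?_, fun i => ?_⟩
      · have h2 : umk N U f * umk N U (fun i => if f i ∈ O i then 0 else (f i)⁻¹) = 1 := by
          rw [← map_mul, ← map_one (umk N U), umk_eq_iff]
          filter_upwards [h] with i hi
          rw [Pi.mul_apply, if_neg hi, Pi.one_apply]
          refine mul_inv_cancel₀ ?_
          intro h0
          exact hi (h0 ▸ (O i).zero_mem)
        exact (eq_inv_of_mul_eq_one_right h2)
      · show (if f i ∈ O i then 0 else (f i)⁻¹) ∈ O i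
        split_ifs with h2
        · exact (O i).zero_mem
        · exact h1 i h2

theorem umk_mem_uO {O : ∀ i, ValuationSubring (N i)} {f : ∀ i, N i} :
    umk N U f ∈ uO N U O ↔ ∀ᶠ i in (U : Filter I), f i ∈ O i := by
  constructor
  · rintro ⟨g, hg, h⟩
    rw [umk_eq_iff] at hg
    filter_upwards [hg] with i hi
    rw [← hi]
    exact h i
  · intro h
    classical
    refine ⟨fun i => if f i ∈ O i then f i else 0, ?_, fun i => ?_⟩
    · rw [umk_eq_iff]
      filter_upwards [h] with i hi
      rw [if_pos hi]
    · show (if f i ∈ O i then f i else 0) ∈ O i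
      split_ifs with h1
      · exact h1
      · exact (O i).zero_mem

theorem umk_aeval {σ : Type} (a : σ → ∀ i, N i) (F : MvPolynomial σ ℤ) :
    MvPolynomial.aeval (fun k => umk N U (a k)) F =
      umk N U (fun i => MvPolynomial.aeval (fun k => a k i) F) := by
  induction F using MvPolynomial.induction_on with
  | C c =>
    simp only [MvPolynomial.aeval_C]
    exact ((map_intCast (umk N U) c).trans (by simp)).symm
  | add p q hp hq =>
    simp only [map_add] at *
    rw [hp, hq, ← map_add]
    rfl
  | mul_X p k hp =>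
    simp only [map_mul, MvPolynomial.aeval_X] at *
    rw [hp, ← map_mul]
    rfl

end

end TF14
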