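import Pool.Agent.W_4ce76a_h14.Ultra

set_option autoImplicit false
set_option linter.unusedSectionVars false

/-!
# MP_4ce76a_lc : the ultraproduct of fields with `TA p` has `TA p`
* `char`: `(p : UF) = 0` and `(m : UF) = 0 ↔ p ∣ m` (for almost all `i`).
* `rep`: existence: `x = umk f`, choose `c i` for `f i`; uniqueness: lift `c`, `c'` (`umk_surjective`), `umk_eq_iff`.  `int`: the same.
* `hens`: the maximal ideal of `uO` consists of the classes of the families with `f i` in the maximal ideal for almost all `i` (a unit of `uO` is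
  an element of `uO` whose inverse is in `uO`).  Let `f` be monic of degree `d`.  Choose families with values in `O i` for the coefficients `0, .., d - 1`
  and consider the monic polynomials `f i = X ^ d + ∑ ..` over `O i`.
-/

namespace TF14

open Filter

section
variable {I : Type} (N : I → Type) [∀ i, Field (N i)] (U : Ultrafilter I)

theorem UltraTA_sum {p : ℕ} (t : ∀ i, N i) (g : Fin p → ∀ i, N i) :
    (∑ k : Fin p, umk N U t ^ (k : ℕ) * umk N U (g k) ^ p) =
      umk N U (fun i => ∑ k : Fin p, t i ^ (k : ℕ) * g k i ^ p) := by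
  have e1 : (fun i => ∑ k : Fin p, t i ^ (k : ℕ) * g k i ^ p) =
      ∑ k : Fin p, t ^ (k : ℕ) * g k ^ p := by
    funext i
    rw [Finset.sum_apply]
    rfl
  rw [e1, map_sum]
  refine Finset.sum_congr rfl fun k _ => ?_
  rw [map_mul, map_pow, map_pow]

theorem UltraTA_reps {p : ℕ} (c : Fin p → UF N U) :
    ∃ g : Fin p → ∀ i, N i, ∀ k, umk N U (g k) = c k := by
  choose g hg using fun k => umk_surjective N U (c k)
  exact ⟨g, hg⟩

/-- the projection from the product of the valuation rings -/
noncomputable def UltraTA_pr (O : ∀ i, ValuationSubring (N i)) : (∀ i, O i) →+* uO N U O where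
  toFun g := ⟨umk N U (fun i => (g i : N i)),
    (umk_mem_uO N U).2 (Eventually.of_forall fun i => (g i).2)⟩
  map_one' := Subtype.ext (map_one (umk N U))
  map_mul' g h := Subtype.ext (map_mul (umk N U) (fun i => (g i : N i)) (fun i => (h i : N i)))
  map_zero' := Subtype.ext (map_zero (umk N U))
  map_add' g h := Subtype.ext (map_add (umk N U) (fun i => (g i : N i)) (fun i => (h i : N i)))

theorem UltraTA_pr_surj (O : ∀ i, ValuationSubring (N i)) :
    Function.Surjective (UltraTA_pr N U O) := by
  rintro ⟨x, g, hg, hg2⟩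
  exact ⟨fun i => ⟨g i, hg2 i⟩, Subtype.ext hg⟩

theorem UltraTA_pr_eq (O : ∀ i, ValuationSubring (N i)) {g h : ∀ i, O i} :
    UltraTA_pr N U O g = UltraTA_pr N U O h ↔ ∀ᶠ i in (U : Filter I), g i = h i := by
  have e1 : UltraTA_pr N U O g = UltraTA_pr N U O h ↔
      umk N U (fun i => (g i : N i)) = umk N U (fun i => (h i : N i)) := Subtype.ext_iff
  rw [e1, umk_eq_iff]
  exact eventually_congr (Eventually.of_forall fun i => Subtype.ext_iff.symm)

theorem UltraTA_unit (O : ∀ i, ValuationSubring (N i)) {g : ∀ i, O i} :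
    IsUnit (UltraTA_pr N U O g) ↔ ∀ᶠ i in (U : Filter I), IsUnit (g i) := by
  classical
  constructor
  · intro h
    obtain ⟨y, hy⟩ := isUnit_iff_exists_inv.1 h
    obtain ⟨k, rfl⟩ := UltraTA_pr_surj N U O y
    rw [← map_mul, ← map_one (UltraTA_pr N U O), UltraTA_pr_eq] at hy
    filter_upwards [hy] with i hi
    exact isUnit_iff_exists_inv.2 ⟨k i, hi⟩
  · intro h
    have h1 : ∀ i, ∃ b : O i, IsUnit (g i) → g i * b = 1 := by
      intro i
      by_cases hi : IsUnit (g i)
      · obtain ⟨b, hb⟩ := isUnit_iff_exists_inv.1 hi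
        exact ⟨b, fun _ => hb⟩
      · exact ⟨1, fun h2 => absurd h2 hi⟩
    choose b hb using h1
    refine isUnit_iff_exists_inv.2 ⟨UltraTA_pr N U O b, ?_⟩
    rw [← map_mul, ← map_one (UltraTA_pr N U O), UltraTA_pr_eq]
    filter_upwards [h] with i hi
    exact hb i hi

theorem UltraTA_max (O : ∀ i, ValuationSubring (N i)) {g : ∀ i, O i} :
    UltraTA_pr N U O g ∈ IsLocalRing.maximalIdeal (uO N U O) ↔
      ∀ᶠ i in (U : Filter I), g i ∈ IsLocalRing.maximalIdeal (O i) := by
  rw [IsLocalRing.mem_maximalIdeal, mem_nonunits_iff, UltraTA_unit, ← Ultrafilter.eventually_not]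
  refine eventually_congr (Eventually.of_forall fun i => ?_)
  rw [IsLocalRing.mem_maximalIdeal, mem_nonunits_iff]

theorem UltraTA_hens (O : ∀ i, ValuationSubring (N i)) (h : ∀ i, HenselianLocalRing (O i)) :
    HenselianLocalRing (uO N U O) := by
  classical
  refine ⟨fun f hf a₀ ha hu => ?_⟩
  have hlift : f ∈ Polynomial.lifts (UltraTA_pr N U O) := by
    rw [Polynomial.lifts_iff_coeff_lifts]
    intro n
    exact UltraTA_pr_surj N U O _
  obtain ⟨F, hF, -, hFm⟩ := Polynomial.lifts_and_natDegree_eq_and_monic hlift hf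
  obtain ⟨A, rfl⟩ := UltraTA_pr_surj N U O a₀
  have key : ∀ (Q : Polynomial (∀ i, O i)) (B : ∀ i, O i) (i : I),
      (Q.eval B) i = (Q.map (Pi.evalRingHom (fun i => O i) i)).eval (B i) := by
    intro Q B i
    exact Polynomial.hom_eval₂ Q (RingHom.id _) (Pi.evalRingHom (fun i => O i) i) B |>.trans (by
      rw [Polynomial.eval_map]
      rfl)
  have keyU : ∀ (Q : Polynomial (∀ i, O i)) (B : ∀ i, O i),
      (Q.map (UltraTA_pr N U O)).eval (UltraTA_pr N U O B) = UltraTA_pr N U O (Q.eval B) := by
    intro Q B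
    rw [Polynomial.eval_map, Polynomial.eval₂_at_apply]
  rw [← hF] at ha hu ⊢
  rw [keyU, UltraTA_max] at ha
  rw [Polynomial.derivative_map, keyU, UltraTA_unit] at hu
  have h1 : ∀ i, ∃ b : O i, (F.eval A) i ∈ IsLocalRing.maximalIdeal (O i) →
      IsUnit ((F.derivative.eval A) i) →
      (F.map (Pi.evalRingHom (fun i => O i) i)).IsRoot b ∧
        b - A i ∈ IsLocalRing.maximalIdeal (O i) := by
    intro i
    by_cases h2 : (F.eval A) i ∈ IsLocalRing.maximalIdeal (O i) ∧
        IsUnit ((F.derivative.eval A) i)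
    · obtain ⟨h3, h4⟩ := h2
      have h5 := (h i).is_henselian (F.map (Pi.evalRingHom (fun i => O i) i)) (hFm.map _) (A i)
        (by rw [← key]; exact h3) (by rw [Polynomial.derivative_map, ← key]; exact h4)
      obtain ⟨b, hb⟩ := h5
      exact ⟨b, fun _ _ => hb⟩
    · exact ⟨0, fun h3 h4 => absurd ⟨h3, h4⟩ h2⟩
  choose b hb using h1
  refine ⟨UltraTA_pr N U O b, ?_, ?_⟩
  · show (F.map (UltraTA_pr N U O)).eval (UltraTA_pr N U O b) = 0
    rw [keyU, ← map_zero (UltraTA_pr N U O), UltraTA_pr_eq]
    filter_upwards [ha, hu] with i h2 h3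
    rw [key]
    exact (hb i h2 h3).1
  · rw [← map_sub, UltraTA_max]
    filter_upwards [ha, hu] with i h2 h3
    exact (hb i h2 h3).2

end

theorem ta_ultra {I : Type} (N : I → Type) [∀ i, Field (N i)] (U : Ultrafilter I) {p : ℕ}
    (hp : p.Prime) (O : ∀ i, ValuationSubring (N i)) (t : ∀ i, N i)
    (h : ∀ i, TA p (N i) (O i) (t i)) : TA p (UF N U) (uO N U O) (umk N U t) := by
  have hU : (U : Filter I).NeBot := U.neBot
  have ht0 : ∀ i, t i ≠ 0 := by
    intro i h0
    apply (h i).t_inv
    rw [h0, inv_zero]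
    exact (O i).zero_mem
  have hinv : (umk N U t)⁻¹ = umk N U (fun i => (t i)⁻¹) := by
    apply inv_eq_of_mul_eq_one_right
    rw [← map_mul, ← map_one (umk N U), umk_eq_iff]
    exact Eventually.of_forall fun i => mul_inv_cancel₀ (ht0 i)
  constructor
  · -- characteristic
    constructor
    intro m
    have e1 : (m : UF N U) = umk N U (fun i => (m : N i)) := by
      rw [← map_natCast (umk N U) m]
      rfl
    rw [e1, umk_eq_zero_iff]
    have e2 : (∀ᶠ i in (U : Filter I), (m : N i) = 0) ↔ ∀ᶠ i in (U : Filter I), p ∣ m := by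
      refine eventually_congr (Eventually.of_forall fun i => ?_)
      have := (h i).char
      exact CharP.cast_eq_zero_iff (N i) p m
    rw [e2, eventually_const]
  · exact UltraTA_hens N U O fun i => (h i).hens
  · exact (umk_mem_uO N U).2 (Eventually.of_forall fun i => (h i).t_mem)
  · rw [hinv, umk_mem_uO]
    intro h1
    obtain ⟨i, hi⟩ := h1.exists
    exact (h i).t_inv hi
  · intro x
    obtain ⟨f, rfl⟩ := umk_surjective N U x
    choose c hc hc2 using fun i => (h i).rep (f i)
    refine ⟨fun k => umk N U (fun i => c i k), ?_, ?_⟩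
    · show umk N U f = ∑ k : Fin p, umk N U t ^ (k : ℕ) * umk N U (fun i => c i k) ^ p
      rw [UltraTA_sum]
      congr 1
      funext i
      exact hc i
    · intro c' hc'
      obtain ⟨g, hg⟩ := UltraTA_reps N U c'
      have hgc : c' = fun k => umk N U (g k) := (funext hg).symm
      subst hgc
      have h1 : umk N U f = ∑ k : Fin p, umk N U t ^ (k : ℕ) * umk N U (g k) ^ p := hc'
      rw [UltraTA_sum, umk_eq_iff] at h1
      funext k
      show umk N U (g k) = umk N U (fun i => c i k)
      rw [umk_eq_iff]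
      filter_upwards [h1] with i hi
      exact congrFun (hc2 i (fun k => g k i) hi) k
  · intro c hc k
    obtain ⟨g, hg⟩ := UltraTA_reps N U c
    have hgc : c = fun k => umk N U (g k) := (funext hg).symm
    subst hgc
    have h1 : (∑ k : Fin p, umk N U t ^ (k : ℕ) * umk N U (g k) ^ p) ∈ uO N U O := hc
    rw [UltraTA_sum, umk_mem_uO] at h1
    show umk N U (g k) ∈ uO N U O
    rw [umk_mem_uO]
    filter_upwards [h1] with i hi
    exact (h i).int (fun k => g k i) hi k

end TF14
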