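import Pool.Agent.W_4ce76a_h14.Syn

set_option autoImplicit false
set_option linter.unusedSectionVars false

/-!
# MP_4ce76a_lc : witnesses of formulas without ball quantifiers; easy cases of preservation

* `map_aeval_int`: `MvPolynomial.aeval` over `ℤ` commutes with ring homomorphisms.
* `qm_map`: induction, `map_aeval_int`, injectivity of `f`.
* `Pre.fin`, `OpenAll.fin`: choose `e : σ ≃ Fin n` and use `allO_ren` for `χ.ren (Sum.map id e)`.
* `up_zer`, .. , `up_nin`: `map_aeval_int`, `f` is injective, `Emb`.  `up_all'`: `Pre`.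
* `up_ex`: `Fin.comp_snoc` (or `Fin.snoc` cases by `Fin.lastCases`).
* `exists_wit`: induction on `φ`.  Atoms: `k = 0`, one literal (rename the variables with `Sum.inl`, `Lit.ren`).  `and`: tuples `y`, `z`, take `Fin.append y z` (or
  `Fin (k + l)` with `finSumFinEquiv`), rename the literals.  `or`: clear.  `ex`: if `y : Fin k → N` and literals in `Fin (n + 1) ⊕ Fin k` are
  witnesses for `Sat O φ (Fin.snoc a x)`, take `Fin.cons x y : Fin (k + 1) → N` and rename `Fin (n + 1) ⊕ Fin k → Fin n ⊕ Fin (k + 1)`.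
* `exists_fm`: induction on `k` (`k = 0`: conjunction of the atoms, for the empty list use `zer 0`; `k + 1`: rename
  `Fin n ⊕ Fin (k + 1) → Fin (n + 1) ⊕ Fin k`, the first of the `k + 1` variables becomes the last of the `n + 1` variables; `Fm.ex`).
-/

namespace TF14

theorem map_aeval_int {N N' : Type} [Field N] [Field N'] (f : N →+* N') {σ : Type}
    (a : σ → N) (F : MvPolynomial σ ℤ) :
    MvPolynomial.aeval (fun i => f (a i)) F = f (MvPolynomial.aeval a F) := by
  have h : (MvPolynomial.aeval (fun i => f (a i)) : MvPolynomial σ ℤ →ₐ[ℤ] N').toRingHom =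
      f.comp (MvPolynomial.aeval a : MvPolynomial σ ℤ →ₐ[ℤ] N).toRingHom := by
    refine MvPolynomial.ringHom_ext (fun r => ?_) (fun i => ?_)
    · simp
    · simp
  exact congrArg (fun g : MvPolynomial σ ℤ →+* N' => g F) h

theorem qm_map {N N' : Type} [Field N] [Field N'] {O : ValuationSubring N}
    {O' : ValuationSubring N'} {f : N →+* N'} (hf : ∀ x, f x ∈ O' ↔ x ∈ O) {σ : Type} (v : σ → N)
    (χ : Qm σ) : χ.Holds O' (fun i => f (v i)) ↔ χ.Holds O v := by
  induction χ with
  | nzr F =>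
    simp only [Qm.Holds]
    rw [map_aeval_int, Ne, map_eq_zero_iff f f.injective]
  | int F =>
    simp only [Qm.Holds]
    rw [map_aeval_int, hf]
  | nin F =>
    simp only [Qm.Holds]
    rw [map_aeval_int, hf]
  | and φ ψ h1 h2 => simp only [Qm.Holds, h1, h2]
  | or φ ψ h1 h2 => simp only [Qm.Holds, h1, h2]

theorem allO_down {N N' : Type} [Field N] [Field N'] {O : ValuationSubring N}
    {O' : ValuationSubring N'} {f : N →+* N'} (hf : ∀ x, f x ∈ O' ↔ x ∈ O) {σ : Type} (v : σ → N)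
    (k : ℕ) (χ : Qm (Fin k ⊕ σ)) (h : AllO O' (fun i => f (v i)) k χ) : AllO O v k χ := by
  intro w hw
  have h1 := h (fun i => f (w i)) fun i => (hf _).2 (hw i)
  have h2 : (Sum.elim (fun i => f (w i)) fun i => f (v i)) = fun i => f (Sum.elim w v i) := by
    funext i
    cases i <;> rfl
  rw [h2, qm_map hf] at h1
  exact h1

theorem holds_down {N N' : Type} [Field N] [Field N'] {O : ValuationSubring N}
    {O' : ValuationSubring N'} {f : N →+* N'} (hf : ∀ x, f x ∈ O' ↔ x ∈ O) {σ : Type} (v : σ → N)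
    (l : Lit σ) (h : l.Holds O' (fun i => f (v i))) : l.Holds O v := by
  cases l with
  | zer F =>
    have h' : MvPolynomial.aeval (fun i => f (v i)) F = 0 := h
    rw [map_aeval_int, map_eq_zero_iff f f.injective] at h'
    exact h'
  | nzr F =>
    have h' : MvPolynomial.aeval (fun i => f (v i)) F ≠ 0 := h
    rw [map_aeval_int, Ne, map_eq_zero_iff f f.injective] at h'
    exact h'
  | int F =>
    have h' : MvPolynomial.aeval (fun i => f (v i)) F ∈ O' := h
    rw [map_aeval_int, hf] at h'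
    exact h'
  | nin F =>
    have h' : MvPolynomial.aeval (fun i => f (v i)) F ∉ O' := h
    rw [map_aeval_int, hf] at h'
    exact h'
  | all k χ => exact allO_down hf v k χ h

theorem Pre.fin {N N' : Type} [Field N] [Field N'] {O : ValuationSubring N}
    {O' : ValuationSubring N'} {f : N →+* N'} (hp : Pre O O' f) {σ : Type} [Finite σ] (v : σ → N)
    (k : ℕ) (χ : Qm (Fin k ⊕ σ)) (h : AllO O v k χ) : AllO O' (fun i => f (v i)) k χ := by
  obtain ⟨n, ⟨e⟩⟩ := Finite.exists_equiv_fin σ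
  have h1 : AllO O (v ∘ e.symm) k (χ.ren (Sum.map id e)) := by
    rw [allO_ren]
    have : (v ∘ e.symm) ∘ e = v := by
      funext i
      simp
    rw [this]
    exact h
  have h2 := hp n k _ _ h1
  rw [allO_ren] at h2
  have h3 : (fun i => f ((v ∘ e.symm) i)) ∘ e = fun i => f (v i) := by
    funext i
    simp
  rw [h3] at h2
  exact h2

theorem OpenAll.fin {N : Type} [Field N] {O : ValuationSubring N} (h : OpenAll N O) {σ : Type}
    [Finite σ] (v : σ → N) (k : ℕ) (χ : Qm (Fin k ⊕ σ)) (hv : AllO O v k χ) :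
    ∃ e : N, e ≠ 0 ∧ ∀ v' : σ → N, (∀ i, Cl O e (v' i) (v i)) → AllO O v' k χ := by
  obtain ⟨n, ⟨g⟩⟩ := Finite.exists_equiv_fin σ
  have h1 : AllO O (v ∘ g.symm) k (χ.ren (Sum.map id g)) := by
    rw [allO_ren]
    have : (v ∘ g.symm) ∘ g = v := by
      funext i
      simp
    rw [this]
    exact hv
  obtain ⟨e, he, h2⟩ := h n k _ _ h1
  refine ⟨e, he, fun v' hv' => ?_⟩
  have h3 := h2 (v' ∘ g.symm) fun i => hv' _
  rw [allO_ren] at h3
  have h4 : (v' ∘ g.symm) ∘ g = v' := by
    funext i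
    simp
  rw [h4] at h3
  exact h3

theorem up_zer (p : ℕ) {n : ℕ} (F : MvPolynomial (Fin n) ℤ) : UP p (Fm.zer F) := by
  intro N N' _ _ O O' t t' _ _ f hf _ a h
  have h' : MvPolynomial.aeval a F = 0 := h
  show MvPolynomial.aeval (fun i => f (a i)) F = 0
  rw [map_aeval_int, h', map_zero]

theorem up_nzr (p : ℕ) {n : ℕ} (F : MvPolynomial (Fin n) ℤ) : UP p (Fm.nzr F) := by
  intro N N' _ _ O O' t t' _ _ f hf _ a h
  have h' : MvPolynomial.aeval a F ≠ 0 := h
  show MvPolynomial.aeval (fun i => f (a i)) F ≠ 0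
  rw [map_aeval_int]
  exact (map_ne_zero_iff f f.injective).2 h'

theorem up_int (p : ℕ) {n : ℕ} (F : MvPolynomial (Fin n) ℤ) : UP p (Fm.int F) := by
  intro N N' _ _ O O' t t' _ _ f hf _ a h
  have h' : MvPolynomial.aeval a F ∈ O := h
  show MvPolynomial.aeval (fun i => f (a i)) F ∈ O'
  rw [map_aeval_int]
  exact (hf.2 _).2 h'

theorem up_nin (p : ℕ) {n : ℕ} (F : MvPolynomial (Fin n) ℤ) : UP p (Fm.nin F) := by
  intro N N' _ _ O O' t t' _ _ f hf _ a h
  have h' : MvPolynomial.aeval a F ∉ O := h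
  show MvPolynomial.aeval (fun i => f (a i)) F ∉ O'
  rw [map_aeval_int]
  exact fun h1 => h' ((hf.2 _).1 h1)

theorem up_all' (p : ℕ) {n k : ℕ} (χ : Qm (Fin k ⊕ Fin n)) : UP p (Fm.all k χ) := by
  intro N N' _ _ O O' t t' _ _ f hf hpre a h
  exact hpre n k χ a h

theorem up_and {p n : ℕ} {φ ψ : Fm n} (h1 : UP p φ) (h2 : UP p ψ) : UP p (Fm.and φ ψ) := by
  intro N N' _ _ O O' t t' hN hN' f hf hpre a h
  exact ⟨h1 N N' O O' t t' hN hN' f hf hpre a h.1, h2 N N' O O' t t' hN hN' f hf hpre a h.2⟩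

theorem up_or {p n : ℕ} {φ ψ : Fm n} (h1 : UP p φ) (h2 : UP p ψ) : UP p (Fm.or φ ψ) := by
  intro N N' _ _ O O' t t' hN hN' f hf hpre a h
  rcases h with h | h
  · exact Or.inl (h1 N N' O O' t t' hN hN' f hf hpre a h)
  · exact Or.inr (h2 N N' O O' t t' hN hN' f hf hpre a h)

theorem up_ex {p n : ℕ} {φ : Fm (n + 1)} (h : UP p φ) : UP p (Fm.ex φ) := by
  intro N N' _ _ O O' t t' hN hN' f hf hpre a h'
  obtain ⟨x, hx⟩ := h'
  refine ⟨f x, ?_⟩
  have h1 := h N N' O O' t t' hN hN' f hf hpre _ hx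
  have h2 : (fun i => f ((Fin.snoc a x : Fin (n + 1) → N) i)) =
      (Fin.snoc (fun i => f (a i)) (f x) : Fin (n + 1) → N') := by
    funext i
    refine Fin.lastCases ?_ (fun i => ?_) i
    · rw [Fin.snoc_last, Fin.snoc_last]
    · rw [Fin.snoc_castSucc, Fin.snoc_castSucc]
  rw [h2] at h1
  exact h1

/-- formulas without ball quantifiers are preserved by embeddings (induction) -/
theorem up_of_ex {p n : ℕ} (ψ : Fm n) (hψ : Ex ψ) : UP p ψ := by
  induction ψ with
  | zer f => exact up_zer p f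
  | nzr f => exact up_nzr p f
  | int f => exact up_int p f
  | nin f => exact up_nin p f
  | all k χ => exact up_all' p χ
  | and φ ψ h1 h2 => exact up_and (h1 hψ.1) (h2 hψ.2)
  | or φ ψ h1 h2 => exact up_or (h1 hψ.1) (h2 hψ.2)
  | ex φ h => exact up_ex (h hψ)
  | ball k φ h => exact absurd hψ id

end TF14
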